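import Pool.Agent.Gen.F5.X12DC3Dm5.S000
import Pool.Agent.Gen.F5.X12DC3Dm5.S001
import Pool.Agent.Gen.F5.X12DC3Dm5.S002
import Pool.Agent.Gen.F5.X12DC3Dm5.S003
import Pool.Agent.Gen.F5.X12DC3Dm5.S004
import Pool.Agent.Gen.F5.X12DC3Dm5.S005
import Pool.Agent.Gen.F5.X12DC3Dm5.S006

set_option autoImplicit false
set_option maxRecDepth 100000

namespace Pool.Agent.Gen.F5.X12DC3Dm5

open Pool.Agent.Helper72.F5

def n0 : Cl (O (nat_lit 5)) (R (nat_lit 143633))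
    (p (nat_lit 0x109) (nat_lit 0) (p (nat_lit 0x41) (nat_lit 1) (p (nat_lit 0x200014) (nat_lit 0) (p (nat_lit 0xc1) (nat_lit 0) (p (nat_lit 0x100004) (nat_lit 0) (p (nat_lit 0xb000c) (nat_lit 0) (p (nat_lit 0x200004) (nat_lit 0) (p (nat_lit 0x380c2) (nat_lit 0) (p (nat_lit 0x3c4aa) (nat_lit 7) (p (nat_lit 0xd1) (nat_lit 1) (p (nat_lit 0xc9) (nat_lit 0) (p (nat_lit 0x101) (nat_lit 1) (p (nat_lit 0x119) (nat_lit 0) (p (nat_lit 0xc1) (nat_lit 0) (p (nat_lit 0x81) (nat_lit 1) (p (nat_lit 0x41) (nat_lit 1) (p (nat_lit 0x10a898a08881a) (nat_lit 0) (p (nat_lit 0xa090988079a) (nat_lit 0) (p (nat_lit 0x108088907871a) (nat_lit 0) (p (nat_lit 0x7880887069a) (nat_lit 0) (p (nat_lit 0x8000000000800088806860a) (nat_lit 0) (p (nat_lit 0x8000000000800068786058a) (nat_lit 0) (p (nat_lit 0x10687058502) (nat_lit 0) (p (nat_lit 0x606850482) (nat_lit 0) (p (nat_lit 0x16000c) (nat_lit 0) (p (nat_lit 0x68612)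 (nat_lit 0) (p (nat_lit 0x50592) (nat_lit 0) (p (nat_lit 0x40512) (nat_lit 0) (p (nat_lit 0x50312) (nat_lit 0) (p (nat_lit 0x38292) (nat_lit 0) (p (nat_lit 0x28212) (nat_lit 0) (p (nat_lit 0x38112) (nat_lit 0) (p (nat_lit 0x20092) (nat_lit 0) (p (nat_lit 0x10012) (nat_lit 0) pn)))))))))))))))))))))))))))))))))) :=
  Cl.node (nat_lit 0x80004) (nat_lit 2) (by decide +kernel) (ClAll.succ (ClAll.succ ClAll.zero s418) s419)

def n1 : Cl (O (nat_lit 5)) (R (nat_lit 143633))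
    (p (nat_lit 0x100014) (nat_lit 0) (p (nat_lit 0x100004) (nat_lit 0) (p (nat_lit 0x200014) (nat_lit 0) (p (nat_lit 0x200004) (nat_lit 0) (p (nat_lit 0xb000c) (nat_lit 0) (p (nat_lit 0x380c2) (nat_lit 0) (p (nat_lit 0x444aa) (nat_lit 7) (p (nat_lit 0x81) (nat_lit 1) (p (nat_lit 0xc9) (nat_lit 1) (p (nat_lit 0x109) (nat_lit 1) (p (nat_lit 0x101) (nat_lit 0) (p (nat_lit 0x119) (nat_lit 0) (p (nat_lit 0xd1) (nat_lit 0) (p (nat_lit 0x89) (nat_lit 0) (p (nat_lit 0x41) (nat_lit 0) (p (nat_lit 0x10a898a08881a) (nat_lit 0) (p (nat_lit 0xa090988079a) (nat_lit 0) (p (nat_lit 0x108088907871a) (nat_lit 0) (p (nat_lit 0x7880887069a) (nat_lit 0) (p (nat_lit 0x8000000000800088806860a) (nat_lit 0) (p (nat_lit 0x8000000000800068786058a) (nat_lit 0) (p (nat_lit 0x10687058502) (nat_lit 0) (p (nat_lit 0x606850482) (nat_lit 0) (p (nat_lit 0x16000c) (nat_lit 0) (p (nat_lit 0x68612) (nat_lit 0) (p (nat_lit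 0x50592) (nat_lit 0) (p (nat_lit 0x40512) (nat_lit 0) (p (nat_lit 0x50312) (nat_lit 0) (p (nat_lit 0x38292) (nat_lit 0) (p (nat_lit 0x28212) (nat_lit 0) (p (nat_lit 0x38112) (nat_lit 0) (p (nat_lit 0x20092) (nat_lit 0) (p (nat_lit 0x10012) (nat_lit 0) pn))))))))))))))))))))))))))))))))) :=
  Cl.node (nat_lit 0x81) (nat_lit 2) (by decide +kernel) (ClAll.succ (ClAll.succ ClAll.zero s10) s11)

def n2 : Cl (O (nat_lit 5)) (R (nat_lit 143633))
    (p (nat_lit 0x200014) (nat_lit 0) (p (nat_lit 0xc9) (nat_lit 0) (p (nat_lit 0x100004) (nat_lit 0) (p (nat_lit 0xb000c) (nat_lit 0) (p (nat_lit 0x200004) (nat_lit 0) (p (nat_lit 0x380c2) (nat_lit 0) (p (nat_lit 0x3c4aa) (nat_lit 7) (p (nat_lit 0xd1) (nat_lit 1) (p (nat_lit 0x111) (nat_lit 1) (p (nat_lit 0x109) (nat_lit 0) (p (nat_lit 0x101) (nat_lit 0) (p (nat_lit 0x119) (nat_lit 0) (p (nat_lit 0xc1) (nat_lit 0) (p (nat_lit 0x81) (nat_lit 1) (p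 (nat_lit 0x41) (nat_lit 1) (p (nat_lit 0x10a898a08881a) (nat_lit 0) (p (nat_lit 0xa090988079a) (nat_lit 0) (p (nat_lit 0x108088907871a) (nat_lit 0) (p (nat_lit 0x7880887069a) (nat_lit 0) (p (nat_lit 0x8000000000800088806860a) (nat_lit 0) (p (nat_lit 0x8000000000800068786058a) (nat_lit 0) (p (nat_lit 0x10687058502) (nat_lit 0) (p (nat_lit 0x606850482) (nat_lit 0) (p (nat_lit 0x16000c) (nat_lit 0) (p (nat_lit 0x68612) (nat_lit 0) (p (nat_lit 0x50592) (nat_lit 0) (p (nat_lit 0x40512) (nat_lit 0) (p (nat_lit 0x50312) (nat_lit 0) (p (nat_lit 0x38292) (nat_lit 0) (p (nat_lit 0x28212) (nat_lit 0) (p (nat_lit 0x38112) (nat_lit 0) (p (nat_lit 0x20092) (nat_lit 0) (p (nat_lit 0x10012) (nat_lit 0) pn))))))))))))))))))))))))))))))))) :=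
  Cl.node (nat_lit 0x80004) (nat_lit 2) (by decide +kernel) (ClAll.succ (ClAll.succ ClAll.zero s361) s362)

def n3 : Cl (O (nat_lit 5)) (R (nat_lit 143633))
    (p (nat_lit 0x100014) (nat_lit 0) (p (nat_lit 0x100004) (nat_lit 0) (p (nat_lit 0x1fc014) (nat_lit 0) (p (nat_lit 0xb000c) (nat_lit 1) (p (nat_lit 0x200004) (nat_lit 0) (p (nat_lit 0x380c2) (nat_lit 1) (p (nat_lit 0x3c4aa) (nat_lit 7) (p (nat_lit 0xd1) (nat_lit 1) (p (nat_lit 0x111) (nat_lit 1) (p (nat_lit 0x109) (nat_lit 0) (p (nat_lit 0x101) (nat_lit 0) (p (nat_lit 0x119) (nat_lit 0) (p (nat_lit 0xc1) (nat_lit 0) (p (nat_lit 0x81) (nat_lit 1) (p (nat_lit 0x41) (nat_lit 1) (p (nat_lit 0x10a898a08881a) (nat_lit 0) (p (nat_lit 0xa090988079a) (nat_lit 0) (p (nat_lit 0x108088907871a) (nat_lit 0) (p (nat_lit 0x7880887069a) (nat_lit 0) (p (nat_lit 0x8000000000800088806860a) (nat_lit 0) (p (nat_lit 0x8000000000800068786058a) (nat_lit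 0) (p (nat_lit 0x10687058502) (nat_lit 0) (p (nat_lit 0x606850482) (nat_lit 0) (p (nat_lit 0x16000c) (nat_lit 0) (p (nat_lit 0x68612) (nat_lit 0) (p (nat_lit 0x50592) (nat_lit 0) (p (nat_lit 0x40512) (nat_lit 0) (p (nat_lit 0x50312) (nat_lit 0) (p (nat_lit 0x38292) (nat_lit 0) (p (nat_lit 0x28212) (nat_lit 0) (p (nat_lit 0x38112) (nat_lit 0) (p (nat_lit 0x20092) (nat_lit 0) (p (nat_lit 0x10012) (nat_lit 0) pn))))))))))))))))))))))))))))))))) :=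
  Cl.node (nat_lit 0x10800c) (nat_lit 2) (by decide +kernel) (ClAll.succ (ClAll.succ ClAll.zero s372) s373)

def n4 : Cl (O (nat_lit 5)) (R (nat_lit 143633))
    (p (nat_lit 0x41) (nat_lit 1) (p (nat_lit 0x200014) (nat_lit 0) (p (nat_lit 0xc1) (nat_lit 0) (p (nat_lit 0x100004) (nat_lit 0) (p (nat_lit 0xb000c) (nat_lit 0) (p (nat_lit 0x200004) (nat_lit 0) (p (nat_lit 0x380c2) (nat_lit 0) (p (nat_lit 0x3c4aa) (nat_lit 7) (p (nat_lit 0xd1) (nat_lit 1) (p (nat_lit 0xc9) (nat_lit 0) (p (nat_lit 0x101) (nat_lit 1) (p (nat_lit 0x119) (nat_lit 0) (p (nat_lit 0xc1) (nat_lit 0) (p (nat_lit 0x81) (nat_lit 1) (p (nat_lit 0x41) (nat_lit 1) (p (nat_lit 0x10a898a08881a) (nat_lit 0) (p (nat_lit 0xa090988079a) (nat_lit 0) (p (nat_lit 0x108088907871a) (nat_lit 0) (p (nat_lit 0x7880887069a) (nat_lit 0) (p (nat_lit 0x8000000000800088806860a) (nat_lit 0) (p (nat_lit 0x8000000000800068786058a) (nat_lit 0)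 (p (nat_lit 0x10687058502) (nat_lit 0) (p (nat_lit 0x606850482) (nat_lit 0) (p (nat_lit 0x16000c) (nat_lit 0) (p (nat_lit 0x68612) (nat_lit 0) (p (nat_lit 0x50592) (nat_lit 0) (p (nat_lit 0x40512) (nat_lit 0) (p (nat_lit 0x50312) (nat_lit 0) (p (nat_lit 0x38292) (nat_lit 0) (p (nat_lit 0x28212) (nat_lit 0) (p (nat_lit 0x38112) (nat_lit 0) (p (nat_lit 0x20092) (nat_lit 0) (p (nat_lit 0x10012) (nat_lit 0) pn))))))))))))))))))))))))))))))))) :=
  Cl.node (nat_lit 0x109) (nat_lit 2) (by decide +kernel) (ClAll.succ (ClAll.succ ClAll.zero n0) s420)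

def n5 : Cl (O (nat_lit 5)) (R (nat_lit 143633))
    (p (nat_lit 0x100004) (nat_lit 0) (p (nat_lit 0x200014) (nat_lit 0) (p (nat_lit 0x200004) (nat_lit 0) (p (nat_lit 0xb000c) (nat_lit 0) (p (nat_lit 0x380c2) (nat_lit 0) (p (nat_lit 0x444aa) (nat_lit 7) (p (nat_lit 0x81) (nat_lit 1) (p (nat_lit 0xc9) (nat_lit 1) (p (nat_lit 0x109) (nat_lit 1) (p (nat_lit 0x101) (nat_lit 0) (p (nat_lit 0x119) (nat_lit 0) (p (nat_lit 0xd1) (nat_lit 0) (p (nat_lit 0x89) (nat_lit 0) (p (nat_lit 0x41) (nat_lit 0) (p (nat_lit 0x10a898a08881a) (nat_lit 0) (p (nat_lit 0xa090988079a) (nat_lit 0) (p (nat_lit 0x108088907871a) (nat_lit 0) (p (nat_lit 0x7880887069a) (nat_lit 0) (p (nat_lit 0x8000000000800088806860a) (nat_lit 0) (p (nat_lit 0x8000000000800068786058a) (nat_lit 0) (p (nat_lit 0x10687058502) (nat_lit 0) (p (nat_lit 0x606850482) (nat_lit 0) (p (nat_lit 0x16000c) (nat_lit 0) (p (nat_lit 0x68612) (nat_lit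 0) (p (nat_lit 0x50592) (nat_lit 0) (p (nat_lit 0x40512) (nat_lit 0) (p (nat_lit 0x50312) (nat_lit 0) (p (nat_lit 0x38292) (nat_lit 0) (p (nat_lit 0x28212) (nat_lit 0) (p (nat_lit 0x38112) (nat_lit 0) (p (nat_lit 0x20092) (nat_lit 0) (p (nat_lit 0x10012) (nat_lit 0) pn)))))))))))))))))))))))))))))))) :=
  Cl.node (nat_lit 0x100014) (nat_lit 2) (by decide +kernel) (ClAll.succ (ClAll.succ ClAll.zero n1) s12)

def n6 : Cl (O (nat_lit 5)) (R (nat_lit 143633))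
    (p (nat_lit 0x100004) (nat_lit 0) (p (nat_lit 0x100014) (nat_lit 0) (p (nat_lit 0x200014) (nat_lit 0) (p (nat_lit 0x200004) (nat_lit 0) (p (nat_lit 0xb000c) (nat_lit 0) (p (nat_lit 0x380c2) (nat_lit 0) (p (nat_lit 0x444aa) (nat_lit 7) (p (nat_lit 0xd1) (nat_lit 1) (p (nat_lit 0x109) (nat_lit 1) (p (nat_lit 0x101) (nat_lit 0) (p (nat_lit 0x119) (nat_lit 0) (p (nat_lit 0xc9) (nat_lit 0) (p (nat_lit 0x89) (nat_lit 1) (p (nat_lit 0x41) (nat_lit 0) (p (nat_lit 0x10a898a08881a) (nat_lit 0) (p (nat_lit 0xa090988079a) (nat_lit 0) (p (nat_lit 0x108088907871a) (nat_lit 0) (p (nat_lit 0x7880887069a) (nat_lit 0) (p (nat_lit 0x8000000000800088806860a) (nat_lit 0) (p (nat_lit 0x8000000000800068786058a) (nat_lit 0) (p (nat_lit 0x10687058502) (nat_lit 0) (p (nat_lit 0x606850482) (nat_lit 0) (p (nat_lit 0x16000c) (nat_lit 0) (p (nat_lit 0x68612) (nat_lit 0) (p (nat_lit 0x50592) (nat_lit 0) (p (nat_lit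 0x40512) (nat_lit 0) (p (nat_lit 0x50312) (nat_lit 0) (p (nat_lit 0x38292) (nat_lit 0) (p (nat_lit 0x28212) (nat_lit 0) (p (nat_lit 0x38112) (nat_lit 0) (p (nat_lit 0x20092) (nat_lit 0) (p (nat_lit 0x10012) (nat_lit 0) pn)))))))))))))))))))))))))))))))) :=
  Cl.node (nat_lit 0xc1) (nat_lit 2) (by decide +kernel) (ClAll.succ (ClAll.succ ClAll.zero s121) s122)

def n7 : Cl (O (nat_lit 5)) (R (nat_lit 143633))
    (p (nat_lit 0xb000c) (nat_lit 0) (p (nat_lit 0x100004) (nat_lit 0) (p (nat_lit 0x100014) (nat_lit 0) (p (nat_lit 0x200004) (nat_lit 0) (p (nat_lit 0x200014) (nat_lit 0) (p (nat_lit 0x380c2) (nat_lit 1) (p (nat_lit 0x444aa) (nat_lit 7) (p (nat_lit 0xd1) (nat_lit 1) (p (nat_lit 0x109) (nat_lit 1) (p (nat_lit 0x101) (nat_lit 0) (p (nat_lit 0x119) (nat_lit 0) (p (nat_lit 0xc9) (nat_lit 0) (p (nat_lit 0x89) (nat_lit 1) (p (nat_lit 0x41) (nat_lit 0) (p (nat_lit 0x10a898a08881a) (nat_lit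 0) (p (nat_lit 0xa090988079a) (nat_lit 0) (p (nat_lit 0x108088907871a) (nat_lit 0) (p (nat_lit 0x7880887069a) (nat_lit 0) (p (nat_lit 0x8000000000800088806860a) (nat_lit 0) (p (nat_lit 0x8000000000800068786058a) (nat_lit 0) (p (nat_lit 0x10687058502) (nat_lit 0) (p (nat_lit 0x606850482) (nat_lit 0) (p (nat_lit 0x16000c) (nat_lit 0) (p (nat_lit 0x68612) (nat_lit 0) (p (nat_lit 0x50592) (nat_lit 0) (p (nat_lit 0x40512) (nat_lit 0) (p (nat_lit 0x50312) (nat_lit 0) (p (nat_lit 0x38292) (nat_lit 0) (p (nat_lit 0x28212) (nat_lit 0) (p (nat_lit 0x38112) (nat_lit 0) (p (nat_lit 0x20092) (nat_lit 0) (p (nat_lit 0x10012) (nat_lit 0) pn)))))))))))))))))))))))))))))))) :=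
  Cl.node (nat_lit 0xc1) (nat_lit 2) (by decide +kernel) (ClAll.succ (ClAll.succ ClAll.zero s128) s129)

def n8 : Cl (O (nat_lit 5)) (R (nat_lit 143633))
    (p (nat_lit 0x100014) (nat_lit 0) (p (nat_lit 0x100004) (nat_lit 0) (p (nat_lit 0x200004) (nat_lit 0) (p (nat_lit 0x200014) (nat_lit 0) (p (nat_lit 0x380c2) (nat_lit 0) (p (nat_lit 0x3c4aa) (nat_lit 10) (p (nat_lit 0x109) (nat_lit 1) (p (nat_lit 0x89) (nat_lit 1) (p (nat_lit 0xc9) (nat_lit 1) (p (nat_lit 0xc1) (nat_lit 0) (p (nat_lit 0x119) (nat_lit 1) (p (nat_lit 0xd1) (nat_lit 0) (p (nat_lit 0x81) (nat_lit 0) (p (nat_lit 0x41) (nat_lit 1) (p (nat_lit 0x10a898a08881a) (nat_lit 0) (p (nat_lit 0xa090988079a) (nat_lit 0) (p (nat_lit 0x108088907871a) (nat_lit 0) (p (nat_lit 0x7880887069a) (nat_lit 0) (p (nat_lit 0x8000000000800088806860a) (nat_lit 0) (p (nat_lit 0x8000000000800068786058a) (nat_lit 0) (p (nat_lit 0x10687058502) (nat_lit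 0) (p (nat_lit 0x606850482) (nat_lit 0) (p (nat_lit 0x16000c) (nat_lit 0) (p (nat_lit 0x68612) (nat_lit 0) (p (nat_lit 0x50592) (nat_lit 0) (p (nat_lit 0x40512) (nat_lit 0) (p (nat_lit 0x50312) (nat_lit 0) (p (nat_lit 0x38292) (nat_lit 0) (p (nat_lit 0x28212) (nat_lit 0) (p (nat_lit 0x38112) (nat_lit 0) (p (nat_lit 0x20092) (nat_lit 0) (p (nat_lit 0x10012) (nat_lit 0) pn)))))))))))))))))))))))))))))))) :=
  Cl.node (nat_lit 0x80004) (nat_lit 2) (by decide +kernel) (ClAll.succ (ClAll.succ ClAll.zero s270) s271)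

def n9 : Cl (O (nat_lit 5)) (R (nat_lit 143633))
    (p (nat_lit 0xc9) (nat_lit 0) (p (nat_lit 0x100004) (nat_lit 0) (p (nat_lit 0xb000c) (nat_lit 0) (p (nat_lit 0x200004) (nat_lit 0) (p (nat_lit 0x380c2) (nat_lit 0) (p (nat_lit 0x3c4aa) (nat_lit 7) (p (nat_lit 0xd1) (nat_lit 1) (p (nat_lit 0x111) (nat_lit 1) (p (nat_lit 0x109) (nat_lit 0) (p (nat_lit 0x101) (nat_lit 0) (p (nat_lit 0x119) (nat_lit 0) (p (nat_lit 0xc1) (nat_lit 0) (p (nat_lit 0x81) (nat_lit 1) (p (nat_lit 0x41) (nat_lit 1) (p (nat_lit 0x10a898a08881a) (nat_lit 0) (p (nat_lit 0xa090988079a) (nat_lit 0) (p (nat_lit 0x108088907871a) (nat_lit 0) (p (nat_lit 0x7880887069a) (nat_lit 0) (p (nat_lit 0x8000000000800088806860a) (nat_lit 0) (p (nat_lit 0x8000000000800068786058a) (nat_lit 0) (p (nat_lit 0x10687058502) (nat_lit 0) (p (nat_lit 0x606850482) (nat_lit 0) (p (nat_lit 0x16000c) (nat_lit 0) (p (nat_lit 0x68612) (nat_lit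 0) (p (nat_lit 0x50592) (nat_lit 0) (p (nat_lit 0x40512) (nat_lit 0) (p (nat_lit 0x50312) (nat_lit 0) (p (nat_lit 0x38292) (nat_lit 0) (p (nat_lit 0x28212) (nat_lit 0) (p (nat_lit 0x38112) (nat_lit 0) (p (nat_lit 0x20092) (nat_lit 0) (p (nat_lit 0x10012) (nat_lit 0) pn)))))))))))))))))))))))))))))))) :=
  Cl.node (nat_lit 0x200014) (nat_lit 2) (by decide +kernel) (ClAll.succ (ClAll.succ ClAll.zero n2) s363)

def n10 : Cl (O (nat_lit 5)) (R (nat_lit 143633))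
    (p (nat_lit 0x200014) (nat_lit 0) (p (nat_lit 0x100004) (nat_lit 0) (p (nat_lit 0xb000c) (nat_lit 0) (p (nat_lit 0x200004) (nat_lit 0) (p (nat_lit 0x380c2) (nat_lit 1) (p (nat_lit 0x3c4aa) (nat_lit 7) (p (nat_lit 0xd1) (nat_lit 1) (p (nat_lit 0x111) (nat_lit 1) (p (nat_lit 0x109) (nat_lit 0) (p (nat_lit 0x101) (nat_lit 0) (p (nat_lit 0x119) (nat_lit 0) (p (nat_lit 0xc1) (nat_lit 0) (p (nat_lit 0x81) (nat_lit 1) (p (nat_lit 0x41) (nat_lit 1) (p (nat_lit 0x10a898a08881a) (nat_lit 0) (p (nat_lit 0xa090988079a) (nat_lit 0) (p (nat_lit 0x108088907871a) (nat_lit 0) (p (nat_lit 0x7880887069a) (nat_lit 0) (p (nat_lit 0x8000000000800088806860a) (nat_lit 0) (p (nat_lit 0x8000000000800068786058a) (nat_lit 0) (p (nat_lit 0x10687058502) (nat_lit 0) (p (nat_lit 0x606850482) (nat_lit 0) (p (nat_lit 0x16000c) (nat_lit 0) (p (nat_lit 0x68612) (nat_lit 0) (p (nat_lit 0x50592) (nat_lit 0) (p (nat_lit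 0x40512) (nat_lit 0) (p (nat_lit 0x50312) (nat_lit 0) (p (nat_lit 0x38292) (nat_lit 0) (p (nat_lit 0x28212) (nat_lit 0) (p (nat_lit 0x38112) (nat_lit 0) (p (nat_lit 0x20092) (nat_lit 0) (p (nat_lit 0x10012) (nat_lit 0) pn)))))))))))))))))))))))))))))))) :=
  Cl.node (nat_lit 0xc9) (nat_lit 2) (by decide +kernel) (ClAll.succ (ClAll.succ ClAll.zero s368) s369)

def n11 : Cl (O (nat_lit 5)) (R (nat_lit 143633))
    (p (nat_lit 0x100004) (nat_lit 0) (p (nat_lit 0x1fc014) (nat_lit 0) (p (nat_lit 0xb000c) (nat_lit 1) (p (nat_lit 0x200004) (nat_lit 0) (p (nat_lit 0x380c2) (nat_lit 1) (p (nat_lit 0x3c4aa) (nat_lit 7) (p (nat_lit 0xd1) (nat_lit 1) (p (nat_lit 0x111) (nat_lit 1) (p (nat_lit 0x109) (nat_lit 0) (p (nat_lit 0x101) (nat_lit 0) (p (nat_lit 0x119) (nat_lit 0) (p (nat_lit 0xc1) (nat_lit 0) (p (nat_lit 0x81) (nat_lit 1) (p (nat_lit 0x41) (nat_lit 1) (p (nat_lit 0x10a898a08881a) (nat_lit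 0) (p (nat_lit 0xa090988079a) (nat_lit 0) (p (nat_lit 0x108088907871a) (nat_lit 0) (p (nat_lit 0x7880887069a) (nat_lit 0) (p (nat_lit 0x8000000000800088806860a) (nat_lit 0) (p (nat_lit 0x8000000000800068786058a) (nat_lit 0) (p (nat_lit 0x10687058502) (nat_lit 0) (p (nat_lit 0x606850482) (nat_lit 0) (p (nat_lit 0x16000c) (nat_lit 0) (p (nat_lit 0x68612) (nat_lit 0) (p (nat_lit 0x50592) (nat_lit 0) (p (nat_lit 0x40512) (nat_lit 0) (p (nat_lit 0x50312) (nat_lit 0) (p (nat_lit 0x38292) (nat_lit 0) (p (nat_lit 0x28212) (nat_lit 0) (p (nat_lit 0x38112) (nat_lit 0) (p (nat_lit 0x20092) (nat_lit 0) (p (nat_lit 0x10012) (nat_lit 0) pn)))))))))))))))))))))))))))))))) :=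
  Cl.node (nat_lit 0x100014) (nat_lit 2) (by decide +kernel) (ClAll.succ (ClAll.succ ClAll.zero n3) s374)

def n12 : Cl (O (nat_lit 5)) (R (nat_lit 143633))
    (p (nat_lit 0x200014) (nat_lit 0) (p (nat_lit 0xc1) (nat_lit 0) (p (nat_lit 0x100004) (nat_lit 0) (p (nat_lit 0xb000c) (nat_lit 0) (p (nat_lit 0x200004) (nat_lit 0) (p (nat_lit 0x380c2) (nat_lit 0) (p (nat_lit 0x3c4aa) (nat_lit 7) (p (nat_lit 0xd1) (nat_lit 1) (p (nat_lit 0xc9) (nat_lit 0) (p (nat_lit 0x101) (nat_lit 1) (p (nat_lit 0x119) (nat_lit 0) (p (nat_lit 0xc1) (nat_lit 0) (p (nat_lit 0x81) (nat_lit 1) (p (nat_lit 0x41) (nat_lit 1) (p (nat_lit 0x10a898a08881a) (nat_lit 0) (p (nat_lit 0xa090988079a) (nat_lit 0) (p (nat_lit 0x108088907871a) (nat_lit 0) (p (nat_lit 0x7880887069a) (nat_lit 0) (p (nat_lit 0x8000000000800088806860a) (nat_lit 0) (p (nat_lit 0x8000000000800068786058a) (nat_lit 0) (p (nat_lit 0x10687058502) (nat_lit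 0) (p (nat_lit 0x606850482) (nat_lit 0) (p (nat_lit 0x16000c) (nat_lit 0) (p (nat_lit 0x68612) (nat_lit 0) (p (nat_lit 0x50592) (nat_lit 0) (p (nat_lit 0x40512) (nat_lit 0) (p (nat_lit 0x50312) (nat_lit 0) (p (nat_lit 0x38292) (nat_lit 0) (p (nat_lit 0x28212) (nat_lit 0) (p (nat_lit 0x38112) (nat_lit 0) (p (nat_lit 0x20092) (nat_lit 0) (p (nat_lit 0x10012) (nat_lit 0) pn)))))))))))))))))))))))))))))))) :=
  Cl.node (nat_lit 0x41) (nat_lit 2) (by decide +kernel) (ClAll.succ (ClAll.succ ClAll.zero s417) n4)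

def n13 : Cl (O (nat_lit 5)) (R (nat_lit 143633))
    (p (nat_lit 0x200014) (nat_lit 0) (p (nat_lit 0x200004) (nat_lit 0) (p (nat_lit 0xb000c) (nat_lit 0) (p (nat_lit 0x380c2) (nat_lit 0) (p (nat_lit 0x444aa) (nat_lit 7) (p (nat_lit 0x81) (nat_lit 1) (p (nat_lit 0xc9) (nat_lit 1) (p (nat_lit 0x109) (nat_lit 1) (p (nat_lit 0x101) (nat_lit 0) (p (nat_lit 0x119) (nat_lit 0) (p (nat_lit 0xd1) (nat_lit 0) (p (nat_lit 0x89) (nat_lit 0) (p (nat_lit 0x41) (nat_lit 0) (p (nat_lit 0x10a898a08881a) (nat_lit 0) (p (nat_lit 0xa090988079a) (nat_lit 0) (p (nat_lit 0x108088907871a) (nat_lit 0) (p (nat_lit 0x7880887069a) (nat_lit 0) (p (nat_lit 0x8000000000800088806860a) (nat_lit 0) (p (nat_lit 0x8000000000800068786058a) (nat_lit 0) (p (nat_lit 0x10687058502) (nat_lit 0) (p (nat_lit 0x606850482) (nat_lit 0) (p (nat_lit 0x16000c) (nat_lit 0) (p (nat_lit 0x68612) (nat_lit 0) (p (nat_lit 0x50592) (nat_lit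 0) (p (nat_lit 0x40512) (nat_lit 0) (p (nat_lit 0x50312) (nat_lit 0) (p (nat_lit 0x38292) (nat_lit 0) (p (nat_lit 0x28212) (nat_lit 0) (p (nat_lit 0x38112) (nat_lit 0) (p (nat_lit 0x20092) (nat_lit 0) (p (nat_lit 0x10012) (nat_lit 0) pn))))))))))))))))))))))))))))))) :=
  Cl.node (nat_lit 0x100004) (nat_lit 2) (by decide +kernel) (ClAll.succ (ClAll.succ ClAll.zero n5) s13)

def n14 : Cl (O (nat_lit 5)) (R (nat_lit 143633))
    (p (nat_lit 0x100014) (nat_lit 0) (p (nat_lit 0x200014) (nat_lit 0) (p (nat_lit 0x200004) (nat_lit 0) (p (nat_lit 0xb000c) (nat_lit 0) (p (nat_lit 0x380c2) (nat_lit 0) (p (nat_lit 0x444aa) (nat_lit 7) (p (nat_lit 0xd1) (nat_lit 1) (p (nat_lit 0x109) (nat_lit 1) (p (nat_lit 0x101) (nat_lit 0) (p (nat_lit 0x119) (nat_lit 0) (p (nat_lit 0xc9) (nat_lit 0) (p (nat_lit 0x89) (nat_lit 1) (p (nat_lit 0x41) (nat_lit 0) (p (nat_lit 0x10a898a08881a) (nat_lit 0) (p (nat_lit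 0xa090988079a) (nat_lit 0) (p (nat_lit 0x108088907871a) (nat_lit 0) (p (nat_lit 0x7880887069a) (nat_lit 0) (p (nat_lit 0x8000000000800088806860a) (nat_lit 0) (p (nat_lit 0x8000000000800068786058a) (nat_lit 0) (p (nat_lit 0x10687058502) (nat_lit 0) (p (nat_lit 0x606850482) (nat_lit 0) (p (nat_lit 0x16000c) (nat_lit 0) (p (nat_lit 0x68612) (nat_lit 0) (p (nat_lit 0x50592) (nat_lit 0) (p (nat_lit 0x40512) (nat_lit 0) (p (nat_lit 0x50312) (nat_lit 0) (p (nat_lit 0x38292) (nat_lit 0) (p (nat_lit 0x28212) (nat_lit 0) (p (nat_lit 0x38112) (nat_lit 0) (p (nat_lit 0x20092) (nat_lit 0) (p (nat_lit 0x10012) (nat_lit 0) pn))))))))))))))))))))))))))))))) :=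
  Cl.node (nat_lit 0x100004) (nat_lit 2) (by decide +kernel) (ClAll.succ (ClAll.succ ClAll.zero n6) s123)

def n15 : Cl (O (nat_lit 5)) (R (nat_lit 143633))
    (p (nat_lit 0x100004) (nat_lit 0) (p (nat_lit 0x100014) (nat_lit 0) (p (nat_lit 0x200004) (nat_lit 0) (p (nat_lit 0x200014) (nat_lit 0) (p (nat_lit 0x380c2) (nat_lit 1) (p (nat_lit 0x444aa) (nat_lit 7) (p (nat_lit 0xd1) (nat_lit 1) (p (nat_lit 0x109) (nat_lit 1) (p (nat_lit 0x101) (nat_lit 0) (p (nat_lit 0x119) (nat_lit 0) (p (nat_lit 0xc9) (nat_lit 0) (p (nat_lit 0x89) (nat_lit 1) (p (nat_lit 0x41) (nat_lit 0) (p (nat_lit 0x10a898a08881a) (nat_lit 0) (p (nat_lit 0xa090988079a) (nat_lit 0) (p (nat_lit 0x108088907871a) (nat_lit 0) (p (nat_lit 0x7880887069a) (nat_lit 0) (p (nat_lit 0x8000000000800088806860a) (nat_lit 0) (p (nat_lit 0x8000000000800068786058a) (nat_lit 0) (p (nat_lit 0x10687058502) (nat_lit 0) (p (nat_lit 0x606850482)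 (nat_lit 0) (p (nat_lit 0x16000c) (nat_lit 0) (p (nat_lit 0x68612) (nat_lit 0) (p (nat_lit 0x50592) (nat_lit 0) (p (nat_lit 0x40512) (nat_lit 0) (p (nat_lit 0x50312) (nat_lit 0) (p (nat_lit 0x38292) (nat_lit 0) (p (nat_lit 0x28212) (nat_lit 0) (p (nat_lit 0x38112) (nat_lit 0) (p (nat_lit 0x20092) (nat_lit 0) (p (nat_lit 0x10012) (nat_lit 0) pn))))))))))))))))))))))))))))))) :=
  Cl.node (nat_lit 0xb000c) (nat_lit 2) (by decide +kernel) (ClAll.succ (ClAll.succ ClAll.zero n7) s130)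

def n16 : Cl (O (nat_lit 5)) (R (nat_lit 143633))
    (p (nat_lit 0x100004) (nat_lit 0) (p (nat_lit 0x200004) (nat_lit 0) (p (nat_lit 0x200014) (nat_lit 0) (p (nat_lit 0x380c2) (nat_lit 0) (p (nat_lit 0x3c4aa) (nat_lit 10) (p (nat_lit 0x109) (nat_lit 1) (p (nat_lit 0x89) (nat_lit 1) (p (nat_lit 0xc9) (nat_lit 1) (p (nat_lit 0xc1) (nat_lit 0) (p (nat_lit 0x119) (nat_lit 1) (p (nat_lit 0xd1) (nat_lit 0) (p (nat_lit 0x81) (nat_lit 0) (p (nat_lit 0x41) (nat_lit 1) (p (nat_lit 0x10a898a08881a) (nat_lit 0) (p (nat_lit 0xa090988079a) (nat_lit 0) (p (nat_lit 0x108088907871a) (nat_lit 0) (p (nat_lit 0x7880887069a) (nat_lit 0) (p (nat_lit 0x8000000000800088806860a) (nat_lit 0) (p (nat_lit 0x8000000000800068786058a) (nat_lit 0) (p (nat_lit 0x10687058502) (nat_lit 0) (p (nat_lit 0x606850482) (nat_lit 0) (p (nat_lit 0x16000c) (nat_lit 0) (p (nat_lit 0x68612) (nat_lit 0) (p (nat_lit 0x50592) (nat_lit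 0) (p (nat_lit 0x40512) (nat_lit 0) (p (nat_lit 0x50312) (nat_lit 0) (p (nat_lit 0x38292) (nat_lit 0) (p (nat_lit 0x28212) (nat_lit 0) (p (nat_lit 0x38112) (nat_lit 0) (p (nat_lit 0x20092) (nat_lit 0) (p (nat_lit 0x10012) (nat_lit 0) pn))))))))))))))))))))))))))))))) :=
  Cl.node (nat_lit 0x100014) (nat_lit 2) (by decide +kernel) (ClAll.succ (ClAll.succ ClAll.zero n8) s272)

def n17 : Cl (O (nat_lit 5)) (R (nat_lit 143633))
    (p (nat_lit 0x100004) (nat_lit 0) (p (nat_lit 0xb000c) (nat_lit 0) (p (nat_lit 0x200004) (nat_lit 0) (p (nat_lit 0x380c2) (nat_lit 0) (p (nat_lit 0x3c4aa) (nat_lit 7) (p (nat_lit 0xd1) (nat_lit 1) (p (nat_lit 0x111) (nat_lit 1) (p (nat_lit 0x109) (nat_lit 0) (p (nat_lit 0x101) (nat_lit 0) (p (nat_lit 0x119) (nat_lit 0) (p (nat_lit 0xc1) (nat_lit 0) (p (nat_lit 0x81) (nat_lit 1) (p (nat_lit 0x41) (nat_lit 1) (p (nat_lit 0x10a898a08881a) (nat_lit 0) (p (nat_lit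 0xa090988079a) (nat_lit 0) (p (nat_lit 0x108088907871a) (nat_lit 0) (p (nat_lit 0x7880887069a) (nat_lit 0) (p (nat_lit 0x8000000000800088806860a) (nat_lit 0) (p (nat_lit 0x8000000000800068786058a) (nat_lit 0) (p (nat_lit 0x10687058502) (nat_lit 0) (p (nat_lit 0x606850482) (nat_lit 0) (p (nat_lit 0x16000c) (nat_lit 0) (p (nat_lit 0x68612) (nat_lit 0) (p (nat_lit 0x50592) (nat_lit 0) (p (nat_lit 0x40512) (nat_lit 0) (p (nat_lit 0x50312) (nat_lit 0) (p (nat_lit 0x38292) (nat_lit 0) (p (nat_lit 0x28212) (nat_lit 0) (p (nat_lit 0x38112) (nat_lit 0) (p (nat_lit 0x20092) (nat_lit 0) (p (nat_lit 0x10012) (nat_lit 0) pn))))))))))))))))))))))))))))))) :=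
  Cl.node (nat_lit 0xc9) (nat_lit 2) (by decide +kernel) (ClAll.succ (ClAll.succ ClAll.zero n9) s364)

def n18 : Cl (O (nat_lit 5)) (R (nat_lit 143633))
    (p (nat_lit 0x100004) (nat_lit 0) (p (nat_lit 0xb000c) (nat_lit 0) (p (nat_lit 0x200004) (nat_lit 0) (p (nat_lit 0x380c2) (nat_lit 1) (p (nat_lit 0x3c4aa) (nat_lit 7) (p (nat_lit 0xd1) (nat_lit 1) (p (nat_lit 0x111) (nat_lit 1) (p (nat_lit 0x109) (nat_lit 0) (p (nat_lit 0x101) (nat_lit 0) (p (nat_lit 0x119) (nat_lit 0) (p (nat_lit 0xc1) (nat_lit 0) (p (nat_lit 0x81) (nat_lit 1) (p (nat_lit 0x41) (nat_lit 1) (p (nat_lit 0x10a898a08881a) (nat_lit 0) (p (nat_lit 0xa090988079a) (nat_lit 0) (p (nat_lit 0x108088907871a) (nat_lit 0) (p (nat_lit 0x7880887069a) (nat_lit 0) (p (nat_lit 0x8000000000800088806860a) (nat_lit 0) (p (nat_lit 0x8000000000800068786058a) (nat_lit 0) (p (nat_lit 0x10687058502) (nat_lit 0) (p (nat_lit 0x606850482) (nat_lit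 0) (p (nat_lit 0x16000c) (nat_lit 0) (p (nat_lit 0x68612) (nat_lit 0) (p (nat_lit 0x50592) (nat_lit 0) (p (nat_lit 0x40512) (nat_lit 0) (p (nat_lit 0x50312) (nat_lit 0) (p (nat_lit 0x38292) (nat_lit 0) (p (nat_lit 0x28212) (nat_lit 0) (p (nat_lit 0x38112) (nat_lit 0) (p (nat_lit 0x20092) (nat_lit 0) (p (nat_lit 0x10012) (nat_lit 0) pn))))))))))))))))))))))))))))))) :=
  Cl.node (nat_lit 0x200014) (nat_lit 2) (by decide +kernel) (ClAll.succ (ClAll.succ ClAll.zero n10) s370)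

def n19 : Cl (O (nat_lit 5)) (R (nat_lit 143633))
    (p (nat_lit 0x1fc014) (nat_lit 0) (p (nat_lit 0xb000c) (nat_lit 1) (p (nat_lit 0x200004) (nat_lit 0) (p (nat_lit 0x380c2) (nat_lit 1) (p (nat_lit 0x3c4aa) (nat_lit 7) (p (nat_lit 0xd1) (nat_lit 1) (p (nat_lit 0x111) (nat_lit 1) (p (nat_lit 0x109) (nat_lit 0) (p (nat_lit 0x101) (nat_lit 0) (p (nat_lit 0x119) (nat_lit 0) (p (nat_lit 0xc1) (nat_lit 0) (p (nat_lit 0x81) (nat_lit 1) (p (nat_lit 0x41) (nat_lit 1) (p (nat_lit 0x10a898a08881a) (nat_lit 0) (p (nat_lit 0xa090988079a) (nat_lit 0) (p (nat_lit 0x108088907871a) (nat_lit 0) (p (nat_lit 0x7880887069a) (nat_lit 0) (p (nat_lit 0x8000000000800088806860a) (nat_lit 0) (p (nat_lit 0x8000000000800068786058a) (nat_lit 0) (p (nat_lit 0x10687058502) (nat_lit 0) (p (nat_lit 0x606850482) (nat_lit 0) (p (nat_lit 0x16000c) (nat_lit 0) (p (nat_lit 0x68612) (nat_lit 0) (p (nat_lit 0x50592) (nat_lit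 0) (p (nat_lit 0x40512) (nat_lit 0) (p (nat_lit 0x50312) (nat_lit 0) (p (nat_lit 0x38292) (nat_lit 0) (p (nat_lit 0x28212) (nat_lit 0) (p (nat_lit 0x38112) (nat_lit 0) (p (nat_lit 0x20092) (nat_lit 0) (p (nat_lit 0x10012) (nat_lit 0) pn))))))))))))))))))))))))))))))) :=
  Cl.node (nat_lit 0x100004) (nat_lit 2) (by decide +kernel) (ClAll.succ (ClAll.succ ClAll.zero n11) s375)

def n20 : Cl (O (nat_lit 5)) (R (nat_lit 143633))
    (p (nat_lit 0xc1) (nat_lit 0) (p (nat_lit 0x100004) (nat_lit 0) (p (nat_lit 0xb000c) (nat_lit 0) (p (nat_lit 0x200004) (nat_lit 0) (p (nat_lit 0x380c2) (nat_lit 0) (p (nat_lit 0x3c4aa) (nat_lit 7) (p (nat_lit 0xd1) (nat_lit 1) (p (nat_lit 0xc9) (nat_lit 0) (p (nat_lit 0x101) (nat_lit 1) (p (nat_lit 0x119) (nat_lit 0) (p (nat_lit 0xc1) (nat_lit 0) (p (nat_lit 0x81) (nat_lit 1) (p (nat_lit 0x41) (nat_lit 1) (p (nat_lit 0x10a898a08881a) (nat_lit 0) (p (nat_lit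 0xa090988079a) (nat_lit 0) (p (nat_lit 0x108088907871a) (nat_lit 0) (p (nat_lit 0x7880887069a) (nat_lit 0) (p (nat_lit 0x8000000000800088806860a) (nat_lit 0) (p (nat_lit 0x8000000000800068786058a) (nat_lit 0) (p (nat_lit 0x10687058502) (nat_lit 0) (p (nat_lit 0x606850482) (nat_lit 0) (p (nat_lit 0x16000c) (nat_lit 0) (p (nat_lit 0x68612) (nat_lit 0) (p (nat_lit 0x50592) (nat_lit 0) (p (nat_lit 0x40512) (nat_lit 0) (p (nat_lit 0x50312) (nat_lit 0) (p (nat_lit 0x38292) (nat_lit 0) (p (nat_lit 0x28212) (nat_lit 0) (p (nat_lit 0x38112) (nat_lit 0) (p (nat_lit 0x20092) (nat_lit 0) (p (nat_lit 0x10012) (nat_lit 0) pn))))))))))))))))))))))))))))))) :=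
  Cl.node (nat_lit 0x200014) (nat_lit 2) (by decide +kernel) (ClAll.succ (ClAll.succ ClAll.zero n12) s421)

def n21 : Cl (O (nat_lit 5)) (R (nat_lit 143633))
    (p (nat_lit 0x100004) (nat_lit 0) (p (nat_lit 0x101) (nat_lit 0) (p (nat_lit 0xb000c) (nat_lit 0) (p (nat_lit 0x200004) (nat_lit 0) (p (nat_lit 0x380c2) (nat_lit 1) (p (nat_lit 0x3c4aa) (nat_lit 7) (p (nat_lit 0x111) (nat_lit 1) (p (nat_lit 0x109) (nat_lit 0) (p (nat_lit 0xc9) (nat_lit 1) (p (nat_lit 0x119) (nat_lit 1) (p (nat_lit 0xc1) (nat_lit 0) (p (nat_lit 0x81) (nat_lit 1) (p (nat_lit 0x41) (nat_lit 1) (p (nat_lit 0x10a898a08881a) (nat_lit 0) (p (nat_lit 0xa090988079a) (nat_lit 0) (p (nat_lit 0x108088907871a) (nat_lit 0) (p (nat_lit 0x7880887069a) (nat_lit 0) (p (nat_lit 0x8000000000800088806860a) (nat_lit 0) (p (nat_lit 0x8000000000800068786058a) (nat_lit 0) (p (nat_lit 0x10687058502) (nat_lit 0) (p (nat_lit 0x606850482)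 (nat_lit 0) (p (nat_lit 0x16000c) (nat_lit 0) (p (nat_lit 0x68612) (nat_lit 0) (p (nat_lit 0x50592) (nat_lit 0) (p (nat_lit 0x40512) (nat_lit 0) (p (nat_lit 0x50312) (nat_lit 0) (p (nat_lit 0x38292) (nat_lit 0) (p (nat_lit 0x28212) (nat_lit 0) (p (nat_lit 0x38112) (nat_lit 0) (p (nat_lit 0x20092) (nat_lit 0) (p (nat_lit 0x10012) (nat_lit 0) pn))))))))))))))))))))))))))))))) :=
  Cl.node (nat_lit 0x119) (nat_lit 2) (by decide +kernel) (ClAll.succ (ClAll.succ ClAll.zero s464) s465)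

def n22 : Cl (O (nat_lit 5)) (R (nat_lit 143633))
    (p (nat_lit 0x200004) (nat_lit 0) (p (nat_lit 0xb000c) (nat_lit 0) (p (nat_lit 0x380c2) (nat_lit 0) (p (nat_lit 0x444aa) (nat_lit 7) (p (nat_lit 0x81) (nat_lit 1) (p (nat_lit 0xc9) (nat_lit 1) (p (nat_lit 0x109) (nat_lit 1) (p (nat_lit 0x101) (nat_lit 0) (p (nat_lit 0x119) (nat_lit 0) (p (nat_lit 0xd1) (nat_lit 0) (p (nat_lit 0x89) (nat_lit 0) (p (nat_lit 0x41) (nat_lit 0) (p (nat_lit 0x10a898a08881a) (nat_lit 0) (p (nat_lit 0xa090988079a) (nat_lit 0) (p (nat_lit 0x108088907871a) (nat_lit 0) (p (nat_lit 0x7880887069a) (nat_lit 0) (p (nat_lit 0x8000000000800088806860a) (nat_lit 0) (p (nat_lit 0x8000000000800068786058a) (nat_lit 0) (p (nat_lit 0x10687058502) (nat_lit 0) (p (nat_lit 0x606850482) (nat_lit 0) (p (nat_lit 0x16000c) (nat_lit 0) (p (nat_lit 0x68612) (nat_lit 0) (p (nat_lit 0x50592) (nat_lit 0) (p (nat_lit 0x40512) (nat_lit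 0) (p (nat_lit 0x50312) (nat_lit 0) (p (nat_lit 0x38292) (nat_lit 0) (p (nat_lit 0x28212) (nat_lit 0) (p (nat_lit 0x38112) (nat_lit 0) (p (nat_lit 0x20092) (nat_lit 0) (p (nat_lit 0x10012) (nat_lit 0) pn)))))))))))))))))))))))))))))) :=
  Cl.node (nat_lit 0x200014) (nat_lit 2) (by decide +kernel) (ClAll.succ (ClAll.succ ClAll.zero n13) s14)

def n23 : Cl (O (nat_lit 5)) (R (nat_lit 143633))
    (p (nat_lit 0x200014) (nat_lit 0) (p (nat_lit 0x200004) (nat_lit 0) (p (nat_lit 0xb000c) (nat_lit 0) (p (nat_lit 0x380c2) (nat_lit 0) (p (nat_lit 0x444aa) (nat_lit 7) (p (nat_lit 0xd1) (nat_lit 1) (p (nat_lit 0x109) (nat_lit 1) (p (nat_lit 0x101) (nat_lit 0) (p (nat_lit 0x119) (nat_lit 0) (p (nat_lit 0xc9) (nat_lit 0) (p (nat_lit 0x89) (nat_lit 1) (p (nat_lit 0x41) (nat_lit 0) (p (nat_lit 0x10a898a08881a) (nat_lit 0) (p (nat_lit 0xa090988079a) (nat_lit 0) (p (nat_lit 0x108088907871a) (nat_lit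 0) (p (nat_lit 0x7880887069a) (nat_lit 0) (p (nat_lit 0x8000000000800088806860a) (nat_lit 0) (p (nat_lit 0x8000000000800068786058a) (nat_lit 0) (p (nat_lit 0x10687058502) (nat_lit 0) (p (nat_lit 0x606850482) (nat_lit 0) (p (nat_lit 0x16000c) (nat_lit 0) (p (nat_lit 0x68612) (nat_lit 0) (p (nat_lit 0x50592) (nat_lit 0) (p (nat_lit 0x40512) (nat_lit 0) (p (nat_lit 0x50312) (nat_lit 0) (p (nat_lit 0x38292) (nat_lit 0) (p (nat_lit 0x28212) (nat_lit 0) (p (nat_lit 0x38112) (nat_lit 0) (p (nat_lit 0x20092) (nat_lit 0) (p (nat_lit 0x10012) (nat_lit 0) pn)))))))))))))))))))))))))))))) :=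
  Cl.node (nat_lit 0x100014) (nat_lit 2) (by decide +kernel) (ClAll.succ (ClAll.succ ClAll.zero n14) s124)

def n24 : Cl (O (nat_lit 5)) (R (nat_lit 143633))
    (p (nat_lit 0x100014) (nat_lit 0) (p (nat_lit 0x200004) (nat_lit 0) (p (nat_lit 0x200014) (nat_lit 0) (p (nat_lit 0x380c2) (nat_lit 1) (p (nat_lit 0x444aa) (nat_lit 7) (p (nat_lit 0xd1) (nat_lit 1) (p (nat_lit 0x109) (nat_lit 1) (p (nat_lit 0x101) (nat_lit 0) (p (nat_lit 0x119) (nat_lit 0) (p (nat_lit 0xc9) (nat_lit 0) (p (nat_lit 0x89) (nat_lit 1) (p (nat_lit 0x41) (nat_lit 0) (p (nat_lit 0x10a898a08881a) (nat_lit 0) (p (nat_lit 0xa090988079a) (nat_lit 0) (p (nat_lit 0x108088907871a) (nat_lit 0) (p (nat_lit 0x7880887069a) (nat_lit 0) (p (nat_lit 0x8000000000800088806860a) (nat_lit 0) (p (nat_lit 0x8000000000800068786058a) (nat_lit 0) (p (nat_lit 0x10687058502) (nat_lit 0) (p (nat_lit 0x606850482) (nat_lit 0) (p (nat_lit 0x16000c)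 (nat_lit 0) (p (nat_lit 0x68612) (nat_lit 0) (p (nat_lit 0x50592) (nat_lit 0) (p (nat_lit 0x40512) (nat_lit 0) (p (nat_lit 0x50312) (nat_lit 0) (p (nat_lit 0x38292) (nat_lit 0) (p (nat_lit 0x28212) (nat_lit 0) (p (nat_lit 0x38112) (nat_lit 0) (p (nat_lit 0x20092) (nat_lit 0) (p (nat_lit 0x10012) (nat_lit 0) pn)))))))))))))))))))))))))))))) :=
  Cl.node (nat_lit 0x100004) (nat_lit 2) (by decide +kernel) (ClAll.succ (ClAll.succ ClAll.zero n15) s131)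

def n25 : Cl (O (nat_lit 5)) (R (nat_lit 143633))
    (p (nat_lit 0x200004) (nat_lit 0) (p (nat_lit 0x200014) (nat_lit 0) (p (nat_lit 0x380c2) (nat_lit 0) (p (nat_lit 0x3c4aa) (nat_lit 10) (p (nat_lit 0x109) (nat_lit 1) (p (nat_lit 0x89) (nat_lit 1) (p (nat_lit 0xc9) (nat_lit 1) (p (nat_lit 0xc1) (nat_lit 0) (p (nat_lit 0x119) (nat_lit 1) (p (nat_lit 0xd1) (nat_lit 0) (p (nat_lit 0x81) (nat_lit 0) (p (nat_lit 0x41) (nat_lit 1) (p (nat_lit 0x10a898a08881a) (nat_lit 0) (p (nat_lit 0xa090988079a) (nat_lit 0) (p (nat_lit 0x108088907871a) (nat_lit 0) (p (nat_lit 0x7880887069a) (nat_lit 0) (p (nat_lit 0x8000000000800088806860a) (nat_lit 0) (p (nat_lit 0x8000000000800068786058a) (nat_lit 0) (p (nat_lit 0x10687058502) (nat_lit 0) (p (nat_lit 0x606850482) (nat_lit 0) (p (nat_lit 0x16000c) (nat_lit 0) (p (nat_lit 0x68612) (nat_lit 0) (p (nat_lit 0x50592) (nat_lit 0) (p (nat_lit 0x40512) (nat_lit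 0) (p (nat_lit 0x50312) (nat_lit 0) (p (nat_lit 0x38292) (nat_lit 0) (p (nat_lit 0x28212) (nat_lit 0) (p (nat_lit 0x38112) (nat_lit 0) (p (nat_lit 0x20092) (nat_lit 0) (p (nat_lit 0x10012) (nat_lit 0) pn)))))))))))))))))))))))))))))) :=
  Cl.node (nat_lit 0x100004) (nat_lit 2) (by decide +kernel) (ClAll.succ (ClAll.succ ClAll.zero n16) s273)

def n26 : Cl (O (nat_lit 5)) (R (nat_lit 143633))
    (p (nat_lit 0xb000c) (nat_lit 0) (p (nat_lit 0x200004) (nat_lit 0) (p (nat_lit 0x380c2) (nat_lit 0) (p (nat_lit 0x3c4aa) (nat_lit 7) (p (nat_lit 0xd1) (nat_lit 1) (p (nat_lit 0x111) (nat_lit 1) (p (nat_lit 0x109) (nat_lit 0) (p (nat_lit 0x101) (nat_lit 0) (p (nat_lit 0x119) (nat_lit 0) (p (nat_lit 0xc1) (nat_lit 0) (p (nat_lit 0x81) (nat_lit 1) (p (nat_lit 0x41) (nat_lit 1) (p (nat_lit 0x10a898a08881a) (nat_lit 0) (p (nat_lit 0xa090988079a) (nat_lit 0) (p (nat_lit 0x108088907871a) (nat_lit 0)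 (p (nat_lit 0x7880887069a) (nat_lit 0) (p (nat_lit 0x8000000000800088806860a) (nat_lit 0) (p (nat_lit 0x8000000000800068786058a) (nat_lit 0) (p (nat_lit 0x10687058502) (nat_lit 0) (p (nat_lit 0x606850482) (nat_lit 0) (p (nat_lit 0x16000c) (nat_lit 0) (p (nat_lit 0x68612) (nat_lit 0) (p (nat_lit 0x50592) (nat_lit 0) (p (nat_lit 0x40512) (nat_lit 0) (p (nat_lit 0x50312) (nat_lit 0) (p (nat_lit 0x38292) (nat_lit 0) (p (nat_lit 0x28212) (nat_lit 0) (p (nat_lit 0x38112) (nat_lit 0) (p (nat_lit 0x20092) (nat_lit 0) (p (nat_lit 0x10012) (nat_lit 0) pn)))))))))))))))))))))))))))))) :=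
  Cl.node (nat_lit 0x100004) (nat_lit 2) (by decide +kernel) (ClAll.succ (ClAll.succ ClAll.zero n17) s365)

def n27 : Cl (O (nat_lit 5)) (R (nat_lit 143633))
    (p (nat_lit 0xb000c) (nat_lit 0) (p (nat_lit 0x200004) (nat_lit 0) (p (nat_lit 0x380c2) (nat_lit 1) (p (nat_lit 0x3c4aa) (nat_lit 7) (p (nat_lit 0xd1) (nat_lit 1) (p (nat_lit 0x111) (nat_lit 1) (p (nat_lit 0x109) (nat_lit 0) (p (nat_lit 0x101) (nat_lit 0) (p (nat_lit 0x119) (nat_lit 0) (p (nat_lit 0xc1) (nat_lit 0) (p (nat_lit 0x81) (nat_lit 1) (p (nat_lit 0x41) (nat_lit 1) (p (nat_lit 0x10a898a08881a) (nat_lit 0) (p (nat_lit 0xa090988079a) (nat_lit 0) (p (nat_lit 0x108088907871a) (nat_lit 0) (p (nat_lit 0x7880887069a) (nat_lit 0) (p (nat_lit 0x8000000000800088806860a) (nat_lit 0) (p (nat_lit 0x8000000000800068786058a) (nat_lit 0) (p (nat_lit 0x10687058502) (nat_lit 0) (p (nat_lit 0x606850482) (nat_lit 0) (p (nat_lit 0x16000c)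 (nat_lit 0) (p (nat_lit 0x68612) (nat_lit 0) (p (nat_lit 0x50592) (nat_lit 0) (p (nat_lit 0x40512) (nat_lit 0) (p (nat_lit 0x50312) (nat_lit 0) (p (nat_lit 0x38292) (nat_lit 0) (p (nat_lit 0x28212) (nat_lit 0) (p (nat_lit 0x38112) (nat_lit 0) (p (nat_lit 0x20092) (nat_lit 0) (p (nat_lit 0x10012) (nat_lit 0) pn)))))))))))))))))))))))))))))) :=
  Cl.node (nat_lit 0x100004) (nat_lit 2) (by decide +kernel) (ClAll.succ (ClAll.succ ClAll.zero n18) s371)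

def n28 : Cl (O (nat_lit 5)) (R (nat_lit 143633))
    (p (nat_lit 0xb000c) (nat_lit 1) (p (nat_lit 0x200004) (nat_lit 0) (p (nat_lit 0x380c2) (nat_lit 1) (p (nat_lit 0x3c4aa) (nat_lit 7) (p (nat_lit 0xd1) (nat_lit 1) (p (nat_lit 0x111) (nat_lit 1) (p (nat_lit 0x109) (nat_lit 0) (p (nat_lit 0x101) (nat_lit 0) (p (nat_lit 0x119) (nat_lit 0) (p (nat_lit 0xc1) (nat_lit 0) (p (nat_lit 0x81) (nat_lit 1) (p (nat_lit 0x41) (nat_lit 1) (p (nat_lit 0x10a898a08881a) (nat_lit 0) (p (nat_lit 0xa090988079a) (nat_lit 0) (p (nat_lit 0x108088907871a) (nat_lit 0) (p (nat_lit 0x7880887069a) (nat_lit 0) (p (nat_lit 0x8000000000800088806860a) (nat_lit 0) (p (nat_lit 0x8000000000800068786058a) (nat_lit 0) (p (nat_lit 0x10687058502) (nat_lit 0) (p (nat_lit 0x606850482) (nat_lit 0) (p (nat_lit 0x16000c) (nat_lit 0) (p (nat_lit 0x68612) (nat_lit 0) (p (nat_lit 0x50592) (nat_lit 0) (p (nat_lit 0x40512) (nat_lit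 0) (p (nat_lit 0x50312) (nat_lit 0) (p (nat_lit 0x38292) (nat_lit 0) (p (nat_lit 0x28212) (nat_lit 0) (p (nat_lit 0x38112) (nat_lit 0) (p (nat_lit 0x20092) (nat_lit 0) (p (nat_lit 0x10012) (nat_lit 0) pn)))))))))))))))))))))))))))))) :=
  Cl.node (nat_lit 0x1fc014) (nat_lit 2) (by decide +kernel) (ClAll.succ (ClAll.succ ClAll.zero n19) s376)

def n29 : Cl (O (nat_lit 5)) (R (nat_lit 143633))
    (p (nat_lit 0x100004) (nat_lit 0) (p (nat_lit 0xb000c) (nat_lit 0) (p (nat_lit 0x200004) (nat_lit 0) (p (nat_lit 0x380c2) (nat_lit 0) (p (nat_lit 0x3c4aa) (nat_lit 7) (p (nat_lit 0xd1) (nat_lit 1) (p (nat_lit 0xc9) (nat_lit 0) (p (nat_lit 0x101) (nat_lit 1) (p (nat_lit 0x119) (nat_lit 0) (p (nat_lit 0xc1) (nat_lit 0) (p (nat_lit 0x81) (nat_lit 1) (p (nat_lit 0x41) (nat_lit 1) (p (nat_lit 0x10a898a08881a) (nat_lit 0) (p (nat_lit 0xa090988079a) (nat_lit 0) (p (nat_lit 0x108088907871a) (nat_lit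 0) (p (nat_lit 0x7880887069a) (nat_lit 0) (p (nat_lit 0x8000000000800088806860a) (nat_lit 0) (p (nat_lit 0x8000000000800068786058a) (nat_lit 0) (p (nat_lit 0x10687058502) (nat_lit 0) (p (nat_lit 0x606850482) (nat_lit 0) (p (nat_lit 0x16000c) (nat_lit 0) (p (nat_lit 0x68612) (nat_lit 0) (p (nat_lit 0x50592) (nat_lit 0) (p (nat_lit 0x40512) (nat_lit 0) (p (nat_lit 0x50312) (nat_lit 0) (p (nat_lit 0x38292) (nat_lit 0) (p (nat_lit 0x28212) (nat_lit 0) (p (nat_lit 0x38112) (nat_lit 0) (p (nat_lit 0x20092) (nat_lit 0) (p (nat_lit 0x10012) (nat_lit 0) pn)))))))))))))))))))))))))))))) :=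
  Cl.node (nat_lit 0xc1) (nat_lit 2) (by decide +kernel) (ClAll.succ (ClAll.succ ClAll.zero n20) s422)

def n30 : Cl (O (nat_lit 5)) (R (nat_lit 143633))
    (p (nat_lit 0x101) (nat_lit 0) (p (nat_lit 0xb000c) (nat_lit 0) (p (nat_lit 0x200004) (nat_lit 0) (p (nat_lit 0x380c2) (nat_lit 0) (p (nat_lit 0x3c4aa) (nat_lit 7) (p (nat_lit 0x111) (nat_lit 1) (p (nat_lit 0x109) (nat_lit 0) (p (nat_lit 0xc9) (nat_lit 1) (p (nat_lit 0x119) (nat_lit 1) (p (nat_lit 0xc1) (nat_lit 0) (p (nat_lit 0x81) (nat_lit 1) (p (nat_lit 0x41) (nat_lit 1) (p (nat_lit 0x10a898a08881a) (nat_lit 0) (p (nat_lit 0xa090988079a) (nat_lit 0) (p (nat_lit 0x108088907871a) (nat_lit 0) (p (nat_lit 0x7880887069a) (nat_lit 0) (p (nat_lit 0x8000000000800088806860a) (nat_lit 0) (p (nat_lit 0x8000000000800068786058a) (nat_lit 0) (p (nat_lit 0x10687058502) (nat_lit 0) (p (nat_lit 0x606850482) (nat_lit 0) (p (nat_lit 0x16000c)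 (nat_lit 0) (p (nat_lit 0x68612) (nat_lit 0) (p (nat_lit 0x50592) (nat_lit 0) (p (nat_lit 0x40512) (nat_lit 0) (p (nat_lit 0x50312) (nat_lit 0) (p (nat_lit 0x38292) (nat_lit 0) (p (nat_lit 0x28212) (nat_lit 0) (p (nat_lit 0x38112) (nat_lit 0) (p (nat_lit 0x20092) (nat_lit 0) (p (nat_lit 0x10012) (nat_lit 0) pn)))))))))))))))))))))))))))))) :=
  Cl.node (nat_lit 0x100004) (nat_lit 2) (by decide +kernel) (ClAll.succ (ClAll.succ ClAll.zero s459) s460)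

def n31 : Cl (O (nat_lit 5)) (R (nat_lit 143633))
    (p (nat_lit 0x101) (nat_lit 0) (p (nat_lit 0xb000c) (nat_lit 0) (p (nat_lit 0x200004) (nat_lit 0) (p (nat_lit 0x380c2) (nat_lit 1) (p (nat_lit 0x3c4aa) (nat_lit 7) (p (nat_lit 0x111) (nat_lit 1) (p (nat_lit 0x109) (nat_lit 0) (p (nat_lit 0xc9) (nat_lit 1) (p (nat_lit 0x119) (nat_lit 1) (p (nat_lit 0xc1) (nat_lit 0) (p (nat_lit 0x81) (nat_lit 1) (p (nat_lit 0x41) (nat_lit 1) (p (nat_lit 0x10a898a08881a) (nat_lit 0) (p (nat_lit 0xa090988079a) (nat_lit 0) (p (nat_lit 0x108088907871a) (nat_lit 0) (p (nat_lit 0x7880887069a) (nat_lit 0) (p (nat_lit 0x8000000000800088806860a) (nat_lit 0) (p (nat_lit 0x8000000000800068786058a) (nat_lit 0) (p (nat_lit 0x10687058502) (nat_lit 0) (p (nat_lit 0x606850482) (nat_lit 0) (p (nat_lit 0x16000c) (nat_lit 0) (p (nat_lit 0x68612) (nat_lit 0) (p (nat_lit 0x50592) (nat_lit 0) (p (nat_lit 0x40512) (nat_lit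 0) (p (nat_lit 0x50312) (nat_lit 0) (p (nat_lit 0x38292) (nat_lit 0) (p (nat_lit 0x28212) (nat_lit 0) (p (nat_lit 0x38112) (nat_lit 0) (p (nat_lit 0x20092) (nat_lit 0) (p (nat_lit 0x10012) (nat_lit 0) pn)))))))))))))))))))))))))))))) :=
  Cl.node (nat_lit 0x100004) (nat_lit 2) (by decide +kernel) (ClAll.succ (ClAll.succ ClAll.zero n21) s466)

def n32 : Cl (O (nat_lit 5)) (R (nat_lit 143633))
    (p (nat_lit 0xb000c) (nat_lit 0) (p (nat_lit 0x380c2) (nat_lit 0) (p (nat_lit 0x444aa) (nat_lit 7) (p (nat_lit 0x81) (nat_lit 1) (p (nat_lit 0xc9) (nat_lit 1) (p (nat_lit 0x109) (nat_lit 1) (p (nat_lit 0x101) (nat_lit 0) (p (nat_lit 0x119) (nat_lit 0) (p (nat_lit 0xd1) (nat_lit 0) (p (nat_lit 0x89) (nat_lit 0) (p (nat_lit 0x41) (nat_lit 0) (p (nat_lit 0x10a898a08881a) (nat_lit 0) (p (nat_lit 0xa090988079a) (nat_lit 0) (p (nat_lit 0x108088907871a) (nat_lit 0) (p (nat_lit 0x7880887069a) (nat_lit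 0) (p (nat_lit 0x8000000000800088806860a) (nat_lit 0) (p (nat_lit 0x8000000000800068786058a) (nat_lit 0) (p (nat_lit 0x10687058502) (nat_lit 0) (p (nat_lit 0x606850482) (nat_lit 0) (p (nat_lit 0x16000c) (nat_lit 0) (p (nat_lit 0x68612) (nat_lit 0) (p (nat_lit 0x50592) (nat_lit 0) (p (nat_lit 0x40512) (nat_lit 0) (p (nat_lit 0x50312) (nat_lit 0) (p (nat_lit 0x38292) (nat_lit 0) (p (nat_lit 0x28212) (nat_lit 0) (p (nat_lit 0x38112) (nat_lit 0) (p (nat_lit 0x20092) (nat_lit 0) (p (nat_lit 0x10012) (nat_lit 0) pn))))))))))))))))))))))))))))) :=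
  Cl.node (nat_lit 0x200004) (nat_lit 2) (by decide +kernel) (ClAll.succ (ClAll.succ ClAll.zero n22) s15)

def n33 : Cl (O (nat_lit 5)) (R (nat_lit 143633))
    (p (nat_lit 0x200004) (nat_lit 0) (p (nat_lit 0xb000c) (nat_lit 0) (p (nat_lit 0x380c2) (nat_lit 0) (p (nat_lit 0x444aa) (nat_lit 7) (p (nat_lit 0xd1) (nat_lit 1) (p (nat_lit 0x109) (nat_lit 1) (p (nat_lit 0x101) (nat_lit 0) (p (nat_lit 0x119) (nat_lit 0) (p (nat_lit 0xc9) (nat_lit 0) (p (nat_lit 0x89) (nat_lit 1) (p (nat_lit 0x41) (nat_lit 0) (p (nat_lit 0x10a898a08881a) (nat_lit 0) (p (nat_lit 0xa090988079a) (nat_lit 0) (p (nat_lit 0x108088907871a) (nat_lit 0) (p (nat_lit 0x7880887069a) (nat_lit 0) (p (nat_lit 0x8000000000800088806860a) (nat_lit 0) (p (nat_lit 0x8000000000800068786058a) (nat_lit 0) (p (nat_lit 0x10687058502) (nat_lit 0) (p (nat_lit 0x606850482) (nat_lit 0) (p (nat_lit 0x16000c) (nat_lit 0) (p (nat_lit 0x68612)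 (nat_lit 0) (p (nat_lit 0x50592) (nat_lit 0) (p (nat_lit 0x40512) (nat_lit 0) (p (nat_lit 0x50312) (nat_lit 0) (p (nat_lit 0x38292) (nat_lit 0) (p (nat_lit 0x28212) (nat_lit 0) (p (nat_lit 0x38112) (nat_lit 0) (p (nat_lit 0x20092) (nat_lit 0) (p (nat_lit 0x10012) (nat_lit 0) pn))))))))))))))))))))))))))))) :=
  Cl.node (nat_lit 0x200014) (nat_lit 2) (by decide +kernel) (ClAll.succ (ClAll.succ ClAll.zero n23) s125)

def n34 : Cl (O (nat_lit 5)) (R (nat_lit 143633))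
    (p (nat_lit 0x200004) (nat_lit 0) (p (nat_lit 0x200014) (nat_lit 0) (p (nat_lit 0x380c2) (nat_lit 1) (p (nat_lit 0x444aa) (nat_lit 7) (p (nat_lit 0xd1) (nat_lit 1) (p (nat_lit 0x109) (nat_lit 1) (p (nat_lit 0x101) (nat_lit 0) (p (nat_lit 0x119) (nat_lit 0) (p (nat_lit 0xc9) (nat_lit 0) (p (nat_lit 0x89) (nat_lit 1) (p (nat_lit 0x41) (nat_lit 0) (p (nat_lit 0x10a898a08881a) (nat_lit 0) (p (nat_lit 0xa090988079a) (nat_lit 0) (p (nat_lit 0x108088907871a) (nat_lit 0) (p (nat_lit 0x7880887069a) (nat_lit 0) (p (nat_lit 0x8000000000800088806860a) (nat_lit 0) (p (nat_lit 0x8000000000800068786058a) (nat_lit 0) (p (nat_lit 0x10687058502) (nat_lit 0) (p (nat_lit 0x606850482) (nat_lit 0) (p (nat_lit 0x16000c) (nat_lit 0) (p (nat_lit 0x68612) (nat_lit 0) (p (nat_lit 0x50592) (nat_lit 0) (p (nat_lit 0x40512) (nat_lit 0) (p (nat_lit 0x50312) (nat_lit 0) (p (nat_lit 0x38292) (nat_lit 0) (p (nat_lit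 0x28212) (nat_lit 0) (p (nat_lit 0x38112) (nat_lit 0) (p (nat_lit 0x20092) (nat_lit 0) (p (nat_lit 0x10012) (nat_lit 0) pn))))))))))))))))))))))))))))) :=
  Cl.node (nat_lit 0x100014) (nat_lit 2) (by decide +kernel) (ClAll.succ (ClAll.succ ClAll.zero n24) s132)

def n35 : Cl (O (nat_lit 5)) (R (nat_lit 143633))
    (p (nat_lit 0x200014) (nat_lit 0) (p (nat_lit 0x380c2) (nat_lit 0) (p (nat_lit 0x3c4aa) (nat_lit 10) (p (nat_lit 0x109) (nat_lit 1) (p (nat_lit 0x89) (nat_lit 1) (p (nat_lit 0xc9) (nat_lit 1) (p (nat_lit 0xc1) (nat_lit 0) (p (nat_lit 0x119) (nat_lit 1) (p (nat_lit 0xd1) (nat_lit 0) (p (nat_lit 0x81) (nat_lit 0) (p (nat_lit 0x41) (nat_lit 1) (p (nat_lit 0x10a898a08881a) (nat_lit 0) (p (nat_lit 0xa090988079a) (nat_lit 0) (p (nat_lit 0x108088907871a) (nat_lit 0) (p (nat_lit 0x7880887069a) (nat_lit 0) (p (nat_lit 0x8000000000800088806860a) (nat_lit 0) (p (nat_lit 0x8000000000800068786058a)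 (nat_lit 0) (p (nat_lit 0x10687058502) (nat_lit 0) (p (nat_lit 0x606850482) (nat_lit 0) (p (nat_lit 0x16000c) (nat_lit 0) (p (nat_lit 0x68612) (nat_lit 0) (p (nat_lit 0x50592) (nat_lit 0) (p (nat_lit 0x40512) (nat_lit 0) (p (nat_lit 0x50312) (nat_lit 0) (p (nat_lit 0x38292) (nat_lit 0) (p (nat_lit 0x28212) (nat_lit 0) (p (nat_lit 0x38112) (nat_lit 0) (p (nat_lit 0x20092) (nat_lit 0) (p (nat_lit 0x10012) (nat_lit 0) pn))))))))))))))))))))))))))))) :=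
  Cl.node (nat_lit 0x200004) (nat_lit 2) (by decide +kernel) (ClAll.succ (ClAll.succ ClAll.zero n25) s274)

def n36 : Cl (O (nat_lit 5)) (R (nat_lit 143633))
    (p (nat_lit 0x200004) (nat_lit 0) (p (nat_lit 0x380c2) (nat_lit 0) (p (nat_lit 0x3c4aa) (nat_lit 7) (p (nat_lit 0xd1) (nat_lit 1) (p (nat_lit 0x111) (nat_lit 1) (p (nat_lit 0x109) (nat_lit 0) (p (nat_lit 0x101) (nat_lit 0) (p (nat_lit 0x119) (nat_lit 0) (p (nat_lit 0xc1) (nat_lit 0) (p (nat_lit 0x81) (nat_lit 1) (p (nat_lit 0x41) (nat_lit 1) (p (nat_lit 0x10a898a08881a) (nat_lit 0) (p (nat_lit 0xa090988079a) (nat_lit 0) (p (nat_lit 0x108088907871a) (nat_lit 0) (p (nat_lit 0x7880887069a) (nat_lit 0) (p (nat_lit 0x8000000000800088806860a) (nat_lit 0) (p (nat_lit 0x8000000000800068786058a) (nat_lit 0) (p (nat_lit 0x10687058502) (nat_lit 0) (p (nat_lit 0x606850482) (nat_lit 0) (p (nat_lit 0x16000c) (nat_lit 0) (p (nat_lit 0x68612)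 (nat_lit 0) (p (nat_lit 0x50592) (nat_lit 0) (p (nat_lit 0x40512) (nat_lit 0) (p (nat_lit 0x50312) (nat_lit 0) (p (nat_lit 0x38292) (nat_lit 0) (p (nat_lit 0x28212) (nat_lit 0) (p (nat_lit 0x38112) (nat_lit 0) (p (nat_lit 0x20092) (nat_lit 0) (p (nat_lit 0x10012) (nat_lit 0) pn))))))))))))))))))))))))))))) :=
  Cl.node (nat_lit 0xb000c) (nat_lit 2) (by decide +kernel) (ClAll.succ (ClAll.succ ClAll.zero n26) s366)

def n37 : Cl (O (nat_lit 5)) (R (nat_lit 143633))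
    (p (nat_lit 0x200004) (nat_lit 0) (p (nat_lit 0x380c2) (nat_lit 1) (p (nat_lit 0x3c4aa) (nat_lit 7) (p (nat_lit 0xd1) (nat_lit 1) (p (nat_lit 0x111) (nat_lit 1) (p (nat_lit 0x109) (nat_lit 0) (p (nat_lit 0x101) (nat_lit 0) (p (nat_lit 0x119) (nat_lit 0) (p (nat_lit 0xc1) (nat_lit 0) (p (nat_lit 0x81) (nat_lit 1) (p (nat_lit 0x41) (nat_lit 1) (p (nat_lit 0x10a898a08881a) (nat_lit 0) (p (nat_lit 0xa090988079a) (nat_lit 0) (p (nat_lit 0x108088907871a) (nat_lit 0) (p (nat_lit 0x7880887069a) (nat_lit 0) (p (nat_lit 0x8000000000800088806860a) (nat_lit 0) (p (nat_lit 0x8000000000800068786058a) (nat_lit 0) (p (nat_lit 0x10687058502) (nat_lit 0) (p (nat_lit 0x606850482) (nat_lit 0) (p (nat_lit 0x16000c) (nat_lit 0) (p (nat_lit 0x68612) (nat_lit 0) (p (nat_lit 0x50592) (nat_lit 0) (p (nat_lit 0x40512) (nat_lit 0) (p (nat_lit 0x50312) (nat_lit 0) (p (nat_lit 0x38292) (nat_lit 0) (p (nat_lit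 0x28212) (nat_lit 0) (p (nat_lit 0x38112) (nat_lit 0) (p (nat_lit 0x20092) (nat_lit 0) (p (nat_lit 0x10012) (nat_lit 0) pn))))))))))))))))))))))))))))) :=
  Cl.node (nat_lit 0xb000c) (nat_lit 2) (by decide +kernel) (ClAll.succ (ClAll.succ ClAll.zero n27) n28)

def n38 : Cl (O (nat_lit 5)) (R (nat_lit 143633))
    (p (nat_lit 0xb000c) (nat_lit 0) (p (nat_lit 0x200004) (nat_lit 0) (p (nat_lit 0x380c2) (nat_lit 0) (p (nat_lit 0x3c4aa) (nat_lit 7) (p (nat_lit 0xd1) (nat_lit 1) (p (nat_lit 0xc9) (nat_lit 0) (p (nat_lit 0x101) (nat_lit 1) (p (nat_lit 0x119) (nat_lit 0) (p (nat_lit 0xc1) (nat_lit 0) (p (nat_lit 0x81) (nat_lit 1) (p (nat_lit 0x41) (nat_lit 1) (p (nat_lit 0x10a898a08881a) (nat_lit 0) (p (nat_lit 0xa090988079a) (nat_lit 0) (p (nat_lit 0x108088907871a) (nat_lit 0) (p (nat_lit 0x7880887069a) (nat_lit 0) (p (nat_lit 0x8000000000800088806860a) (nat_lit 0) (p (nat_lit 0x8000000000800068786058a)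 (nat_lit 0) (p (nat_lit 0x10687058502) (nat_lit 0) (p (nat_lit 0x606850482) (nat_lit 0) (p (nat_lit 0x16000c) (nat_lit 0) (p (nat_lit 0x68612) (nat_lit 0) (p (nat_lit 0x50592) (nat_lit 0) (p (nat_lit 0x40512) (nat_lit 0) (p (nat_lit 0x50312) (nat_lit 0) (p (nat_lit 0x38292) (nat_lit 0) (p (nat_lit 0x28212) (nat_lit 0) (p (nat_lit 0x38112) (nat_lit 0) (p (nat_lit 0x20092) (nat_lit 0) (p (nat_lit 0x10012) (nat_lit 0) pn))))))))))))))))))))))))))))) :=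
  Cl.node (nat_lit 0x100004) (nat_lit 2) (by decide +kernel) (ClAll.succ (ClAll.succ ClAll.zero n29) s423)

def n39 : Cl (O (nat_lit 5)) (R (nat_lit 143633))
    (p (nat_lit 0xb000c) (nat_lit 0) (p (nat_lit 0x200004) (nat_lit 0) (p (nat_lit 0x380c2) (nat_lit 0) (p (nat_lit 0x3c4aa) (nat_lit 7) (p (nat_lit 0x111) (nat_lit 1) (p (nat_lit 0x109) (nat_lit 0) (p (nat_lit 0xc9) (nat_lit 1) (p (nat_lit 0x119) (nat_lit 1) (p (nat_lit 0xc1) (nat_lit 0) (p (nat_lit 0x81) (nat_lit 1) (p (nat_lit 0x41) (nat_lit 1) (p (nat_lit 0x10a898a08881a) (nat_lit 0) (p (nat_lit 0xa090988079a) (nat_lit 0) (p (nat_lit 0x108088907871a) (nat_lit 0) (p (nat_lit 0x7880887069a) (nat_lit 0) (p (nat_lit 0x8000000000800088806860a) (nat_lit 0) (p (nat_lit 0x8000000000800068786058a) (nat_lit 0) (p (nat_lit 0x10687058502) (nat_lit 0) (p (nat_lit 0x606850482) (nat_lit 0) (p (nat_lit 0x16000c) (nat_lit 0) (p (nat_lit 0x68612)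 (nat_lit 0) (p (nat_lit 0x50592) (nat_lit 0) (p (nat_lit 0x40512) (nat_lit 0) (p (nat_lit 0x50312) (nat_lit 0) (p (nat_lit 0x38292) (nat_lit 0) (p (nat_lit 0x28212) (nat_lit 0) (p (nat_lit 0x38112) (nat_lit 0) (p (nat_lit 0x20092) (nat_lit 0) (p (nat_lit 0x10012) (nat_lit 0) pn))))))))))))))))))))))))))))) :=
  Cl.node (nat_lit 0x101) (nat_lit 2) (by decide +kernel) (ClAll.succ (ClAll.succ ClAll.zero n30) s461)

def n40 : Cl (O (nat_lit 5)) (R (nat_lit 143633))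
    (p (nat_lit 0xb000c) (nat_lit 0) (p (nat_lit 0x200004) (nat_lit 0) (p (nat_lit 0x380c2) (nat_lit 1) (p (nat_lit 0x3c4aa) (nat_lit 7) (p (nat_lit 0x111) (nat_lit 1) (p (nat_lit 0x109) (nat_lit 0) (p (nat_lit 0xc9) (nat_lit 1) (p (nat_lit 0x119) (nat_lit 1) (p (nat_lit 0xc1) (nat_lit 0) (p (nat_lit 0x81) (nat_lit 1) (p (nat_lit 0x41) (nat_lit 1) (p (nat_lit 0x10a898a08881a) (nat_lit 0) (p (nat_lit 0xa090988079a) (nat_lit 0) (p (nat_lit 0x108088907871a) (nat_lit 0) (p (nat_lit 0x7880887069a) (nat_lit 0) (p (nat_lit 0x8000000000800088806860a) (nat_lit 0) (p (nat_lit 0x8000000000800068786058a) (nat_lit 0) (p (nat_lit 0x10687058502) (nat_lit 0) (p (nat_lit 0x606850482) (nat_lit 0) (p (nat_lit 0x16000c) (nat_lit 0) (p (nat_lit 0x68612) (nat_lit 0) (p (nat_lit 0x50592) (nat_lit 0) (p (nat_lit 0x40512) (nat_lit 0) (p (nat_lit 0x50312) (nat_lit 0) (p (nat_lit 0x38292) (nat_lit 0) (p (nat_lit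 0x28212) (nat_lit 0) (p (nat_lit 0x38112) (nat_lit 0) (p (nat_lit 0x20092) (nat_lit 0) (p (nat_lit 0x10012) (nat_lit 0) pn))))))))))))))))))))))))))))) :=
  Cl.node (nat_lit 0x101) (nat_lit 2) (by decide +kernel) (ClAll.succ (ClAll.succ ClAll.zero n31) s467)

def n41 : Cl (O (nat_lit 5)) (R (nat_lit 143633))
    (p (nat_lit 0x380c2) (nat_lit 0) (p (nat_lit 0x444aa) (nat_lit 7) (p (nat_lit 0x81) (nat_lit 1) (p (nat_lit 0xc9) (nat_lit 1) (p (nat_lit 0x109) (nat_lit 1) (p (nat_lit 0x101) (nat_lit 0) (p (nat_lit 0x119) (nat_lit 0) (p (nat_lit 0xd1) (nat_lit 0) (p (nat_lit 0x89) (nat_lit 0) (p (nat_lit 0x41) (nat_lit 0) (p (nat_lit 0x10a898a08881a) (nat_lit 0) (p (nat_lit 0xa090988079a) (nat_lit 0) (p (nat_lit 0x108088907871a) (nat_lit 0) (p (nat_lit 0x7880887069a) (nat_lit 0) (p (nat_lit 0x8000000000800088806860a) (nat_lit 0) (p (nat_lit 0x8000000000800068786058a) (nat_lit 0) (p (nat_lit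 0x10687058502) (nat_lit 0) (p (nat_lit 0x606850482) (nat_lit 0) (p (nat_lit 0x16000c) (nat_lit 0) (p (nat_lit 0x68612) (nat_lit 0) (p (nat_lit 0x50592) (nat_lit 0) (p (nat_lit 0x40512) (nat_lit 0) (p (nat_lit 0x50312) (nat_lit 0) (p (nat_lit 0x38292) (nat_lit 0) (p (nat_lit 0x28212) (nat_lit 0) (p (nat_lit 0x38112) (nat_lit 0) (p (nat_lit 0x20092) (nat_lit 0) (p (nat_lit 0x10012) (nat_lit 0) pn)))))))))))))))))))))))))))) :=
  Cl.node (nat_lit 0xb000c) (nat_lit 2) (by decide +kernel) (ClAll.succ (ClAll.succ ClAll.zero n32) s16)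

def n42 : Cl (O (nat_lit 5)) (R (nat_lit 143633))
    (p (nat_lit 0x380c2) (nat_lit 1) (p (nat_lit 0x444aa) (nat_lit 7) (p (nat_lit 0x81) (nat_lit 1) (p (nat_lit 0xc9) (nat_lit 1) (p (nat_lit 0x109) (nat_lit 1) (p (nat_lit 0x101) (nat_lit 0) (p (nat_lit 0x119) (nat_lit 0) (p (nat_lit 0xd1) (nat_lit 0) (p (nat_lit 0x89) (nat_lit 0) (p (nat_lit 0x41) (nat_lit 0) (p (nat_lit 0x10a898a08881a) (nat_lit 0) (p (nat_lit 0xa090988079a) (nat_lit 0) (p (nat_lit 0x108088907871a) (nat_lit 0) (p (nat_lit 0x7880887069a) (nat_lit 0) (p (nat_lit 0x8000000000800088806860a) (nat_lit 0) (p (nat_lit 0x8000000000800068786058a) (nat_lit 0) (p (nat_lit 0x10687058502) (nat_lit 0) (p (nat_lit 0x606850482) (nat_lit 0) (p (nat_lit 0x16000c) (nat_lit 0) (p (nat_lit 0x68612) (nat_lit 0) (p (nat_lit 0x50592) (nat_lit 0) (p (nat_lit 0x40512) (nat_lit 0) (p (nat_lit 0x50312) (nat_lit 0) (p (nat_lit 0x38292) (nat_lit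 0) (p (nat_lit 0x28212) (nat_lit 0) (p (nat_lit 0x38112) (nat_lit 0) (p (nat_lit 0x20092) (nat_lit 0) (p (nat_lit 0x10012) (nat_lit 0) pn)))))))))))))))))))))))))))) :=
  Cl.node (nat_lit 0xb000c) (nat_lit 2) (by decide +kernel) (ClAll.succ (ClAll.succ ClAll.zero s17) s18)

def n43 : Cl (O (nat_lit 5)) (R (nat_lit 143633))
    (p (nat_lit 0xb000c) (nat_lit 0) (p (nat_lit 0x380c2) (nat_lit 0) (p (nat_lit 0x444aa) (nat_lit 7) (p (nat_lit 0xd1) (nat_lit 1) (p (nat_lit 0x109) (nat_lit 1) (p (nat_lit 0x101) (nat_lit 0) (p (nat_lit 0x119) (nat_lit 0) (p (nat_lit 0xc9) (nat_lit 0) (p (nat_lit 0x89) (nat_lit 1) (p (nat_lit 0x41) (nat_lit 0) (p (nat_lit 0x10a898a08881a) (nat_lit 0) (p (nat_lit 0xa090988079a) (nat_lit 0) (p (nat_lit 0x108088907871a) (nat_lit 0) (p (nat_lit 0x7880887069a) (nat_lit 0) (p (nat_lit 0x8000000000800088806860a) (nat_lit 0) (p (nat_lit 0x8000000000800068786058a) (nat_lit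 0) (p (nat_lit 0x10687058502) (nat_lit 0) (p (nat_lit 0x606850482) (nat_lit 0) (p (nat_lit 0x16000c) (nat_lit 0) (p (nat_lit 0x68612) (nat_lit 0) (p (nat_lit 0x50592) (nat_lit 0) (p (nat_lit 0x40512) (nat_lit 0) (p (nat_lit 0x50312) (nat_lit 0) (p (nat_lit 0x38292) (nat_lit 0) (p (nat_lit 0x28212) (nat_lit 0) (p (nat_lit 0x38112) (nat_lit 0) (p (nat_lit 0x20092) (nat_lit 0) (p (nat_lit 0x10012) (nat_lit 0) pn)))))))))))))))))))))))))))) :=
  Cl.node (nat_lit 0x200004) (nat_lit 2) (by decide +kernel) (ClAll.succ (ClAll.succ ClAll.zero n33) s126)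

def n44 : Cl (O (nat_lit 5)) (R (nat_lit 143633))
    (p (nat_lit 0x200014) (nat_lit 0) (p (nat_lit 0x380c2) (nat_lit 1) (p (nat_lit 0x444aa) (nat_lit 7) (p (nat_lit 0xd1) (nat_lit 1) (p (nat_lit 0x109) (nat_lit 1) (p (nat_lit 0x101) (nat_lit 0) (p (nat_lit 0x119) (nat_lit 0) (p (nat_lit 0xc9) (nat_lit 0) (p (nat_lit 0x89) (nat_lit 1) (p (nat_lit 0x41) (nat_lit 0) (p (nat_lit 0x10a898a08881a) (nat_lit 0) (p (nat_lit 0xa090988079a) (nat_lit 0) (p (nat_lit 0x108088907871a) (nat_lit 0) (p (nat_lit 0x7880887069a) (nat_lit 0) (p (nat_lit 0x8000000000800088806860a) (nat_lit 0) (p (nat_lit 0x8000000000800068786058a) (nat_lit 0) (p (nat_lit 0x10687058502) (nat_lit 0) (p (nat_lit 0x606850482) (nat_lit 0) (p (nat_lit 0x16000c) (nat_lit 0) (p (nat_lit 0x68612) (nat_lit 0) (p (nat_lit 0x50592) (nat_lit 0) (p (nat_lit 0x40512) (nat_lit 0) (p (nat_lit 0x50312) (nat_lit 0) (p (nat_lit 0x38292) (nat_lit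 0) (p (nat_lit 0x28212) (nat_lit 0) (p (nat_lit 0x38112) (nat_lit 0) (p (nat_lit 0x20092) (nat_lit 0) (p (nat_lit 0x10012) (nat_lit 0) pn)))))))))))))))))))))))))))) :=
  Cl.node (nat_lit 0x200004) (nat_lit 2) (by decide +kernel) (ClAll.succ (ClAll.succ ClAll.zero n34) s133)

def n45 : Cl (O (nat_lit 5)) (R (nat_lit 143633))
    (p (nat_lit 0x380c2) (nat_lit 0) (p (nat_lit 0x3c4aa) (nat_lit 10) (p (nat_lit 0x109) (nat_lit 1) (p (nat_lit 0x89) (nat_lit 1) (p (nat_lit 0xc9) (nat_lit 1) (p (nat_lit 0xc1) (nat_lit 0) (p (nat_lit 0x119) (nat_lit 1) (p (nat_lit 0xd1) (nat_lit 0) (p (nat_lit 0x81) (nat_lit 0) (p (nat_lit 0x41) (nat_lit 1) (p (nat_lit 0x10a898a08881a) (nat_lit 0) (p (nat_lit 0xa090988079a) (nat_lit 0) (p (nat_lit 0x108088907871a) (nat_lit 0) (p (nat_lit 0x7880887069a) (nat_lit 0) (p (nat_lit 0x8000000000800088806860a) (nat_lit 0) (p (nat_lit 0x8000000000800068786058a) (nat_lit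 0) (p (nat_lit 0x10687058502) (nat_lit 0) (p (nat_lit 0x606850482) (nat_lit 0) (p (nat_lit 0x16000c) (nat_lit 0) (p (nat_lit 0x68612) (nat_lit 0) (p (nat_lit 0x50592) (nat_lit 0) (p (nat_lit 0x40512) (nat_lit 0) (p (nat_lit 0x50312) (nat_lit 0) (p (nat_lit 0x38292) (nat_lit 0) (p (nat_lit 0x28212) (nat_lit 0) (p (nat_lit 0x38112) (nat_lit 0) (p (nat_lit 0x20092) (nat_lit 0) (p (nat_lit 0x10012) (nat_lit 0) pn)))))))))))))))))))))))))))) :=
  Cl.node (nat_lit 0x200014) (nat_lit 2) (by decide +kernel) (ClAll.succ (ClAll.succ ClAll.zero n35) s275)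

def n46 : Cl (O (nat_lit 5)) (R (nat_lit 143633))
    (p (nat_lit 0x380c2) (nat_lit 0) (p (nat_lit 0x3c4aa) (nat_lit 7) (p (nat_lit 0xd1) (nat_lit 1) (p (nat_lit 0x111) (nat_lit 1) (p (nat_lit 0x109) (nat_lit 0) (p (nat_lit 0x101) (nat_lit 0) (p (nat_lit 0x119) (nat_lit 0) (p (nat_lit 0xc1) (nat_lit 0) (p (nat_lit 0x81) (nat_lit 1) (p (nat_lit 0x41) (nat_lit 1) (p (nat_lit 0x10a898a08881a) (nat_lit 0) (p (nat_lit 0xa090988079a) (nat_lit 0) (p (nat_lit 0x108088907871a) (nat_lit 0) (p (nat_lit 0x7880887069a) (nat_lit 0) (p (nat_lit 0x8000000000800088806860a) (nat_lit 0) (p (nat_lit 0x8000000000800068786058a) (nat_lit 0) (p (nat_lit 0x10687058502) (nat_lit 0) (p (nat_lit 0x606850482) (nat_lit 0) (p (nat_lit 0x16000c) (nat_lit 0) (p (nat_lit 0x68612) (nat_lit 0) (p (nat_lit 0x50592) (nat_lit 0) (p (nat_lit 0x40512) (nat_lit 0) (p (nat_lit 0x50312) (nat_lit 0) (p (nat_lit 0x38292) (nat_lit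 0) (p (nat_lit 0x28212) (nat_lit 0) (p (nat_lit 0x38112) (nat_lit 0) (p (nat_lit 0x20092) (nat_lit 0) (p (nat_lit 0x10012) (nat_lit 0) pn)))))))))))))))))))))))))))) :=
  Cl.node (nat_lit 0x200004) (nat_lit 2) (by decide +kernel) (ClAll.succ (ClAll.succ ClAll.zero n36) s367)

def n47 : Cl (O (nat_lit 5)) (R (nat_lit 143633))
    (p (nat_lit 0x380c2) (nat_lit 1) (p (nat_lit 0x3c4aa) (nat_lit 7) (p (nat_lit 0xd1) (nat_lit 1) (p (nat_lit 0x111) (nat_lit 1) (p (nat_lit 0x109) (nat_lit 0) (p (nat_lit 0x101) (nat_lit 0) (p (nat_lit 0x119) (nat_lit 0) (p (nat_lit 0xc1) (nat_lit 0) (p (nat_lit 0x81) (nat_lit 1) (p (nat_lit 0x41) (nat_lit 1) (p (nat_lit 0x10a898a08881a) (nat_lit 0) (p (nat_lit 0xa090988079a) (nat_lit 0) (p (nat_lit 0x108088907871a) (nat_lit 0) (p (nat_lit 0x7880887069a) (nat_lit 0) (p (nat_lit 0x8000000000800088806860a) (nat_lit 0) (p (nat_lit 0x8000000000800068786058a) (nat_lit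 0) (p (nat_lit 0x10687058502) (nat_lit 0) (p (nat_lit 0x606850482) (nat_lit 0) (p (nat_lit 0x16000c) (nat_lit 0) (p (nat_lit 0x68612) (nat_lit 0) (p (nat_lit 0x50592) (nat_lit 0) (p (nat_lit 0x40512) (nat_lit 0) (p (nat_lit 0x50312) (nat_lit 0) (p (nat_lit 0x38292) (nat_lit 0) (p (nat_lit 0x28212) (nat_lit 0) (p (nat_lit 0x38112) (nat_lit 0) (p (nat_lit 0x20092) (nat_lit 0) (p (nat_lit 0x10012) (nat_lit 0) pn)))))))))))))))))))))))))))) :=
  Cl.node (nat_lit 0x200004) (nat_lit 2) (by decide +kernel) (ClAll.succ (ClAll.succ ClAll.zero n37) s377)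

def n48 : Cl (O (nat_lit 5)) (R (nat_lit 143633))
    (p (nat_lit 0x380c2) (nat_lit 1) (p (nat_lit 0x3c4aa) (nat_lit 7) (p (nat_lit 0xd1) (nat_lit 1) (p (nat_lit 0xc9) (nat_lit 0) (p (nat_lit 0x109) (nat_lit 1) (p (nat_lit 0x101) (nat_lit 0) (p (nat_lit 0x119) (nat_lit 0) (p (nat_lit 0xc1) (nat_lit 0) (p (nat_lit 0x81) (nat_lit 1) (p (nat_lit 0x41) (nat_lit 1) (p (nat_lit 0x10a898a08881a) (nat_lit 0) (p (nat_lit 0xa090988079a) (nat_lit 0) (p (nat_lit 0x108088907871a) (nat_lit 0) (p (nat_lit 0x7880887069a) (nat_lit 0) (p (nat_lit 0x8000000000800088806860a) (nat_lit 0) (p (nat_lit 0x8000000000800068786058a) (nat_lit 0) (p (nat_lit 0x10687058502) (nat_lit 0) (p (nat_lit 0x606850482) (nat_lit 0) (p (nat_lit 0x16000c) (nat_lit 0) (p (nat_lit 0x68612) (nat_lit 0) (p (nat_lit 0x50592) (nat_lit 0) (p (nat_lit 0x40512) (nat_lit 0) (p (nat_lit 0x50312) (nat_lit 0) (p (nat_lit 0x38292) (nat_lit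 0) (p (nat_lit 0x28212) (nat_lit 0) (p (nat_lit 0x38112) (nat_lit 0) (p (nat_lit 0x20092) (nat_lit 0) (p (nat_lit 0x10012) (nat_lit 0) pn)))))))))))))))))))))))))))) :=
  Cl.node (nat_lit 0xb000c) (nat_lit 2) (by decide +kernel) (ClAll.succ (ClAll.succ ClAll.zero s391) s392)

def n49 : Cl (O (nat_lit 5)) (R (nat_lit 143633))
    (p (nat_lit 0x200004) (nat_lit 0) (p (nat_lit 0x380c2) (nat_lit 0) (p (nat_lit 0x3c4aa) (nat_lit 7) (p (nat_lit 0xd1) (nat_lit 1) (p (nat_lit 0xc9) (nat_lit 0) (p (nat_lit 0x101) (nat_lit 1) (p (nat_lit 0x119) (nat_lit 0) (p (nat_lit 0xc1) (nat_lit 0) (p (nat_lit 0x81) (nat_lit 1) (p (nat_lit 0x41) (nat_lit 1) (p (nat_lit 0x10a898a08881a) (nat_lit 0) (p (nat_lit 0xa090988079a) (nat_lit 0) (p (nat_lit 0x108088907871a) (nat_lit 0) (p (nat_lit 0x7880887069a) (nat_lit 0) (p (nat_lit 0x8000000000800088806860a) (nat_lit 0) (p (nat_lit 0x8000000000800068786058a) (nat_lit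 0) (p (nat_lit 0x10687058502) (nat_lit 0) (p (nat_lit 0x606850482) (nat_lit 0) (p (nat_lit 0x16000c) (nat_lit 0) (p (nat_lit 0x68612) (nat_lit 0) (p (nat_lit 0x50592) (nat_lit 0) (p (nat_lit 0x40512) (nat_lit 0) (p (nat_lit 0x50312) (nat_lit 0) (p (nat_lit 0x38292) (nat_lit 0) (p (nat_lit 0x28212) (nat_lit 0) (p (nat_lit 0x38112) (nat_lit 0) (p (nat_lit 0x20092) (nat_lit 0) (p (nat_lit 0x10012) (nat_lit 0) pn)))))))))))))))))))))))))))) :=
  Cl.node (nat_lit 0xb000c) (nat_lit 2) (by decide +kernel) (ClAll.succ (ClAll.succ ClAll.zero n38) s424)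

def n50 : Cl (O (nat_lit 5)) (R (nat_lit 143633))
    (p (nat_lit 0x200004) (nat_lit 0) (p (nat_lit 0x380c2) (nat_lit 1) (p (nat_lit 0x3c4aa) (nat_lit 7) (p (nat_lit 0xd1) (nat_lit 1) (p (nat_lit 0xc9) (nat_lit 0) (p (nat_lit 0x101) (nat_lit 1) (p (nat_lit 0x119) (nat_lit 0) (p (nat_lit 0xc1) (nat_lit 0) (p (nat_lit 0x81) (nat_lit 1) (p (nat_lit 0x41) (nat_lit 1) (p (nat_lit 0x10a898a08881a) (nat_lit 0) (p (nat_lit 0xa090988079a) (nat_lit 0) (p (nat_lit 0x108088907871a) (nat_lit 0) (p (nat_lit 0x7880887069a) (nat_lit 0) (p (nat_lit 0x8000000000800088806860a) (nat_lit 0) (p (nat_lit 0x8000000000800068786058a) (nat_lit 0) (p (nat_lit 0x10687058502) (nat_lit 0) (p (nat_lit 0x606850482) (nat_lit 0) (p (nat_lit 0x16000c) (nat_lit 0) (p (nat_lit 0x68612) (nat_lit 0) (p (nat_lit 0x50592) (nat_lit 0) (p (nat_lit 0x40512) (nat_lit 0) (p (nat_lit 0x50312) (nat_lit 0) (p (nat_lit 0x38292) (nat_lit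 0) (p (nat_lit 0x28212) (nat_lit 0) (p (nat_lit 0x38112) (nat_lit 0) (p (nat_lit 0x20092) (nat_lit 0) (p (nat_lit 0x10012) (nat_lit 0) pn)))))))))))))))))))))))))))) :=
  Cl.node (nat_lit 0xb000c) (nat_lit 2) (by decide +kernel) (ClAll.succ (ClAll.succ ClAll.zero s426) s427)

def n51 : Cl (O (nat_lit 5)) (R (nat_lit 143633))
    (p (nat_lit 0x200004) (nat_lit 0) (p (nat_lit 0x380c2) (nat_lit 1) (p (nat_lit 0x3c4aa) (nat_lit 7) (p (nat_lit 0x111) (nat_lit 1) (p (nat_lit 0xd1) (nat_lit 1) (p (nat_lit 0xc9) (nat_lit 0) (p (nat_lit 0x119) (nat_lit 1) (p (nat_lit 0xc1) (nat_lit 0) (p (nat_lit 0x81) (nat_lit 1) (p (nat_lit 0x41) (nat_lit 1) (p (nat_lit 0x10a898a08881a) (nat_lit 0) (p (nat_lit 0xa090988079a) (nat_lit 0) (p (nat_lit 0x108088907871a) (nat_lit 0) (p (nat_lit 0x7880887069a) (nat_lit 0) (p (nat_lit 0x8000000000800088806860a) (nat_lit 0) (p (nat_lit 0x8000000000800068786058a) (nat_lit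 0) (p (nat_lit 0x10687058502) (nat_lit 0) (p (nat_lit 0x606850482) (nat_lit 0) (p (nat_lit 0x16000c) (nat_lit 0) (p (nat_lit 0x68612) (nat_lit 0) (p (nat_lit 0x50592) (nat_lit 0) (p (nat_lit 0x40512) (nat_lit 0) (p (nat_lit 0x50312) (nat_lit 0) (p (nat_lit 0x38292) (nat_lit 0) (p (nat_lit 0x28212) (nat_lit 0) (p (nat_lit 0x38112) (nat_lit 0) (p (nat_lit 0x20092) (nat_lit 0) (p (nat_lit 0x10012) (nat_lit 0) pn)))))))))))))))))))))))))))) :=
  Cl.node (nat_lit 0xb000c) (nat_lit 2) (by decide +kernel) (ClAll.succ (ClAll.succ ClAll.zero s444) s445)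

def n52 : Cl (O (nat_lit 5)) (R (nat_lit 143633))
    (p (nat_lit 0x200004) (nat_lit 0) (p (nat_lit 0x380c2) (nat_lit 0) (p (nat_lit 0x3c4aa) (nat_lit 7) (p (nat_lit 0x111) (nat_lit 1) (p (nat_lit 0x109) (nat_lit 0) (p (nat_lit 0xc9) (nat_lit 1) (p (nat_lit 0x119) (nat_lit 1) (p (nat_lit 0xc1) (nat_lit 0) (p (nat_lit 0x81) (nat_lit 1) (p (nat_lit 0x41) (nat_lit 1) (p (nat_lit 0x10a898a08881a) (nat_lit 0) (p (nat_lit 0xa090988079a) (nat_lit 0) (p (nat_lit 0x108088907871a) (nat_lit 0) (p (nat_lit 0x7880887069a) (nat_lit 0) (p (nat_lit 0x8000000000800088806860a) (nat_lit 0) (p (nat_lit 0x8000000000800068786058a) (nat_lit 0) (p (nat_lit 0x10687058502) (nat_lit 0) (p (nat_lit 0x606850482) (nat_lit 0) (p (nat_lit 0x16000c) (nat_lit 0) (p (nat_lit 0x68612) (nat_lit 0) (p (nat_lit 0x50592) (nat_lit 0) (p (nat_lit 0x40512) (nat_lit 0) (p (nat_lit 0x50312) (nat_lit 0) (p (nat_lit 0x38292) (nat_lit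 0) (p (nat_lit 0x28212) (nat_lit 0) (p (nat_lit 0x38112) (nat_lit 0) (p (nat_lit 0x20092) (nat_lit 0) (p (nat_lit 0x10012) (nat_lit 0) pn)))))))))))))))))))))))))))) :=
  Cl.node (nat_lit 0xb000c) (nat_lit 2) (by decide +kernel) (ClAll.succ (ClAll.succ ClAll.zero n39) s462)

def n53 : Cl (O (nat_lit 5)) (R (nat_lit 143633))
    (p (nat_lit 0x200004) (nat_lit 0) (p (nat_lit 0x380c2) (nat_lit 1) (p (nat_lit 0x3c4aa) (nat_lit 7) (p (nat_lit 0x111) (nat_lit 1) (p (nat_lit 0x109) (nat_lit 0) (p (nat_lit 0xc9) (nat_lit 1) (p (nat_lit 0x119) (nat_lit 1) (p (nat_lit 0xc1) (nat_lit 0) (p (nat_lit 0x81) (nat_lit 1) (p (nat_lit 0x41) (nat_lit 1) (p (nat_lit 0x10a898a08881a) (nat_lit 0) (p (nat_lit 0xa090988079a) (nat_lit 0) (p (nat_lit 0x108088907871a) (nat_lit 0) (p (nat_lit 0x7880887069a) (nat_lit 0) (p (nat_lit 0x8000000000800088806860a) (nat_lit 0) (p (nat_lit 0x8000000000800068786058a) (nat_lit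 0) (p (nat_lit 0x10687058502) (nat_lit 0) (p (nat_lit 0x606850482) (nat_lit 0) (p (nat_lit 0x16000c) (nat_lit 0) (p (nat_lit 0x68612) (nat_lit 0) (p (nat_lit 0x50592) (nat_lit 0) (p (nat_lit 0x40512) (nat_lit 0) (p (nat_lit 0x50312) (nat_lit 0) (p (nat_lit 0x38292) (nat_lit 0) (p (nat_lit 0x28212) (nat_lit 0) (p (nat_lit 0x38112) (nat_lit 0) (p (nat_lit 0x20092) (nat_lit 0) (p (nat_lit 0x10012) (nat_lit 0) pn)))))))))))))))))))))))))))) :=
  Cl.node (nat_lit 0xb000c) (nat_lit 2) (by decide +kernel) (ClAll.succ (ClAll.succ ClAll.zero n40) s468)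

def n54 : Cl (O (nat_lit 5)) (R (nat_lit 143633))
    (p (nat_lit 0x444aa) (nat_lit 7) (p (nat_lit 0x81) (nat_lit 1) (p (nat_lit 0xc9) (nat_lit 1) (p (nat_lit 0x109) (nat_lit 1) (p (nat_lit 0x101) (nat_lit 0) (p (nat_lit 0x119) (nat_lit 0) (p (nat_lit 0xd1) (nat_lit 0) (p (nat_lit 0x89) (nat_lit 0) (p (nat_lit 0x41) (nat_lit 0) (p (nat_lit 0x10a898a08881a) (nat_lit 0) (p (nat_lit 0xa090988079a) (nat_lit 0) (p (nat_lit 0x108088907871a) (nat_lit 0) (p (nat_lit 0x7880887069a) (nat_lit 0) (p (nat_lit 0x8000000000800088806860a) (nat_lit 0) (p (nat_lit 0x8000000000800068786058a) (nat_lit 0) (p (nat_lit 0x10687058502) (nat_lit 0) (p (nat_lit 0x606850482) (nat_lit 0) (p (nat_lit 0x16000c) (nat_lit 0) (p (nat_lit 0x68612) (nat_lit 0) (p (nat_lit 0x50592) (nat_lit 0) (p (nat_lit 0x40512) (nat_lit 0) (p (nat_lit 0x50312) (nat_lit 0) (p (nat_lit 0x38292) (nat_lit 0) (p (nat_lit 0x28212) (nat_lit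 0) (p (nat_lit 0x38112) (nat_lit 0) (p (nat_lit 0x20092) (nat_lit 0) (p (nat_lit 0x10012) (nat_lit 0) pn))))))))))))))))))))))))))) :=
  Cl.node (nat_lit 0x380c2) (nat_lit 2) (by decide +kernel) (ClAll.succ (ClAll.succ ClAll.zero n41) n42)

def n55 : Cl (O (nat_lit 5)) (R (nat_lit 143633))
    (p (nat_lit 0x444aa) (nat_lit 7) (p (nat_lit 0x111) (nat_lit 0) (p (nat_lit 0xc9) (nat_lit 1) (p (nat_lit 0x81) (nat_lit 0) (p (nat_lit 0x101) (nat_lit 1) (p (nat_lit 0x119) (nat_lit 0) (p (nat_lit 0xd1) (nat_lit 0) (p (nat_lit 0x89) (nat_lit 0) (p (nat_lit 0x41) (nat_lit 0) (p (nat_lit 0x10a898a08881a) (nat_lit 0) (p (nat_lit 0xa090988079a) (nat_lit 0) (p (nat_lit 0x108088907871a) (nat_lit 0) (p (nat_lit 0x7880887069a) (nat_lit 0) (p (nat_lit 0x8000000000800088806860a) (nat_lit 0) (p (nat_lit 0x8000000000800068786058a) (nat_lit 0) (p (nat_lit 0x10687058502) (nat_lit 0) (p (nat_lit 0x606850482)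 (nat_lit 0) (p (nat_lit 0x16000c) (nat_lit 0) (p (nat_lit 0x68612) (nat_lit 0) (p (nat_lit 0x50592) (nat_lit 0) (p (nat_lit 0x40512) (nat_lit 0) (p (nat_lit 0x50312) (nat_lit 0) (p (nat_lit 0x38292) (nat_lit 0) (p (nat_lit 0x28212) (nat_lit 0) (p (nat_lit 0x38112) (nat_lit 0) (p (nat_lit 0x20092) (nat_lit 0) (p (nat_lit 0x10012) (nat_lit 0) pn))))))))))))))))))))))))))) :=
  Cl.node (nat_lit 0x380c2) (nat_lit 2) (by decide +kernel) (ClAll.succ (ClAll.succ ClAll.zero s32) s33)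

def n56 : Cl (O (nat_lit 5)) (R (nat_lit 143633))
    (p (nat_lit 0x444aa) (nat_lit 7) (p (nat_lit 0xd1) (nat_lit 1) (p (nat_lit 0x111) (nat_lit 1) (p (nat_lit 0x109) (nat_lit 0) (p (nat_lit 0x101) (nat_lit 0) (p (nat_lit 0x119) (nat_lit 0) (p (nat_lit 0xc9) (nat_lit 0) (p (nat_lit 0x89) (nat_lit 1) (p (nat_lit 0x41) (nat_lit 0) (p (nat_lit 0x10a898a08881a) (nat_lit 0) (p (nat_lit 0xa090988079a) (nat_lit 0) (p (nat_lit 0x108088907871a) (nat_lit 0) (p (nat_lit 0x7880887069a) (nat_lit 0) (p (nat_lit 0x8000000000800088806860a) (nat_lit 0) (p (nat_lit 0x8000000000800068786058a) (nat_lit 0) (p (nat_lit 0x10687058502) (nat_lit 0) (p (nat_lit 0x606850482) (nat_lit 0) (p (nat_lit 0x16000c) (nat_lit 0) (p (nat_lit 0x68612) (nat_lit 0) (p (nat_lit 0x50592) (nat_lit 0) (p (nat_lit 0x40512) (nat_lit 0) (p (nat_lit 0x50312) (nat_lit 0) (p (nat_lit 0x38292) (nat_lit 0) (p (nat_lit 0x28212) (nat_lit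 0) (p (nat_lit 0x38112) (nat_lit 0) (p (nat_lit 0x20092) (nat_lit 0) (p (nat_lit 0x10012) (nat_lit 0) pn))))))))))))))))))))))))))) :=
  Cl.node (nat_lit 0x380c2) (nat_lit 2) (by decide +kernel) (ClAll.succ (ClAll.succ ClAll.zero s106) s107)

def n57 : Cl (O (nat_lit 5)) (R (nat_lit 143633))
    (p (nat_lit 0x380c2) (nat_lit 0) (p (nat_lit 0x444aa) (nat_lit 7) (p (nat_lit 0xd1) (nat_lit 1) (p (nat_lit 0x109) (nat_lit 1) (p (nat_lit 0x101) (nat_lit 0) (p (nat_lit 0x119) (nat_lit 0) (p (nat_lit 0xc9) (nat_lit 0) (p (nat_lit 0x89) (nat_lit 1) (p (nat_lit 0x41) (nat_lit 0) (p (nat_lit 0x10a898a08881a) (nat_lit 0) (p (nat_lit 0xa090988079a) (nat_lit 0) (p (nat_lit 0x108088907871a) (nat_lit 0) (p (nat_lit 0x7880887069a) (nat_lit 0) (p (nat_lit 0x8000000000800088806860a) (nat_lit 0) (p (nat_lit 0x8000000000800068786058a) (nat_lit 0) (p (nat_lit 0x10687058502) (nat_lit 0) (p (nat_lit 0x606850482)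 (nat_lit 0) (p (nat_lit 0x16000c) (nat_lit 0) (p (nat_lit 0x68612) (nat_lit 0) (p (nat_lit 0x50592) (nat_lit 0) (p (nat_lit 0x40512) (nat_lit 0) (p (nat_lit 0x50312) (nat_lit 0) (p (nat_lit 0x38292) (nat_lit 0) (p (nat_lit 0x28212) (nat_lit 0) (p (nat_lit 0x38112) (nat_lit 0) (p (nat_lit 0x20092) (nat_lit 0) (p (nat_lit 0x10012) (nat_lit 0) pn))))))))))))))))))))))))))) :=
  Cl.node (nat_lit 0xb000c) (nat_lit 2) (by decide +kernel) (ClAll.succ (ClAll.succ ClAll.zero n43) s127)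

def n58 : Cl (O (nat_lit 5)) (R (nat_lit 143633))
    (p (nat_lit 0x380c2) (nat_lit 1) (p (nat_lit 0x444aa) (nat_lit 7) (p (nat_lit 0xd1) (nat_lit 1) (p (nat_lit 0x109) (nat_lit 1) (p (nat_lit 0x101) (nat_lit 0) (p (nat_lit 0x119) (nat_lit 0) (p (nat_lit 0xc9) (nat_lit 0) (p (nat_lit 0x89) (nat_lit 1) (p (nat_lit 0x41) (nat_lit 0) (p (nat_lit 0x10a898a08881a) (nat_lit 0) (p (nat_lit 0xa090988079a) (nat_lit 0) (p (nat_lit 0x108088907871a) (nat_lit 0) (p (nat_lit 0x7880887069a) (nat_lit 0) (p (nat_lit 0x8000000000800088806860a) (nat_lit 0) (p (nat_lit 0x8000000000800068786058a) (nat_lit 0) (p (nat_lit 0x10687058502) (nat_lit 0) (p (nat_lit 0x606850482) (nat_lit 0) (p (nat_lit 0x16000c) (nat_lit 0) (p (nat_lit 0x68612) (nat_lit 0) (p (nat_lit 0x50592) (nat_lit 0) (p (nat_lit 0x40512) (nat_lit 0) (p (nat_lit 0x50312) (nat_lit 0) (p (nat_lit 0x38292) (nat_lit 0) (p (nat_lit 0x28212) (nat_lit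 0) (p (nat_lit 0x38112) (nat_lit 0) (p (nat_lit 0x20092) (nat_lit 0) (p (nat_lit 0x10012) (nat_lit 0) pn))))))))))))))))))))))))))) :=
  Cl.node (nat_lit 0x200014) (nat_lit 2) (by decide +kernel) (ClAll.succ (ClAll.succ ClAll.zero n44) s134)

def n59 : Cl (O (nat_lit 5)) (R (nat_lit 143633))
    (p (nat_lit 0x3c4aa) (nat_lit 7) (p (nat_lit 0x109) (nat_lit 1) (p (nat_lit 0x89) (nat_lit 1) (p (nat_lit 0xc9) (nat_lit 1) (p (nat_lit 0xc1) (nat_lit 0) (p (nat_lit 0x119) (nat_lit 1) (p (nat_lit 0xd1) (nat_lit 0) (p (nat_lit 0x81) (nat_lit 0) (p (nat_lit 0x41) (nat_lit 1) (p (nat_lit 0x10a898a08881a) (nat_lit 0) (p (nat_lit 0xa090988079a) (nat_lit 0) (p (nat_lit 0x108088907871a) (nat_lit 0) (p (nat_lit 0x7880887069a) (nat_lit 0) (p (nat_lit 0x8000000000800088806860a) (nat_lit 0) (p (nat_lit 0x8000000000800068786058a) (nat_lit 0) (p (nat_lit 0x10687058502) (nat_lit 0) (p (nat_lit 0x606850482)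 (nat_lit 0) (p (nat_lit 0x16000c) (nat_lit 0) (p (nat_lit 0x68612) (nat_lit 0) (p (nat_lit 0x50592) (nat_lit 0) (p (nat_lit 0x40512) (nat_lit 0) (p (nat_lit 0x50312) (nat_lit 0) (p (nat_lit 0x38292) (nat_lit 0) (p (nat_lit 0x28212) (nat_lit 0) (p (nat_lit 0x38112) (nat_lit 0) (p (nat_lit 0x20092) (nat_lit 0) (p (nat_lit 0x10012) (nat_lit 0) pn))))))))))))))))))))))))))) :=
  Cl.node (nat_lit 0x380c2) (nat_lit 2) (by decide +kernel) (ClAll.succ (ClAll.succ ClAll.zero s266) s267)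

def n60 : Cl (O (nat_lit 5)) (R (nat_lit 143633))
    (p (nat_lit 0x3c4aa) (nat_lit 10) (p (nat_lit 0x109) (nat_lit 1) (p (nat_lit 0x89) (nat_lit 1) (p (nat_lit 0xc9) (nat_lit 1) (p (nat_lit 0xc1) (nat_lit 0) (p (nat_lit 0x119) (nat_lit 1) (p (nat_lit 0xd1) (nat_lit 0) (p (nat_lit 0x81) (nat_lit 0) (p (nat_lit 0x41) (nat_lit 1) (p (nat_lit 0x10a898a08881a) (nat_lit 0) (p (nat_lit 0xa090988079a) (nat_lit 0) (p (nat_lit 0x108088907871a) (nat_lit 0) (p (nat_lit 0x7880887069a) (nat_lit 0) (p (nat_lit 0x8000000000800088806860a) (nat_lit 0) (p (nat_lit 0x8000000000800068786058a) (nat_lit 0) (p (nat_lit 0x10687058502) (nat_lit 0) (p (nat_lit 0x606850482) (nat_lit 0) (p (nat_lit 0x16000c) (nat_lit 0) (p (nat_lit 0x68612) (nat_lit 0) (p (nat_lit 0x50592) (nat_lit 0) (p (nat_lit 0x40512) (nat_lit 0) (p (nat_lit 0x50312) (nat_lit 0) (p (nat_lit 0x38292) (nat_lit 0) (p (nat_lit 0x28212) (nat_lit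 0) (p (nat_lit 0x38112) (nat_lit 0) (p (nat_lit 0x20092) (nat_lit 0) (p (nat_lit 0x10012) (nat_lit 0) pn))))))))))))))))))))))))))) :=
  Cl.node (nat_lit 0x380c2) (nat_lit 2) (by decide +kernel) (ClAll.succ (ClAll.succ ClAll.zero n45) s276)

def n61 : Cl (O (nat_lit 5)) (R (nat_lit 143633))
    (p (nat_lit 0x3c4aa) (nat_lit 7) (p (nat_lit 0x109) (nat_lit 1) (p (nat_lit 0x89) (nat_lit 1) (p (nat_lit 0x101) (nat_lit 0) (p (nat_lit 0xc1) (nat_lit 1) (p (nat_lit 0x119) (nat_lit 1) (p (nat_lit 0xd1) (nat_lit 0) (p (nat_lit 0x81) (nat_lit 0) (p (nat_lit 0x41) (nat_lit 1) (p (nat_lit 0x10a898a08881a) (nat_lit 0) (p (nat_lit 0xa090988079a) (nat_lit 0) (p (nat_lit 0x108088907871a) (nat_lit 0) (p (nat_lit 0x7880887069a) (nat_lit 0) (p (nat_lit 0x8000000000800088806860a) (nat_lit 0) (p (nat_lit 0x8000000000800068786058a) (nat_lit 0) (p (nat_lit 0x10687058502) (nat_lit 0) (p (nat_lit 0x606850482)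 (nat_lit 0) (p (nat_lit 0x16000c) (nat_lit 0) (p (nat_lit 0x68612) (nat_lit 0) (p (nat_lit 0x50592) (nat_lit 0) (p (nat_lit 0x40512) (nat_lit 0) (p (nat_lit 0x50312) (nat_lit 0) (p (nat_lit 0x38292) (nat_lit 0) (p (nat_lit 0x28212) (nat_lit 0) (p (nat_lit 0x38112) (nat_lit 0) (p (nat_lit 0x20092) (nat_lit 0) (p (nat_lit 0x10012) (nat_lit 0) pn))))))))))))))))))))))))))) :=
  Cl.node (nat_lit 0x380c2) (nat_lit 2) (by decide +kernel) (ClAll.succ (ClAll.succ ClAll.zero s298) s299)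

def n62 : Cl (O (nat_lit 5)) (R (nat_lit 143633))
    (p (nat_lit 0x3c4aa) (nat_lit 7) (p (nat_lit 0xd1) (nat_lit 1) (p (nat_lit 0x111) (nat_lit 1) (p (nat_lit 0x109) (nat_lit 0) (p (nat_lit 0x101) (nat_lit 0) (p (nat_lit 0x119) (nat_lit 0) (p (nat_lit 0xc1) (nat_lit 0) (p (nat_lit 0x81) (nat_lit 1) (p (nat_lit 0x41) (nat_lit 1) (p (nat_lit 0x10a898a08881a) (nat_lit 0) (p (nat_lit 0xa090988079a) (nat_lit 0) (p (nat_lit 0x108088907871a) (nat_lit 0) (p (nat_lit 0x7880887069a) (nat_lit 0) (p (nat_lit 0x8000000000800088806860a) (nat_lit 0) (p (nat_lit 0x8000000000800068786058a) (nat_lit 0) (p (nat_lit 0x10687058502) (nat_lit 0) (p (nat_lit 0x606850482) (nat_lit 0) (p (nat_lit 0x16000c) (nat_lit 0) (p (nat_lit 0x68612) (nat_lit 0) (p (nat_lit 0x50592) (nat_lit 0) (p (nat_lit 0x40512) (nat_lit 0) (p (nat_lit 0x50312) (nat_lit 0) (p (nat_lit 0x38292) (nat_lit 0) (p (nat_lit 0x28212) (nat_lit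 0) (p (nat_lit 0x38112) (nat_lit 0) (p (nat_lit 0x20092) (nat_lit 0) (p (nat_lit 0x10012) (nat_lit 0) pn))))))))))))))))))))))))))) :=
  Cl.node (nat_lit 0x380c2) (nat_lit 2) (by decide +kernel) (ClAll.succ (ClAll.succ ClAll.zero n46) n47)

def n63 : Cl (O (nat_lit 5)) (R (nat_lit 143633))
    (p (nat_lit 0x3c4aa) (nat_lit 7) (p (nat_lit 0xd1) (nat_lit 1) (p (nat_lit 0xc9) (nat_lit 0) (p (nat_lit 0x109) (nat_lit 1) (p (nat_lit 0x101) (nat_lit 0) (p (nat_lit 0x119) (nat_lit 0) (p (nat_lit 0xc1) (nat_lit 0) (p (nat_lit 0x81) (nat_lit 1) (p (nat_lit 0x41) (nat_lit 1) (p (nat_lit 0x10a898a08881a) (nat_lit 0) (p (nat_lit 0xa090988079a) (nat_lit 0) (p (nat_lit 0x108088907871a) (nat_lit 0) (p (nat_lit 0x7880887069a) (nat_lit 0) (p (nat_lit 0x8000000000800088806860a) (nat_lit 0) (p (nat_lit 0x8000000000800068786058a) (nat_lit 0) (p (nat_lit 0x10687058502) (nat_lit 0) (p (nat_lit 0x606850482)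 (nat_lit 0) (p (nat_lit 0x16000c) (nat_lit 0) (p (nat_lit 0x68612) (nat_lit 0) (p (nat_lit 0x50592) (nat_lit 0) (p (nat_lit 0x40512) (nat_lit 0) (p (nat_lit 0x50312) (nat_lit 0) (p (nat_lit 0x38292) (nat_lit 0) (p (nat_lit 0x28212) (nat_lit 0) (p (nat_lit 0x38112) (nat_lit 0) (p (nat_lit 0x20092) (nat_lit 0) (p (nat_lit 0x10012) (nat_lit 0) pn))))))))))))))))))))))))))) :=
  Cl.node (nat_lit 0x380c2) (nat_lit 2) (by decide +kernel) (ClAll.succ (ClAll.succ ClAll.zero s390) n48)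

def n64 : Cl (O (nat_lit 5)) (R (nat_lit 143633))
    (p (nat_lit 0x380c2) (nat_lit 0) (p (nat_lit 0x3c4aa) (nat_lit 7) (p (nat_lit 0xd1) (nat_lit 1) (p (nat_lit 0xc9) (nat_lit 0) (p (nat_lit 0x101) (nat_lit 1) (p (nat_lit 0x119) (nat_lit 0) (p (nat_lit 0xc1) (nat_lit 0) (p (nat_lit 0x81) (nat_lit 1) (p (nat_lit 0x41) (nat_lit 1) (p (nat_lit 0x10a898a08881a) (nat_lit 0) (p (nat_lit 0xa090988079a) (nat_lit 0) (p (nat_lit 0x108088907871a) (nat_lit 0) (p (nat_lit 0x7880887069a) (nat_lit 0) (p (nat_lit 0x8000000000800088806860a) (nat_lit 0) (p (nat_lit 0x8000000000800068786058a) (nat_lit 0) (p (nat_lit 0x10687058502) (nat_lit 0) (p (nat_lit 0x606850482) (nat_lit 0) (p (nat_lit 0x16000c) (nat_lit 0) (p (nat_lit 0x68612) (nat_lit 0) (p (nat_lit 0x50592) (nat_lit 0) (p (nat_lit 0x40512) (nat_lit 0) (p (nat_lit 0x50312) (nat_lit 0) (p (nat_lit 0x38292) (nat_lit 0) (p (nat_lit 0x28212) (nat_lit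 0) (p (nat_lit 0x38112) (nat_lit 0) (p (nat_lit 0x20092) (nat_lit 0) (p (nat_lit 0x10012) (nat_lit 0) pn))))))))))))))))))))))))))) :=
  Cl.node (nat_lit 0x200004) (nat_lit 2) (by decide +kernel) (ClAll.succ (ClAll.succ ClAll.zero n49) s425)

def n65 : Cl (O (nat_lit 5)) (R (nat_lit 143633))
    (p (nat_lit 0x380c2) (nat_lit 1) (p (nat_lit 0x3c4aa) (nat_lit 7) (p (nat_lit 0xd1) (nat_lit 1) (p (nat_lit 0xc9) (nat_lit 0) (p (nat_lit 0x101) (nat_lit 1) (p (nat_lit 0x119) (nat_lit 0) (p (nat_lit 0xc1) (nat_lit 0) (p (nat_lit 0x81) (nat_lit 1) (p (nat_lit 0x41) (nat_lit 1) (p (nat_lit 0x10a898a08881a) (nat_lit 0) (p (nat_lit 0xa090988079a) (nat_lit 0) (p (nat_lit 0x108088907871a) (nat_lit 0) (p (nat_lit 0x7880887069a) (nat_lit 0) (p (nat_lit 0x8000000000800088806860a) (nat_lit 0) (p (nat_lit 0x8000000000800068786058a) (nat_lit 0) (p (nat_lit 0x10687058502) (nat_lit 0) (p (nat_lit 0x606850482)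 (nat_lit 0) (p (nat_lit 0x16000c) (nat_lit 0) (p (nat_lit 0x68612) (nat_lit 0) (p (nat_lit 0x50592) (nat_lit 0) (p (nat_lit 0x40512) (nat_lit 0) (p (nat_lit 0x50312) (nat_lit 0) (p (nat_lit 0x38292) (nat_lit 0) (p (nat_lit 0x28212) (nat_lit 0) (p (nat_lit 0x38112) (nat_lit 0) (p (nat_lit 0x20092) (nat_lit 0) (p (nat_lit 0x10012) (nat_lit 0) pn))))))))))))))))))))))))))) :=
  Cl.node (nat_lit 0x200004) (nat_lit 2) (by decide +kernel) (ClAll.succ (ClAll.succ ClAll.zero n50) s428)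

def n66 : Cl (O (nat_lit 5)) (R (nat_lit 143633))
    (p (nat_lit 0x380c2) (nat_lit 1) (p (nat_lit 0x3c4aa) (nat_lit 7) (p (nat_lit 0x111) (nat_lit 1) (p (nat_lit 0xd1) (nat_lit 1) (p (nat_lit 0xc9) (nat_lit 0) (p (nat_lit 0x119) (nat_lit 1) (p (nat_lit 0xc1) (nat_lit 0) (p (nat_lit 0x81) (nat_lit 1) (p (nat_lit 0x41) (nat_lit 1) (p (nat_lit 0x10a898a08881a) (nat_lit 0) (p (nat_lit 0xa090988079a) (nat_lit 0) (p (nat_lit 0x108088907871a) (nat_lit 0) (p (nat_lit 0x7880887069a) (nat_lit 0) (p (nat_lit 0x8000000000800088806860a) (nat_lit 0) (p (nat_lit 0x8000000000800068786058a) (nat_lit 0) (p (nat_lit 0x10687058502) (nat_lit 0) (p (nat_lit 0x606850482) (nat_lit 0) (p (nat_lit 0x16000c) (nat_lit 0) (p (nat_lit 0x68612) (nat_lit 0) (p (nat_lit 0x50592) (nat_lit 0) (p (nat_lit 0x40512) (nat_lit 0) (p (nat_lit 0x50312) (nat_lit 0) (p (nat_lit 0x38292) (nat_lit 0) (p (nat_lit 0x28212) (nat_lit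 0) (p (nat_lit 0x38112) (nat_lit 0) (p (nat_lit 0x20092) (nat_lit 0) (p (nat_lit 0x10012) (nat_lit 0) pn))))))))))))))))))))))))))) :=
  Cl.node (nat_lit 0x200004) (nat_lit 2) (by decide +kernel) (ClAll.succ (ClAll.succ ClAll.zero n51) s446)

def n67 : Cl (O (nat_lit 5)) (R (nat_lit 143633))
    (p (nat_lit 0x380c2) (nat_lit 0) (p (nat_lit 0x3c4aa) (nat_lit 7) (p (nat_lit 0x111) (nat_lit 1) (p (nat_lit 0x109) (nat_lit 0) (p (nat_lit 0xc9) (nat_lit 1) (p (nat_lit 0x119) (nat_lit 1) (p (nat_lit 0xc1) (nat_lit 0) (p (nat_lit 0x81) (nat_lit 1) (p (nat_lit 0x41) (nat_lit 1) (p (nat_lit 0x10a898a08881a) (nat_lit 0) (p (nat_lit 0xa090988079a) (nat_lit 0) (p (nat_lit 0x108088907871a) (nat_lit 0) (p (nat_lit 0x7880887069a) (nat_lit 0) (p (nat_lit 0x8000000000800088806860a) (nat_lit 0) (p (nat_lit 0x8000000000800068786058a) (nat_lit 0) (p (nat_lit 0x10687058502) (nat_lit 0) (p (nat_lit 0x606850482)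 (nat_lit 0) (p (nat_lit 0x16000c) (nat_lit 0) (p (nat_lit 0x68612) (nat_lit 0) (p (nat_lit 0x50592) (nat_lit 0) (p (nat_lit 0x40512) (nat_lit 0) (p (nat_lit 0x50312) (nat_lit 0) (p (nat_lit 0x38292) (nat_lit 0) (p (nat_lit 0x28212) (nat_lit 0) (p (nat_lit 0x38112) (nat_lit 0) (p (nat_lit 0x20092) (nat_lit 0) (p (nat_lit 0x10012) (nat_lit 0) pn))))))))))))))))))))))))))) :=
  Cl.node (nat_lit 0x200004) (nat_lit 2) (by decide +kernel) (ClAll.succ (ClAll.succ ClAll.zero n52) s463)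

def n68 : Cl (O (nat_lit 5)) (R (nat_lit 143633))
    (p (nat_lit 0x380c2) (nat_lit 1) (p (nat_lit 0x3c4aa) (nat_lit 7) (p (nat_lit 0x111) (nat_lit 1) (p (nat_lit 0x109) (nat_lit 0) (p (nat_lit 0xc9) (nat_lit 1) (p (nat_lit 0x119) (nat_lit 1) (p (nat_lit 0xc1) (nat_lit 0) (p (nat_lit 0x81) (nat_lit 1) (p (nat_lit 0x41) (nat_lit 1) (p (nat_lit 0x10a898a08881a) (nat_lit 0) (p (nat_lit 0xa090988079a) (nat_lit 0) (p (nat_lit 0x108088907871a) (nat_lit 0) (p (nat_lit 0x7880887069a) (nat_lit 0) (p (nat_lit 0x8000000000800088806860a) (nat_lit 0) (p (nat_lit 0x8000000000800068786058a) (nat_lit 0) (p (nat_lit 0x10687058502) (nat_lit 0) (p (nat_lit 0x606850482) (nat_lit 0) (p (nat_lit 0x16000c) (nat_lit 0) (p (nat_lit 0x68612) (nat_lit 0) (p (nat_lit 0x50592) (nat_lit 0) (p (nat_lit 0x40512) (nat_lit 0) (p (nat_lit 0x50312) (nat_lit 0) (p (nat_lit 0x38292) (nat_lit 0) (p (nat_lit 0x28212) (nat_lit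 0) (p (nat_lit 0x38112) (nat_lit 0) (p (nat_lit 0x20092) (nat_lit 0) (p (nat_lit 0x10012) (nat_lit 0) pn))))))))))))))))))))))))))) :=
  Cl.node (nat_lit 0x200004) (nat_lit 2) (by decide +kernel) (ClAll.succ (ClAll.succ ClAll.zero n53) s469)

def n69 : Cl (O (nat_lit 5)) (R (nat_lit 143633))
    (p (nat_lit 0x81) (nat_lit 1) (p (nat_lit 0xc9) (nat_lit 1) (p (nat_lit 0x109) (nat_lit 1) (p (nat_lit 0x101) (nat_lit 0) (p (nat_lit 0x119) (nat_lit 0) (p (nat_lit 0xd1) (nat_lit 0) (p (nat_lit 0x89) (nat_lit 0) (p (nat_lit 0x41) (nat_lit 0) (p (nat_lit 0x10a898a08881a) (nat_lit 0) (p (nat_lit 0xa090988079a) (nat_lit 0) (p (nat_lit 0x108088907871a) (nat_lit 0) (p (nat_lit 0x7880887069a) (nat_lit 0) (p (nat_lit 0x8000000000800088806860a) (nat_lit 0) (p (nat_lit 0x8000000000800068786058a) (nat_lit 0) (p (nat_lit 0x10687058502) (nat_lit 0) (p (nat_lit 0x606850482) (nat_lit 0) (p (nat_lit 0x16000c)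 (nat_lit 0) (p (nat_lit 0x68612) (nat_lit 0) (p (nat_lit 0x50592) (nat_lit 0) (p (nat_lit 0x40512) (nat_lit 0) (p (nat_lit 0x50312) (nat_lit 0) (p (nat_lit 0x38292) (nat_lit 0) (p (nat_lit 0x28212) (nat_lit 0) (p (nat_lit 0x38112) (nat_lit 0) (p (nat_lit 0x20092) (nat_lit 0) (p (nat_lit 0x10012) (nat_lit 0) pn)))))))))))))))))))))))))) :=
  Cl.node (nat_lit 0x444aa) (nat_lit 12) (by decide +kernel) (ClAll.succ (ClAll.succ (ClAll.succ (ClAll.succ (ClAll.succ (ClAll.succ (ClAll.succ (ClAll.succ (ClAll.succ (ClAll.succ (ClAll.succ (ClAll.succ ClAll.zero s3) s4) s5) s6) s7) s8) s9) n54) s19) s20) s21) s22)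

def n70 : Cl (O (nat_lit 5)) (R (nat_lit 143633))
    (p (nat_lit 0x111) (nat_lit 0) (p (nat_lit 0xc9) (nat_lit 1) (p (nat_lit 0x81) (nat_lit 0) (p (nat_lit 0x101) (nat_lit 1) (p (nat_lit 0x119) (nat_lit 0) (p (nat_lit 0xd1) (nat_lit 0) (p (nat_lit 0x89) (nat_lit 0) (p (nat_lit 0x41) (nat_lit 0) (p (nat_lit 0x10a898a08881a) (nat_lit 0) (p (nat_lit 0xa090988079a) (nat_lit 0) (p (nat_lit 0x108088907871a) (nat_lit 0) (p (nat_lit 0x7880887069a) (nat_lit 0) (p (nat_lit 0x8000000000800088806860a) (nat_lit 0) (p (nat_lit 0x8000000000800068786058a) (nat_lit 0) (p (nat_lit 0x10687058502) (nat_lit 0) (p (nat_lit 0x606850482) (nat_lit 0) (p (nat_lit 0x16000c) (nat_lit 0) (p (nat_lit 0x68612) (nat_lit 0) (p (nat_lit 0x50592) (nat_lit 0) (p (nat_lit 0x40512) (nat_lit 0) (p (nat_lit 0x50312) (nat_lit 0) (p (nat_lit 0x38292) (nat_lit 0) (p (nat_lit 0x28212) (nat_lit 0) (p (nat_lit 0x38112) (nat_lit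 0) (p (nat_lit 0x20092) (nat_lit 0) (p (nat_lit 0x10012) (nat_lit 0) pn)))))))))))))))))))))))))) :=
  Cl.node (nat_lit 0x444aa) (nat_lit 12) (by decide +kernel) (ClAll.succ (ClAll.succ (ClAll.succ (ClAll.succ (ClAll.succ (ClAll.succ (ClAll.succ (ClAll.succ (ClAll.succ (ClAll.succ (ClAll.succ (ClAll.succ ClAll.zero s25) s26) s27) s28) s29) s30) s31) n55) s34) s35) s36) s37)

def n71 : Cl (O (nat_lit 5)) (R (nat_lit 143633))
    (p (nat_lit 0x3cc2a) (nat_lit 10) (p (nat_lit 0x109) (nat_lit 1) (p (nat_lit 0xc9) (nat_lit 1) (p (nat_lit 0xc1) (nat_lit 0) (p (nat_lit 0x119) (nat_lit 1) (p (nat_lit 0xd1) (nat_lit 0) (p (nat_lit 0x89) (nat_lit 0) (p (nat_lit 0x41) (nat_lit 0) (p (nat_lit 0x10a898a08881a) (nat_lit 0) (p (nat_lit 0xa090988079a) (nat_lit 0) (p (nat_lit 0x108088907871a) (nat_lit 0) (p (nat_lit 0x7880887069a) (nat_lit 0) (p (nat_lit 0x8000000000800088806860a) (nat_lit 0) (p (nat_lit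 0x8000000000800068786058a) (nat_lit 0) (p (nat_lit 0x10687058502) (nat_lit 0) (p (nat_lit 0x606850482) (nat_lit 0) (p (nat_lit 0x16000c) (nat_lit 0) (p (nat_lit 0x68612) (nat_lit 0) (p (nat_lit 0x50592) (nat_lit 0) (p (nat_lit 0x40512) (nat_lit 0) (p (nat_lit 0x50312) (nat_lit 0) (p (nat_lit 0x38292) (nat_lit 0) (p (nat_lit 0x28212) (nat_lit 0) (p (nat_lit 0x38112) (nat_lit 0) (p (nat_lit 0x20092) (nat_lit 0) (p (nat_lit 0x10012) (nat_lit 0) pn)))))))))))))))))))))))))) :=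
  Cl.node (nat_lit 0x380c2) (nat_lit 2) (by decide +kernel) (ClAll.succ (ClAll.succ ClAll.zero s54) s55)

def n72 : Cl (O (nat_lit 5)) (R (nat_lit 143633))
    (p (nat_lit 0x3cc2a) (nat_lit 11) (p (nat_lit 0x109) (nat_lit 1) (p (nat_lit 0xc9) (nat_lit 1) (p (nat_lit 0xc1) (nat_lit 0) (p (nat_lit 0x119) (nat_lit 1) (p (nat_lit 0xd1) (nat_lit 0) (p (nat_lit 0x89) (nat_lit 0) (p (nat_lit 0x41) (nat_lit 0) (p (nat_lit 0x10a898a08881a) (nat_lit 0) (p (nat_lit 0xa090988079a) (nat_lit 0) (p (nat_lit 0x108088907871a) (nat_lit 0) (p (nat_lit 0x7880887069a) (nat_lit 0) (p (nat_lit 0x8000000000800088806860a) (nat_lit 0) (p (nat_lit 0x8000000000800068786058a) (nat_lit 0) (p (nat_lit 0x10687058502) (nat_lit 0) (p (nat_lit 0x606850482) (nat_lit 0) (p (nat_lit 0x16000c) (nat_lit 0) (p (nat_lit 0x68612) (nat_lit 0) (p (nat_lit 0x50592) (nat_lit 0) (p (nat_lit 0x40512) (nat_lit 0) (p (nat_lit 0x50312)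 (nat_lit 0) (p (nat_lit 0x38292) (nat_lit 0) (p (nat_lit 0x28212) (nat_lit 0) (p (nat_lit 0x38112) (nat_lit 0) (p (nat_lit 0x20092) (nat_lit 0) (p (nat_lit 0x10012) (nat_lit 0) pn)))))))))))))))))))))))))) :=
  Cl.node (nat_lit 0x380c2) (nat_lit 2) (by decide +kernel) (ClAll.succ (ClAll.succ ClAll.zero s56) s57)

def n73 : Cl (O (nat_lit 5)) (R (nat_lit 143633))
    (p (nat_lit 0x109) (nat_lit 1) (p (nat_lit 0x101) (nat_lit 0) (p (nat_lit 0x81) (nat_lit 1) (p (nat_lit 0xc1) (nat_lit 1) (p (nat_lit 0x119) (nat_lit 1) (p (nat_lit 0xd1) (nat_lit 0) (p (nat_lit 0x89) (nat_lit 0) (p (nat_lit 0x41) (nat_lit 0) (p (nat_lit 0x10a898a08881a) (nat_lit 0) (p (nat_lit 0xa090988079a) (nat_lit 0) (p (nat_lit 0x108088907871a) (nat_lit 0) (p (nat_lit 0x7880887069a) (nat_lit 0) (p (nat_lit 0x8000000000800088806860a) (nat_lit 0) (p (nat_lit 0x8000000000800068786058a) (nat_lit 0) (p (nat_lit 0x10687058502)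 (nat_lit 0) (p (nat_lit 0x606850482) (nat_lit 0) (p (nat_lit 0x16000c) (nat_lit 0) (p (nat_lit 0x68612) (nat_lit 0) (p (nat_lit 0x50592) (nat_lit 0) (p (nat_lit 0x40512) (nat_lit 0) (p (nat_lit 0x50312) (nat_lit 0) (p (nat_lit 0x38292) (nat_lit 0) (p (nat_lit 0x28212) (nat_lit 0) (p (nat_lit 0x38112) (nat_lit 0) (p (nat_lit 0x20092) (nat_lit 0) (p (nat_lit 0x10012) (nat_lit 0) pn)))))))))))))))))))))))))) :=
  Cl.node (nat_lit 0x444aa) (nat_lit 12) (by decide +kernel) (ClAll.succ (ClAll.succ (ClAll.succ (ClAll.succ (ClAll.succ (ClAll.succ (ClAll.succ (ClAll.succ (ClAll.succ (ClAll.succ (ClAll.succ (ClAll.succ ClAll.zero s72) s73) s74) s75) s76) s77) s78) s79) s80) s81) s82) s83)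

def n74 : Cl (O (nat_lit 5)) (R (nat_lit 143633))
    (p (nat_lit 0xd1) (nat_lit 1) (p (nat_lit 0x111) (nat_lit 1) (p (nat_lit 0x109) (nat_lit 0) (p (nat_lit 0x101) (nat_lit 0) (p (nat_lit 0x119) (nat_lit 0) (p (nat_lit 0xc9) (nat_lit 0) (p (nat_lit 0x89) (nat_lit 1) (p (nat_lit 0x41) (nat_lit 0) (p (nat_lit 0x10a898a08881a) (nat_lit 0) (p (nat_lit 0xa090988079a) (nat_lit 0) (p (nat_lit 0x108088907871a) (nat_lit 0) (p (nat_lit 0x7880887069a) (nat_lit 0) (p (nat_lit 0x8000000000800088806860a) (nat_lit 0) (p (nat_lit 0x8000000000800068786058a) (nat_lit 0) (p (nat_lit 0x10687058502) (nat_lit 0) (p (nat_lit 0x606850482) (nat_lit 0) (p (nat_lit 0x16000c) (nat_lit 0) (p (nat_lit 0x68612) (nat_lit 0) (p (nat_lit 0x50592) (nat_lit 0) (p (nat_lit 0x40512) (nat_lit 0) (p (nat_lit 0x50312) (nat_lit 0) (p (nat_lit 0x38292) (nat_lit 0) (p (nat_lit 0x28212) (nat_lit 0) (p (nat_lit 0x38112) (nat_lit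 0) (p (nat_lit 0x20092) (nat_lit 0) (p (nat_lit 0x10012) (nat_lit 0) pn)))))))))))))))))))))))))) :=
  Cl.node (nat_lit 0x444aa) (nat_lit 12) (by decide +kernel) (ClAll.succ (ClAll.succ (ClAll.succ (ClAll.succ (ClAll.succ (ClAll.succ (ClAll.succ (ClAll.succ (ClAll.succ (ClAll.succ (ClAll.succ (ClAll.succ ClAll.zero s99) s100) s101) s102) s103) s104) s105) n56) s108) s109) s110) s111)

def n75 : Cl (O (nat_lit 5)) (R (nat_lit 143633))
    (p (nat_lit 0x444aa) (nat_lit 7) (p (nat_lit 0xd1) (nat_lit 1) (p (nat_lit 0x109) (nat_lit 1) (p (nat_lit 0x101) (nat_lit 0) (p (nat_lit 0x119) (nat_lit 0) (p (nat_lit 0xc9) (nat_lit 0) (p (nat_lit 0x89) (nat_lit 1) (p (nat_lit 0x41) (nat_lit 0) (p (nat_lit 0x10a898a08881a) (nat_lit 0) (p (nat_lit 0xa090988079a) (nat_lit 0) (p (nat_lit 0x108088907871a) (nat_lit 0) (p (nat_lit 0x7880887069a) (nat_lit 0) (p (nat_lit 0x8000000000800088806860a) (nat_lit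 0) (p (nat_lit 0x8000000000800068786058a) (nat_lit 0) (p (nat_lit 0x10687058502) (nat_lit 0) (p (nat_lit 0x606850482) (nat_lit 0) (p (nat_lit 0x16000c) (nat_lit 0) (p (nat_lit 0x68612) (nat_lit 0) (p (nat_lit 0x50592) (nat_lit 0) (p (nat_lit 0x40512) (nat_lit 0) (p (nat_lit 0x50312) (nat_lit 0) (p (nat_lit 0x38292) (nat_lit 0) (p (nat_lit 0x28212) (nat_lit 0) (p (nat_lit 0x38112) (nat_lit 0) (p (nat_lit 0x20092) (nat_lit 0) (p (nat_lit 0x10012) (nat_lit 0) pn)))))))))))))))))))))))))) :=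
  Cl.node (nat_lit 0x380c2) (nat_lit 2) (by decide +kernel) (ClAll.succ (ClAll.succ ClAll.zero n57) n58)

def n76 : Cl (O (nat_lit 5)) (R (nat_lit 143633))
    (p (nat_lit 0x444aa) (nat_lit 7) (p (nat_lit 0xd1) (nat_lit 1) (p (nat_lit 0xc1) (nat_lit 0) (p (nat_lit 0x101) (nat_lit 1) (p (nat_lit 0x119) (nat_lit 0) (p (nat_lit 0xc9) (nat_lit 0) (p (nat_lit 0x89) (nat_lit 1) (p (nat_lit 0x41) (nat_lit 0) (p (nat_lit 0x10a898a08881a) (nat_lit 0) (p (nat_lit 0xa090988079a) (nat_lit 0) (p (nat_lit 0x108088907871a) (nat_lit 0) (p (nat_lit 0x7880887069a) (nat_lit 0) (p (nat_lit 0x8000000000800088806860a) (nat_lit 0) (p (nat_lit 0x8000000000800068786058a) (nat_lit 0) (p (nat_lit 0x10687058502) (nat_lit 0) (p (nat_lit 0x606850482) (nat_lit 0) (p (nat_lit 0x16000c) (nat_lit 0) (p (nat_lit 0x68612) (nat_lit 0) (p (nat_lit 0x50592) (nat_lit 0) (p (nat_lit 0x40512) (nat_lit 0) (p (nat_lit 0x50312)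 (nat_lit 0) (p (nat_lit 0x38292) (nat_lit 0) (p (nat_lit 0x28212) (nat_lit 0) (p (nat_lit 0x38112) (nat_lit 0) (p (nat_lit 0x20092) (nat_lit 0) (p (nat_lit 0x10012) (nat_lit 0) pn)))))))))))))))))))))))))) :=
  Cl.node (nat_lit 0x380c2) (nat_lit 2) (by decide +kernel) (ClAll.succ (ClAll.succ ClAll.zero s148) s149)

def n77 : Cl (O (nat_lit 5)) (R (nat_lit 143633))
    (p (nat_lit 0x444aa) (nat_lit 7) (p (nat_lit 0x111) (nat_lit 1) (p (nat_lit 0xd1) (nat_lit 1) (p (nat_lit 0xc1) (nat_lit 0) (p (nat_lit 0x119) (nat_lit 1) (p (nat_lit 0xc9) (nat_lit 0) (p (nat_lit 0x89) (nat_lit 1) (p (nat_lit 0x41) (nat_lit 0) (p (nat_lit 0x10a898a08881a) (nat_lit 0) (p (nat_lit 0xa090988079a) (nat_lit 0) (p (nat_lit 0x108088907871a) (nat_lit 0) (p (nat_lit 0x7880887069a) (nat_lit 0) (p (nat_lit 0x8000000000800088806860a) (nat_lit 0) (p (nat_lit 0x8000000000800068786058a) (nat_lit 0) (p (nat_lit 0x10687058502)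 (nat_lit 0) (p (nat_lit 0x606850482) (nat_lit 0) (p (nat_lit 0x16000c) (nat_lit 0) (p (nat_lit 0x68612) (nat_lit 0) (p (nat_lit 0x50592) (nat_lit 0) (p (nat_lit 0x40512) (nat_lit 0) (p (nat_lit 0x50312) (nat_lit 0) (p (nat_lit 0x38292) (nat_lit 0) (p (nat_lit 0x28212) (nat_lit 0) (p (nat_lit 0x38112) (nat_lit 0) (p (nat_lit 0x20092) (nat_lit 0) (p (nat_lit 0x10012) (nat_lit 0) pn)))))))))))))))))))))))))) :=
  Cl.node (nat_lit 0x380c2) (nat_lit 2) (by decide +kernel) (ClAll.succ (ClAll.succ ClAll.zero s164) s165)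

def n78 : Cl (O (nat_lit 5)) (R (nat_lit 143633))
    (p (nat_lit 0x444aa) (nat_lit 7) (p (nat_lit 0x119) (nat_lit 1) (p (nat_lit 0x111) (nat_lit 0) (p (nat_lit 0x101) (nat_lit 0) (p (nat_lit 0x109) (nat_lit 0) (p (nat_lit 0xc9) (nat_lit 1) (p (nat_lit 0x89) (nat_lit 1) (p (nat_lit 0x41) (nat_lit 0) (p (nat_lit 0x10a898a08881a) (nat_lit 0) (p (nat_lit 0xa090988079a) (nat_lit 0) (p (nat_lit 0x108088907871a) (nat_lit 0) (p (nat_lit 0x7880887069a) (nat_lit 0) (p (nat_lit 0x8000000000800088806860a) (nat_lit 0) (p (nat_lit 0x8000000000800068786058a) (nat_lit 0) (p (nat_lit 0x10687058502) (nat_lit 0) (p (nat_lit 0x606850482) (nat_lit 0) (p (nat_lit 0x16000c) (nat_lit 0) (p (nat_lit 0x68612) (nat_lit 0) (p (nat_lit 0x50592) (nat_lit 0) (p (nat_lit 0x40512) (nat_lit 0) (p (nat_lit 0x50312) (nat_lit 0) (p (nat_lit 0x38292) (nat_lit 0) (p (nat_lit 0x28212) (nat_lit 0) (p (nat_lit 0x38112) (nat_lit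 0) (p (nat_lit 0x20092) (nat_lit 0) (p (nat_lit 0x10012) (nat_lit 0) pn)))))))))))))))))))))))))) :=
  Cl.node (nat_lit 0x380c2) (nat_lit 2) (by decide +kernel) (ClAll.succ (ClAll.succ ClAll.zero s203) s204)

def n79 : Cl (O (nat_lit 5)) (R (nat_lit 143633))
    (p (nat_lit 0xc9) (nat_lit 0) (p (nat_lit 0x89) (nat_lit 1) (p (nat_lit 0xc1) (nat_lit 0) (p (nat_lit 0x101) (nat_lit 1) (p (nat_lit 0x119) (nat_lit 0) (p (nat_lit 0xd1) (nat_lit 0) (p (nat_lit 0x81) (nat_lit 0) (p (nat_lit 0x41) (nat_lit 1) (p (nat_lit 0x10a898a08881a) (nat_lit 0) (p (nat_lit 0xa090988079a) (nat_lit 0) (p (nat_lit 0x108088907871a) (nat_lit 0) (p (nat_lit 0x7880887069a) (nat_lit 0) (p (nat_lit 0x8000000000800088806860a) (nat_lit 0) (p (nat_lit 0x8000000000800068786058a) (nat_lit 0) (p (nat_lit 0x10687058502) (nat_lit 0) (p (nat_lit 0x606850482) (nat_lit 0) (p (nat_lit 0x16000c) (nat_lit 0) (p (nat_lit 0x68612)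 (nat_lit 0) (p (nat_lit 0x50592) (nat_lit 0) (p (nat_lit 0x40512) (nat_lit 0) (p (nat_lit 0x50312) (nat_lit 0) (p (nat_lit 0x38292) (nat_lit 0) (p (nat_lit 0x28212) (nat_lit 0) (p (nat_lit 0x38112) (nat_lit 0) (p (nat_lit 0x20092) (nat_lit 0) (p (nat_lit 0x10012) (nat_lit 0) pn)))))))))))))))))))))))))) :=
  Cl.node (nat_lit 0x4c42a) (nat_lit 12) (by decide +kernel) (ClAll.succ (ClAll.succ (ClAll.succ (ClAll.succ (ClAll.succ (ClAll.succ (ClAll.succ (ClAll.succ (ClAll.succ (ClAll.succ (ClAll.succ (ClAll.succ ClAll.zero s218) s219) s220) s221) s222) s223) s224) s225) s226) s227) s228) s229)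

def n80 : Cl (O (nat_lit 5)) (R (nat_lit 143633))
    (p (nat_lit 0x3c4aa) (nat_lit 7) (p (nat_lit 0x89) (nat_lit 1) (p (nat_lit 0xc1) (nat_lit 1) (p (nat_lit 0x101) (nat_lit 1) (p (nat_lit 0x119) (nat_lit 0) (p (nat_lit 0xd1) (nat_lit 0) (p (nat_lit 0x81) (nat_lit 0) (p (nat_lit 0x41) (nat_lit 1) (p (nat_lit 0x10a898a08881a) (nat_lit 0) (p (nat_lit 0xa090988079a) (nat_lit 0) (p (nat_lit 0x108088907871a) (nat_lit 0) (p (nat_lit 0x7880887069a) (nat_lit 0) (p (nat_lit 0x8000000000800088806860a) (nat_lit 0) (p (nat_lit 0x8000000000800068786058a) (nat_lit 0) (p (nat_lit 0x10687058502) (nat_lit 0) (p (nat_lit 0x606850482) (nat_lit 0) (p (nat_lit 0x16000c) (nat_lit 0) (p (nat_lit 0x68612) (nat_lit 0) (p (nat_lit 0x50592) (nat_lit 0) (p (nat_lit 0x40512) (nat_lit 0) (p (nat_lit 0x50312) (nat_lit 0) (p (nat_lit 0x38292) (nat_lit 0) (p (nat_lit 0x28212) (nat_lit 0) (p (nat_lit 0x38112) (nat_lit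 0) (p (nat_lit 0x20092) (nat_lit 0) (p (nat_lit 0x10012) (nat_lit 0) pn)))))))))))))))))))))))))) :=
  Cl.node (nat_lit 0x380c2) (nat_lit 2) (by decide +kernel) (ClAll.succ (ClAll.succ ClAll.zero s239) s240)

def n81 : Cl (O (nat_lit 5)) (R (nat_lit 143633))
    (p (nat_lit 0x109) (nat_lit 0) (p (nat_lit 0x89) (nat_lit 1) (p (nat_lit 0xc9) (nat_lit 1) (p (nat_lit 0xc1) (nat_lit 0) (p (nat_lit 0x119) (nat_lit 1) (p (nat_lit 0xd1) (nat_lit 0) (p (nat_lit 0x81) (nat_lit 0) (p (nat_lit 0x41) (nat_lit 1) (p (nat_lit 0x10a898a08881a) (nat_lit 0) (p (nat_lit 0xa090988079a) (nat_lit 0) (p (nat_lit 0x108088907871a) (nat_lit 0) (p (nat_lit 0x7880887069a) (nat_lit 0) (p (nat_lit 0x8000000000800088806860a) (nat_lit 0) (p (nat_lit 0x8000000000800068786058a) (nat_lit 0) (p (nat_lit 0x10687058502) (nat_lit 0) (p (nat_lit 0x606850482) (nat_lit 0) (p (nat_lit 0x16000c) (nat_lit 0) (p (nat_lit 0x68612)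 (nat_lit 0) (p (nat_lit 0x50592) (nat_lit 0) (p (nat_lit 0x40512) (nat_lit 0) (p (nat_lit 0x50312) (nat_lit 0) (p (nat_lit 0x38292) (nat_lit 0) (p (nat_lit 0x28212) (nat_lit 0) (p (nat_lit 0x38112) (nat_lit 0) (p (nat_lit 0x20092) (nat_lit 0) (p (nat_lit 0x10012) (nat_lit 0) pn)))))))))))))))))))))))))) :=
  Cl.node (nat_lit 0x44c2a) (nat_lit 12) (by decide +kernel) (ClAll.succ (ClAll.succ (ClAll.succ (ClAll.succ (ClAll.succ (ClAll.succ (ClAll.succ (ClAll.succ (ClAll.succ (ClAll.succ (ClAll.succ (ClAll.succ ClAll.zero s247) s248) s249) s250) s251) s252) s253) s254) s255) s256) s257) s258)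

def n82 : Cl (O (nat_lit 5)) (R (nat_lit 143633))
    (p (nat_lit 0x109) (nat_lit 1) (p (nat_lit 0x89) (nat_lit 1) (p (nat_lit 0xc9) (nat_lit 1) (p (nat_lit 0xc1) (nat_lit 0) (p (nat_lit 0x119) (nat_lit 1) (p (nat_lit 0xd1) (nat_lit 0) (p (nat_lit 0x81) (nat_lit 0) (p (nat_lit 0x41) (nat_lit 1) (p (nat_lit 0x10a898a08881a) (nat_lit 0) (p (nat_lit 0xa090988079a) (nat_lit 0) (p (nat_lit 0x108088907871a) (nat_lit 0) (p (nat_lit 0x7880887069a) (nat_lit 0) (p (nat_lit 0x8000000000800088806860a) (nat_lit 0) (p (nat_lit 0x8000000000800068786058a) (nat_lit 0) (p (nat_lit 0x10687058502) (nat_lit 0) (p (nat_lit 0x606850482) (nat_lit 0) (p (nat_lit 0x16000c) (nat_lit 0) (p (nat_lit 0x68612) (nat_lit 0) (p (nat_lit 0x50592) (nat_lit 0) (p (nat_lit 0x40512) (nat_lit 0) (p (nat_lit 0x50312) (nat_lit 0) (p (nat_lit 0x38292) (nat_lit 0) (p (nat_lit 0x28212) (nat_lit 0) (p (nat_lit 0x38112) (nat_lit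 0) (p (nat_lit 0x20092) (nat_lit 0) (p (nat_lit 0x10012) (nat_lit 0) pn)))))))))))))))))))))))))) :=
  Cl.node (nat_lit 0x3c4aa) (nat_lit 12) (by decide +kernel) (ClAll.succ (ClAll.succ (ClAll.succ (ClAll.succ (ClAll.succ (ClAll.succ (ClAll.succ (ClAll.succ (ClAll.succ (ClAll.succ (ClAll.succ (ClAll.succ ClAll.zero s259) s260) s261) s262) s263) s264) s265) n59) s268) s269) n60) s277)

def n83 : Cl (O (nat_lit 5)) (R (nat_lit 143633))
    (p (nat_lit 0x109) (nat_lit 0) (p (nat_lit 0x89) (nat_lit 1) (p (nat_lit 0x101) (nat_lit 0) (p (nat_lit 0xc1) (nat_lit 1) (p (nat_lit 0x119) (nat_lit 1) (p (nat_lit 0xd1) (nat_lit 0) (p (nat_lit 0x81) (nat_lit 0) (p (nat_lit 0x41) (nat_lit 1) (p (nat_lit 0x10a898a08881a) (nat_lit 0) (p (nat_lit 0xa090988079a) (nat_lit 0) (p (nat_lit 0x108088907871a) (nat_lit 0) (p (nat_lit 0x7880887069a) (nat_lit 0) (p (nat_lit 0x8000000000800088806860a) (nat_lit 0)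 (p (nat_lit 0x8000000000800068786058a) (nat_lit 0) (p (nat_lit 0x10687058502) (nat_lit 0) (p (nat_lit 0x606850482) (nat_lit 0) (p (nat_lit 0x16000c) (nat_lit 0) (p (nat_lit 0x68612) (nat_lit 0) (p (nat_lit 0x50592) (nat_lit 0) (p (nat_lit 0x40512) (nat_lit 0) (p (nat_lit 0x50312) (nat_lit 0) (p (nat_lit 0x38292) (nat_lit 0) (p (nat_lit 0x28212) (nat_lit 0) (p (nat_lit 0x38112) (nat_lit 0) (p (nat_lit 0x20092) (nat_lit 0) (p (nat_lit 0x10012) (nat_lit 0) pn)))))))))))))))))))))))))) :=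
  Cl.node (nat_lit 0x44c2a) (nat_lit 12) (by decide +kernel) (ClAll.succ (ClAll.succ (ClAll.succ (ClAll.succ (ClAll.succ (ClAll.succ (ClAll.succ (ClAll.succ (ClAll.succ (ClAll.succ (ClAll.succ (ClAll.succ ClAll.zero s279) s280) s281) s282) s283) s284) s285) s286) s287) s288) s289) s290)

def n84 : Cl (O (nat_lit 5)) (R (nat_lit 143633))
    (p (nat_lit 0x109) (nat_lit 1) (p (nat_lit 0x89) (nat_lit 1) (p (nat_lit 0x101) (nat_lit 0) (p (nat_lit 0xc1) (nat_lit 1) (p (nat_lit 0x119) (nat_lit 1) (p (nat_lit 0xd1) (nat_lit 0) (p (nat_lit 0x81) (nat_lit 0) (p (nat_lit 0x41) (nat_lit 1) (p (nat_lit 0x10a898a08881a) (nat_lit 0) (p (nat_lit 0xa090988079a) (nat_lit 0) (p (nat_lit 0x108088907871a) (nat_lit 0) (p (nat_lit 0x7880887069a) (nat_lit 0) (p (nat_lit 0x8000000000800088806860a) (nat_lit 0) (p (nat_lit 0x8000000000800068786058a) (nat_lit 0) (p (nat_lit 0x10687058502) (nat_lit 0) (p (nat_lit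 0x606850482) (nat_lit 0) (p (nat_lit 0x16000c) (nat_lit 0) (p (nat_lit 0x68612) (nat_lit 0) (p (nat_lit 0x50592) (nat_lit 0) (p (nat_lit 0x40512) (nat_lit 0) (p (nat_lit 0x50312) (nat_lit 0) (p (nat_lit 0x38292) (nat_lit 0) (p (nat_lit 0x28212) (nat_lit 0) (p (nat_lit 0x38112) (nat_lit 0) (p (nat_lit 0x20092) (nat_lit 0) (p (nat_lit 0x10012) (nat_lit 0) pn)))))))))))))))))))))))))) :=
  Cl.node (nat_lit 0x3c4aa) (nat_lit 12) (by decide +kernel) (ClAll.succ (ClAll.succ (ClAll.succ (ClAll.succ (ClAll.succ (ClAll.succ (ClAll.succ (ClAll.succ (ClAll.succ (ClAll.succ (ClAll.succ (ClAll.succ ClAll.zero s291) s292) s293) s294) s295) s296) s297) n61) s300) s301) s302) s303)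

def n85 : Cl (O (nat_lit 5)) (R (nat_lit 143633))
    (p (nat_lit 0x3c4aa) (nat_lit 7) (p (nat_lit 0x89) (nat_lit 1) (p (nat_lit 0x101) (nat_lit 1) (p (nat_lit 0xc1) (nat_lit 1) (p (nat_lit 0x119) (nat_lit 1) (p (nat_lit 0xd1) (nat_lit 0) (p (nat_lit 0x81) (nat_lit 0) (p (nat_lit 0x41) (nat_lit 1) (p (nat_lit 0x10a898a08881a) (nat_lit 0) (p (nat_lit 0xa090988079a) (nat_lit 0) (p (nat_lit 0x108088907871a) (nat_lit 0) (p (nat_lit 0x7880887069a) (nat_lit 0) (p (nat_lit 0x8000000000800088806860a) (nat_lit 0) (p (nat_lit 0x8000000000800068786058a) (nat_lit 0) (p (nat_lit 0x10687058502) (nat_lit 0) (p (nat_lit 0x606850482) (nat_lit 0) (p (nat_lit 0x16000c) (nat_lit 0) (p (nat_lit 0x68612) (nat_lit 0) (p (nat_lit 0x50592) (nat_lit 0) (p (nat_lit 0x40512) (nat_lit 0) (p (nat_lit 0x50312) (nat_lit 0) (p (nat_lit 0x38292) (nat_lit 0) (p (nat_lit 0x28212) (nat_lit 0) (p (nat_lit 0x38112) (nat_lit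 0) (p (nat_lit 0x20092) (nat_lit 0) (p (nat_lit 0x10012) (nat_lit 0) pn)))))))))))))))))))))))))) :=
  Cl.node (nat_lit 0x380c2) (nat_lit 2) (by decide +kernel) (ClAll.succ (ClAll.succ ClAll.zero s312) s313)

def n86 : Cl (O (nat_lit 5)) (R (nat_lit 143633))
    (p (nat_lit 0xc9) (nat_lit 0) (p (nat_lit 0x89) (nat_lit 1) (p (nat_lit 0x109) (nat_lit 1) (p (nat_lit 0x101) (nat_lit 0) (p (nat_lit 0x111) (nat_lit 0) (p (nat_lit 0xd1) (nat_lit 1) (p (nat_lit 0x81) (nat_lit 0) (p (nat_lit 0x41) (nat_lit 1) (p (nat_lit 0x10a898a08881a) (nat_lit 0) (p (nat_lit 0xa090988079a) (nat_lit 0) (p (nat_lit 0x108088907871a) (nat_lit 0) (p (nat_lit 0x7880887069a) (nat_lit 0) (p (nat_lit 0x8000000000800088806860a) (nat_lit 0) (p (nat_lit 0x8000000000800068786058a) (nat_lit 0) (p (nat_lit 0x10687058502) (nat_lit 0) (p (nat_lit 0x606850482) (nat_lit 0) (p (nat_lit 0x16000c) (nat_lit 0) (p (nat_lit 0x68612)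 (nat_lit 0) (p (nat_lit 0x50592) (nat_lit 0) (p (nat_lit 0x40512) (nat_lit 0) (p (nat_lit 0x50312) (nat_lit 0) (p (nat_lit 0x38292) (nat_lit 0) (p (nat_lit 0x28212) (nat_lit 0) (p (nat_lit 0x38112) (nat_lit 0) (p (nat_lit 0x20092) (nat_lit 0) (p (nat_lit 0x10012) (nat_lit 0) pn)))))))))))))))))))))))))) :=
  Cl.node (nat_lit 0x119) (nat_lit 2) (by decide +kernel) (ClAll.succ (ClAll.succ ClAll.zero s320) s321)

def n87 : Cl (O (nat_lit 5)) (R (nat_lit 143633))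
    (p (nat_lit 0xd1) (nat_lit 1) (p (nat_lit 0x111) (nat_lit 1) (p (nat_lit 0x109) (nat_lit 0) (p (nat_lit 0x101) (nat_lit 0) (p (nat_lit 0x119) (nat_lit 0) (p (nat_lit 0xc1) (nat_lit 0) (p (nat_lit 0x81) (nat_lit 1) (p (nat_lit 0x41) (nat_lit 1) (p (nat_lit 0x10a898a08881a) (nat_lit 0) (p (nat_lit 0xa090988079a) (nat_lit 0) (p (nat_lit 0x108088907871a) (nat_lit 0) (p (nat_lit 0x7880887069a) (nat_lit 0) (p (nat_lit 0x8000000000800088806860a) (nat_lit 0) (p (nat_lit 0x8000000000800068786058a) (nat_lit 0) (p (nat_lit 0x10687058502) (nat_lit 0) (p (nat_lit 0x606850482) (nat_lit 0) (p (nat_lit 0x16000c) (nat_lit 0) (p (nat_lit 0x68612) (nat_lit 0) (p (nat_lit 0x50592) (nat_lit 0) (p (nat_lit 0x40512) (nat_lit 0) (p (nat_lit 0x50312) (nat_lit 0) (p (nat_lit 0x38292) (nat_lit 0) (p (nat_lit 0x28212) (nat_lit 0) (p (nat_lit 0x38112) (nat_lit 0) (p (nat_lit 0x20092) (nat_lit 0) (p (nat_lit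 0x10012) (nat_lit 0) pn)))))))))))))))))))))))))) :=
  Cl.node (nat_lit 0x3c4aa) (nat_lit 12) (by decide +kernel) (ClAll.succ (ClAll.succ (ClAll.succ (ClAll.succ (ClAll.succ (ClAll.succ (ClAll.succ (ClAll.succ (ClAll.succ (ClAll.succ (ClAll.succ (ClAll.succ ClAll.zero s354) s355) s356) s357) s358) s359) s360) n62) s378) s379) s380) s381)

def n88 : Cl (O (nat_lit 5)) (R (nat_lit 143633))
    (p (nat_lit 0xd1) (nat_lit 1) (p (nat_lit 0xc9) (nat_lit 0) (p (nat_lit 0x109) (nat_lit 1) (p (nat_lit 0x101) (nat_lit 0) (p (nat_lit 0x119) (nat_lit 0) (p (nat_lit 0xc1) (nat_lit 0) (p (nat_lit 0x81) (nat_lit 1) (p (nat_lit 0x41) (nat_lit 1) (p (nat_lit 0x10a898a08881a) (nat_lit 0) (p (nat_lit 0xa090988079a) (nat_lit 0) (p (nat_lit 0x108088907871a) (nat_lit 0) (p (nat_lit 0x7880887069a) (nat_lit 0) (p (nat_lit 0x8000000000800088806860a) (nat_lit 0) (p (nat_lit 0x8000000000800068786058a) (nat_lit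 0) (p (nat_lit 0x10687058502) (nat_lit 0) (p (nat_lit 0x606850482) (nat_lit 0) (p (nat_lit 0x16000c) (nat_lit 0) (p (nat_lit 0x68612) (nat_lit 0) (p (nat_lit 0x50592) (nat_lit 0) (p (nat_lit 0x40512) (nat_lit 0) (p (nat_lit 0x50312) (nat_lit 0) (p (nat_lit 0x38292) (nat_lit 0) (p (nat_lit 0x28212) (nat_lit 0) (p (nat_lit 0x38112) (nat_lit 0) (p (nat_lit 0x20092) (nat_lit 0) (p (nat_lit 0x10012) (nat_lit 0) pn)))))))))))))))))))))))))) :=
  Cl.node (nat_lit 0x3c4aa) (nat_lit 12) (by decide +kernel) (ClAll.succ (ClAll.succ (ClAll.succ (ClAll.succ (ClAll.succ (ClAll.succ (ClAll.succ (ClAll.succ (ClAll.succ (ClAll.succ (ClAll.succ (ClAll.succ ClAll.zero s383) s384) s385) s386) s387) s388) s389) n63) s393) s394) s395) s396)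

def n89 : Cl (O (nat_lit 5)) (R (nat_lit 143633))
    (p (nat_lit 0x3c4aa) (nat_lit 7) (p (nat_lit 0xd1) (nat_lit 1) (p (nat_lit 0xc9) (nat_lit 0) (p (nat_lit 0x101) (nat_lit 1) (p (nat_lit 0x119) (nat_lit 0) (p (nat_lit 0xc1) (nat_lit 0) (p (nat_lit 0x81) (nat_lit 1) (p (nat_lit 0x41) (nat_lit 1) (p (nat_lit 0x10a898a08881a) (nat_lit 0) (p (nat_lit 0xa090988079a) (nat_lit 0) (p (nat_lit 0x108088907871a) (nat_lit 0) (p (nat_lit 0x7880887069a) (nat_lit 0) (p (nat_lit 0x8000000000800088806860a) (nat_lit 0) (p (nat_lit 0x8000000000800068786058a) (nat_lit 0) (p (nat_lit 0x10687058502) (nat_lit 0) (p (nat_lit 0x606850482) (nat_lit 0) (p (nat_lit 0x16000c) (nat_lit 0) (p (nat_lit 0x68612) (nat_lit 0) (p (nat_lit 0x50592) (nat_lit 0) (p (nat_lit 0x40512) (nat_lit 0) (p (nat_lit 0x50312) (nat_lit 0) (p (nat_lit 0x38292) (nat_lit 0) (p (nat_lit 0x28212) (nat_lit 0) (p (nat_lit 0x38112) (nat_lit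 0) (p (nat_lit 0x20092) (nat_lit 0) (p (nat_lit 0x10012) (nat_lit 0) pn)))))))))))))))))))))))))) :=
  Cl.node (nat_lit 0x380c2) (nat_lit 2) (by decide +kernel) (ClAll.succ (ClAll.succ ClAll.zero n64) n65)

def n90 : Cl (O (nat_lit 5)) (R (nat_lit 143633))
    (p (nat_lit 0x3c4aa) (nat_lit 7) (p (nat_lit 0x111) (nat_lit 1) (p (nat_lit 0xd1) (nat_lit 1) (p (nat_lit 0xc9) (nat_lit 0) (p (nat_lit 0x119) (nat_lit 1) (p (nat_lit 0xc1) (nat_lit 0) (p (nat_lit 0x81) (nat_lit 1) (p (nat_lit 0x41) (nat_lit 1) (p (nat_lit 0x10a898a08881a) (nat_lit 0) (p (nat_lit 0xa090988079a) (nat_lit 0) (p (nat_lit 0x108088907871a) (nat_lit 0) (p (nat_lit 0x7880887069a) (nat_lit 0) (p (nat_lit 0x8000000000800088806860a) (nat_lit 0) (p (nat_lit 0x8000000000800068786058a) (nat_lit 0) (p (nat_lit 0x10687058502) (nat_lit 0) (p (nat_lit 0x606850482) (nat_lit 0) (p (nat_lit 0x16000c) (nat_lit 0) (p (nat_lit 0x68612)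 (nat_lit 0) (p (nat_lit 0x50592) (nat_lit 0) (p (nat_lit 0x40512) (nat_lit 0) (p (nat_lit 0x50312) (nat_lit 0) (p (nat_lit 0x38292) (nat_lit 0) (p (nat_lit 0x28212) (nat_lit 0) (p (nat_lit 0x38112) (nat_lit 0) (p (nat_lit 0x20092) (nat_lit 0) (p (nat_lit 0x10012) (nat_lit 0) pn)))))))))))))))))))))))))) :=
  Cl.node (nat_lit 0x380c2) (nat_lit 2) (by decide +kernel) (ClAll.succ (ClAll.succ ClAll.zero s443) n66)

def n91 : Cl (O (nat_lit 5)) (R (nat_lit 143633))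
    (p (nat_lit 0x3c4aa) (nat_lit 7) (p (nat_lit 0x111) (nat_lit 1) (p (nat_lit 0x109) (nat_lit 0) (p (nat_lit 0xc9) (nat_lit 1) (p (nat_lit 0x119) (nat_lit 1) (p (nat_lit 0xc1) (nat_lit 0) (p (nat_lit 0x81) (nat_lit 1) (p (nat_lit 0x41) (nat_lit 1) (p (nat_lit 0x10a898a08881a) (nat_lit 0) (p (nat_lit 0xa090988079a) (nat_lit 0) (p (nat_lit 0x108088907871a) (nat_lit 0) (p (nat_lit 0x7880887069a) (nat_lit 0) (p (nat_lit 0x8000000000800088806860a) (nat_lit 0) (p (nat_lit 0x8000000000800068786058a) (nat_lit 0) (p (nat_lit 0x10687058502) (nat_lit 0) (p (nat_lit 0x606850482) (nat_lit 0) (p (nat_lit 0x16000c) (nat_lit 0) (p (nat_lit 0x68612) (nat_lit 0) (p (nat_lit 0x50592) (nat_lit 0) (p (nat_lit 0x40512) (nat_lit 0) (p (nat_lit 0x50312) (nat_lit 0) (p (nat_lit 0x38292) (nat_lit 0) (p (nat_lit 0x28212) (nat_lit 0) (p (nat_lit 0x38112) (nat_lit 0) (p (nat_lit 0x20092) (nat_lit 0) (p (nat_lit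 0x10012) (nat_lit 0) pn)))))))))))))))))))))))))) :=
  Cl.node (nat_lit 0x380c2) (nat_lit 2) (by decide +kernel) (ClAll.succ (ClAll.succ ClAll.zero n67) n68)

def n92 : Cl (O (nat_lit 5)) (R (nat_lit 143633))
    (p (nat_lit 0xc9) (nat_lit 1) (p (nat_lit 0x109) (nat_lit 1) (p (nat_lit 0x101) (nat_lit 0) (p (nat_lit 0x119) (nat_lit 0) (p (nat_lit 0xd1) (nat_lit 0) (p (nat_lit 0x89) (nat_lit 0) (p (nat_lit 0x41) (nat_lit 0) (p (nat_lit 0x10a898a08881a) (nat_lit 0) (p (nat_lit 0xa090988079a) (nat_lit 0) (p (nat_lit 0x108088907871a) (nat_lit 0) (p (nat_lit 0x7880887069a) (nat_lit 0) (p (nat_lit 0x8000000000800088806860a) (nat_lit 0) (p (nat_lit 0x8000000000800068786058a) (nat_lit 0) (p (nat_lit 0x10687058502) (nat_lit 0) (p (nat_lit 0x606850482) (nat_lit 0) (p (nat_lit 0x16000c) (nat_lit 0) (p (nat_lit 0x68612) (nat_lit 0) (p (nat_lit 0x50592) (nat_lit 0) (p (nat_lit 0x40512) (nat_lit 0)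 (p (nat_lit 0x50312) (nat_lit 0) (p (nat_lit 0x38292) (nat_lit 0) (p (nat_lit 0x28212) (nat_lit 0) (p (nat_lit 0x38112) (nat_lit 0) (p (nat_lit 0x20092) (nat_lit 0) (p (nat_lit 0x10012) (nat_lit 0) pn))))))))))))))))))))))))) :=
  Cl.node (nat_lit 0x81) (nat_lit 2) (by decide +kernel) (ClAll.succ (ClAll.succ ClAll.zero s2) n69)

def n93 : Cl (O (nat_lit 5)) (R (nat_lit 143633))
    (p (nat_lit 0xc9) (nat_lit 0) (p (nat_lit 0x81) (nat_lit 0) (p (nat_lit 0x101) (nat_lit 1) (p (nat_lit 0x119) (nat_lit 0) (p (nat_lit 0xd1) (nat_lit 0) (p (nat_lit 0x89) (nat_lit 0) (p (nat_lit 0x41) (nat_lit 0) (p (nat_lit 0x10a898a08881a) (nat_lit 0) (p (nat_lit 0xa090988079a) (nat_lit 0) (p (nat_lit 0x108088907871a) (nat_lit 0) (p (nat_lit 0x7880887069a) (nat_lit 0) (p (nat_lit 0x8000000000800088806860a) (nat_lit 0) (p (nat_lit 0x8000000000800068786058a) (nat_lit 0) (p (nat_lit 0x10687058502) (nat_lit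 0) (p (nat_lit 0x606850482) (nat_lit 0) (p (nat_lit 0x16000c) (nat_lit 0) (p (nat_lit 0x68612) (nat_lit 0) (p (nat_lit 0x50592) (nat_lit 0) (p (nat_lit 0x40512) (nat_lit 0) (p (nat_lit 0x50312) (nat_lit 0) (p (nat_lit 0x38292) (nat_lit 0) (p (nat_lit 0x28212) (nat_lit 0) (p (nat_lit 0x38112) (nat_lit 0) (p (nat_lit 0x20092) (nat_lit 0) (p (nat_lit 0x10012) (nat_lit 0) pn))))))))))))))))))))))))) :=
  Cl.node (nat_lit 0x111) (nat_lit 2) (by decide +kernel) (ClAll.succ (ClAll.succ ClAll.zero s23) s24)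

def n94 : Cl (O (nat_lit 5)) (R (nat_lit 143633))
    (p (nat_lit 0xc9) (nat_lit 1) (p (nat_lit 0x81) (nat_lit 0) (p (nat_lit 0x101) (nat_lit 1) (p (nat_lit 0x119) (nat_lit 0) (p (nat_lit 0xd1) (nat_lit 0) (p (nat_lit 0x89) (nat_lit 0) (p (nat_lit 0x41) (nat_lit 0) (p (nat_lit 0x10a898a08881a) (nat_lit 0) (p (nat_lit 0xa090988079a) (nat_lit 0) (p (nat_lit 0x108088907871a) (nat_lit 0) (p (nat_lit 0x7880887069a) (nat_lit 0) (p (nat_lit 0x8000000000800088806860a) (nat_lit 0) (p (nat_lit 0x8000000000800068786058a) (nat_lit 0) (p (nat_lit 0x10687058502) (nat_lit 0) (p (nat_lit 0x606850482) (nat_lit 0) (p (nat_lit 0x16000c) (nat_lit 0) (p (nat_lit 0x68612) (nat_lit 0) (p (nat_lit 0x50592) (nat_lit 0) (p (nat_lit 0x40512) (nat_lit 0) (p (nat_lit 0x50312) (nat_lit 0) (p (nat_lit 0x38292) (nat_lit 0) (p (nat_lit 0x28212) (nat_lit 0) (p (nat_lit 0x38112) (nat_lit 0) (p (nat_lit 0x20092) (nat_lit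 0) (p (nat_lit 0x10012) (nat_lit 0) pn))))))))))))))))))))))))) :=
  Cl.node (nat_lit 0x111) (nat_lit 2) (by decide +kernel) (ClAll.succ (ClAll.succ ClAll.zero n70) s38)

def n95 : Cl (O (nat_lit 5)) (R (nat_lit 143633))
    (p (nat_lit 0xc1) (nat_lit 0) (p (nat_lit 0x81) (nat_lit 1) (p (nat_lit 0x101) (nat_lit 1) (p (nat_lit 0x119) (nat_lit 0) (p (nat_lit 0xd1) (nat_lit 0) (p (nat_lit 0x89) (nat_lit 0) (p (nat_lit 0x41) (nat_lit 0) (p (nat_lit 0x10a898a08881a) (nat_lit 0) (p (nat_lit 0xa090988079a) (nat_lit 0) (p (nat_lit 0x108088907871a) (nat_lit 0) (p (nat_lit 0x7880887069a) (nat_lit 0) (p (nat_lit 0x8000000000800088806860a) (nat_lit 0) (p (nat_lit 0x8000000000800068786058a) (nat_lit 0) (p (nat_lit 0x10687058502) (nat_lit 0) (p (nat_lit 0x606850482) (nat_lit 0) (p (nat_lit 0x16000c) (nat_lit 0) (p (nat_lit 0x68612) (nat_lit 0) (p (nat_lit 0x50592) (nat_lit 0) (p (nat_lit 0x40512)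 (nat_lit 0) (p (nat_lit 0x50312) (nat_lit 0) (p (nat_lit 0x38292) (nat_lit 0) (p (nat_lit 0x28212) (nat_lit 0) (p (nat_lit 0x38112) (nat_lit 0) (p (nat_lit 0x20092) (nat_lit 0) (p (nat_lit 0x10012) (nat_lit 0) pn))))))))))))))))))))))))) :=
  Cl.node (nat_lit 0xc9) (nat_lit 2) (by decide +kernel) (ClAll.succ (ClAll.succ ClAll.zero s39) s40)

def n96 : Cl (O (nat_lit 5)) (R (nat_lit 143633))
    (p (nat_lit 0x109) (nat_lit 1) (p (nat_lit 0xc9) (nat_lit 1) (p (nat_lit 0xc1) (nat_lit 0) (p (nat_lit 0x119) (nat_lit 1) (p (nat_lit 0xd1) (nat_lit 0) (p (nat_lit 0x89) (nat_lit 0) (p (nat_lit 0x41) (nat_lit 0) (p (nat_lit 0x10a898a08881a) (nat_lit 0) (p (nat_lit 0xa090988079a) (nat_lit 0) (p (nat_lit 0x108088907871a) (nat_lit 0) (p (nat_lit 0x7880887069a) (nat_lit 0) (p (nat_lit 0x8000000000800088806860a) (nat_lit 0) (p (nat_lit 0x8000000000800068786058a) (nat_lit 0) (p (nat_lit 0x10687058502)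 (nat_lit 0) (p (nat_lit 0x606850482) (nat_lit 0) (p (nat_lit 0x16000c) (nat_lit 0) (p (nat_lit 0x68612) (nat_lit 0) (p (nat_lit 0x50592) (nat_lit 0) (p (nat_lit 0x40512) (nat_lit 0) (p (nat_lit 0x50312) (nat_lit 0) (p (nat_lit 0x38292) (nat_lit 0) (p (nat_lit 0x28212) (nat_lit 0) (p (nat_lit 0x38112) (nat_lit 0) (p (nat_lit 0x20092) (nat_lit 0) (p (nat_lit 0x10012) (nat_lit 0) pn))))))))))))))))))))))))) :=
  Cl.node (nat_lit 0x3cc2a) (nat_lit 12) (by decide +kernel) (ClAll.succ (ClAll.succ (ClAll.succ (ClAll.succ (ClAll.succ (ClAll.succ (ClAll.succ (ClAll.succ (ClAll.succ (ClAll.succ (ClAll.succ (ClAll.succ ClAll.zero s44) s45) s46) s47) s48) s49) s50) s51) s52) s53) n71) n72)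

def n97 : Cl (O (nat_lit 5)) (R (nat_lit 143633))
    (p (nat_lit 0x109) (nat_lit 1) (p (nat_lit 0x81) (nat_lit 0) (p (nat_lit 0xc1) (nat_lit 1) (p (nat_lit 0x119) (nat_lit 1) (p (nat_lit 0xd1) (nat_lit 0) (p (nat_lit 0x89) (nat_lit 0) (p (nat_lit 0x41) (nat_lit 0) (p (nat_lit 0x10a898a08881a) (nat_lit 0) (p (nat_lit 0xa090988079a) (nat_lit 0) (p (nat_lit 0x108088907871a) (nat_lit 0) (p (nat_lit 0x7880887069a) (nat_lit 0) (p (nat_lit 0x8000000000800088806860a) (nat_lit 0) (p (nat_lit 0x8000000000800068786058a) (nat_lit 0) (p (nat_lit 0x10687058502) (nat_lit 0) (p (nat_lit 0x606850482) (nat_lit 0) (p (nat_lit 0x16000c) (nat_lit 0) (p (nat_lit 0x68612) (nat_lit 0) (p (nat_lit 0x50592) (nat_lit 0) (p (nat_lit 0x40512) (nat_lit 0) (p (nat_lit 0x50312) (nat_lit 0) (p (nat_lit 0x38292) (nat_lit 0) (p (nat_lit 0x28212) (nat_lit 0) (p (nat_lit 0x38112) (nat_lit 0) (p (nat_lit 0x20092) (nat_lit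 0) (p (nat_lit 0x10012) (nat_lit 0) pn))))))))))))))))))))))))) :=
  Cl.node (nat_lit 0x3cc2a) (nat_lit 12) (by decide +kernel) (ClAll.succ (ClAll.succ (ClAll.succ (ClAll.succ (ClAll.succ (ClAll.succ (ClAll.succ (ClAll.succ (ClAll.succ (ClAll.succ (ClAll.succ (ClAll.succ ClAll.zero s59) s60) s61) s62) s63) s64) s65) s66) s67) s68) s69) s70)

def n98 : Cl (O (nat_lit 5)) (R (nat_lit 143633))
    (p (nat_lit 0x101) (nat_lit 0) (p (nat_lit 0x81) (nat_lit 1) (p (nat_lit 0xc1) (nat_lit 1) (p (nat_lit 0x119) (nat_lit 1) (p (nat_lit 0xd1) (nat_lit 0) (p (nat_lit 0x89) (nat_lit 0) (p (nat_lit 0x41) (nat_lit 0) (p (nat_lit 0x10a898a08881a) (nat_lit 0) (p (nat_lit 0xa090988079a) (nat_lit 0) (p (nat_lit 0x108088907871a) (nat_lit 0) (p (nat_lit 0x7880887069a) (nat_lit 0) (p (nat_lit 0x8000000000800088806860a) (nat_lit 0) (p (nat_lit 0x8000000000800068786058a) (nat_lit 0) (p (nat_lit 0x10687058502)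 (nat_lit 0) (p (nat_lit 0x606850482) (nat_lit 0) (p (nat_lit 0x16000c) (nat_lit 0) (p (nat_lit 0x68612) (nat_lit 0) (p (nat_lit 0x50592) (nat_lit 0) (p (nat_lit 0x40512) (nat_lit 0) (p (nat_lit 0x50312) (nat_lit 0) (p (nat_lit 0x38292) (nat_lit 0) (p (nat_lit 0x28212) (nat_lit 0) (p (nat_lit 0x38112) (nat_lit 0) (p (nat_lit 0x20092) (nat_lit 0) (p (nat_lit 0x10012) (nat_lit 0) pn))))))))))))))))))))))))) :=
  Cl.node (nat_lit 0x109) (nat_lit 2) (by decide +kernel) (ClAll.succ (ClAll.succ ClAll.zero s71) n73)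

def n99 : Cl (O (nat_lit 5)) (R (nat_lit 143633))
    (p (nat_lit 0x119) (nat_lit 0) (p (nat_lit 0x81) (nat_lit 0) (p (nat_lit 0x101) (nat_lit 1) (p (nat_lit 0x111) (nat_lit 0) (p (nat_lit 0xd1) (nat_lit 1) (p (nat_lit 0x89) (nat_lit 0) (p (nat_lit 0x41) (nat_lit 0) (p (nat_lit 0x10a898a08881a) (nat_lit 0) (p (nat_lit 0xa090988079a) (nat_lit 0) (p (nat_lit 0x108088907871a) (nat_lit 0) (p (nat_lit 0x7880887069a) (nat_lit 0) (p (nat_lit 0x8000000000800088806860a) (nat_lit 0) (p (nat_lit 0x8000000000800068786058a) (nat_lit 0) (p (nat_lit 0x10687058502) (nat_lit 0) (p (nat_lit 0x606850482) (nat_lit 0) (p (nat_lit 0x16000c) (nat_lit 0) (p (nat_lit 0x68612) (nat_lit 0) (p (nat_lit 0x50592) (nat_lit 0) (p (nat_lit 0x40512) (nat_lit 0) (p (nat_lit 0x50312) (nat_lit 0) (p (nat_lit 0x38292) (nat_lit 0) (p (nat_lit 0x28212) (nat_lit 0) (p (nat_lit 0x38112) (nat_lit 0) (p (nat_lit 0x20092) (nat_lit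 0) (p (nat_lit 0x10012) (nat_lit 0) pn))))))))))))))))))))))))) :=
  Cl.node (nat_lit 0x200004) (nat_lit 2) (by decide +kernel) (ClAll.succ (ClAll.succ ClAll.zero s88) s89)

def n100 : Cl (O (nat_lit 5)) (R (nat_lit 143633))
    (p (nat_lit 0xc1) (nat_lit 0) (p (nat_lit 0x81) (nat_lit 1) (p (nat_lit 0x101) (nat_lit 1) (p (nat_lit 0x111) (nat_lit 0) (p (nat_lit 0xd1) (nat_lit 1) (p (nat_lit 0x89) (nat_lit 0) (p (nat_lit 0x41) (nat_lit 0) (p (nat_lit 0x10a898a08881a) (nat_lit 0) (p (nat_lit 0xa090988079a) (nat_lit 0) (p (nat_lit 0x108088907871a) (nat_lit 0) (p (nat_lit 0x7880887069a) (nat_lit 0) (p (nat_lit 0x8000000000800088806860a) (nat_lit 0) (p (nat_lit 0x8000000000800068786058a) (nat_lit 0) (p (nat_lit 0x10687058502) (nat_lit 0) (p (nat_lit 0x606850482) (nat_lit 0) (p (nat_lit 0x16000c) (nat_lit 0) (p (nat_lit 0x68612) (nat_lit 0) (p (nat_lit 0x50592) (nat_lit 0) (p (nat_lit 0x40512)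 (nat_lit 0) (p (nat_lit 0x50312) (nat_lit 0) (p (nat_lit 0x38292) (nat_lit 0) (p (nat_lit 0x28212) (nat_lit 0) (p (nat_lit 0x38112) (nat_lit 0) (p (nat_lit 0x20092) (nat_lit 0) (p (nat_lit 0x10012) (nat_lit 0) pn))))))))))))))))))))))))) :=
  Cl.node (nat_lit 0x119) (nat_lit 2) (by decide +kernel) (ClAll.succ (ClAll.succ ClAll.zero s91) s92)

def n101 : Cl (O (nat_lit 5)) (R (nat_lit 143633))
    (p (nat_lit 0x111) (nat_lit 1) (p (nat_lit 0x109) (nat_lit 0) (p (nat_lit 0x101) (nat_lit 0) (p (nat_lit 0x119) (nat_lit 0) (p (nat_lit 0xc9) (nat_lit 0) (p (nat_lit 0x89) (nat_lit 1) (p (nat_lit 0x41) (nat_lit 0) (p (nat_lit 0x10a898a08881a) (nat_lit 0) (p (nat_lit 0xa090988079a) (nat_lit 0) (p (nat_lit 0x108088907871a) (nat_lit 0) (p (nat_lit 0x7880887069a) (nat_lit 0) (p (nat_lit 0x8000000000800088806860a) (nat_lit 0) (p (nat_lit 0x8000000000800068786058a) (nat_lit 0) (p (nat_lit 0x10687058502)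 (nat_lit 0) (p (nat_lit 0x606850482) (nat_lit 0) (p (nat_lit 0x16000c) (nat_lit 0) (p (nat_lit 0x68612) (nat_lit 0) (p (nat_lit 0x50592) (nat_lit 0) (p (nat_lit 0x40512) (nat_lit 0) (p (nat_lit 0x50312) (nat_lit 0) (p (nat_lit 0x38292) (nat_lit 0) (p (nat_lit 0x28212) (nat_lit 0) (p (nat_lit 0x38112) (nat_lit 0) (p (nat_lit 0x20092) (nat_lit 0) (p (nat_lit 0x10012) (nat_lit 0) pn))))))))))))))))))))))))) :=
  Cl.node (nat_lit 0xd1) (nat_lit 2) (by decide +kernel) (ClAll.succ (ClAll.succ ClAll.zero s98) n74)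

def n102 : Cl (O (nat_lit 5)) (R (nat_lit 143633))
    (p (nat_lit 0xd1) (nat_lit 0) (p (nat_lit 0x109) (nat_lit 1) (p (nat_lit 0x101) (nat_lit 0) (p (nat_lit 0x119) (nat_lit 0) (p (nat_lit 0xc9) (nat_lit 0) (p (nat_lit 0x89) (nat_lit 1) (p (nat_lit 0x41) (nat_lit 0) (p (nat_lit 0x10a898a08881a) (nat_lit 0) (p (nat_lit 0xa090988079a) (nat_lit 0) (p (nat_lit 0x108088907871a) (nat_lit 0) (p (nat_lit 0x7880887069a) (nat_lit 0) (p (nat_lit 0x8000000000800088806860a) (nat_lit 0) (p (nat_lit 0x8000000000800068786058a) (nat_lit 0) (p (nat_lit 0x10687058502) (nat_lit 0) (p (nat_lit 0x606850482) (nat_lit 0) (p (nat_lit 0x16000c) (nat_lit 0) (p (nat_lit 0x68612) (nat_lit 0) (p (nat_lit 0x50592) (nat_lit 0) (p (nat_lit 0x40512) (nat_lit 0) (p (nat_lit 0x50312) (nat_lit 0) (p (nat_lit 0x38292) (nat_lit 0) (p (nat_lit 0x28212) (nat_lit 0) (p (nat_lit 0x38112) (nat_lit 0) (p (nat_lit 0x20092) (nat_lit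 0) (p (nat_lit 0x10012) (nat_lit 0) pn))))))))))))))))))))))))) :=
  Cl.node (nat_lit 0x200004) (nat_lit 2) (by decide +kernel) (ClAll.succ (ClAll.succ ClAll.zero s112) s113)

def n103 : Cl (O (nat_lit 5)) (R (nat_lit 143633))
    (p (nat_lit 0xd1) (nat_lit 1) (p (nat_lit 0x109) (nat_lit 1) (p (nat_lit 0x101) (nat_lit 0) (p (nat_lit 0x119) (nat_lit 0) (p (nat_lit 0xc9) (nat_lit 0) (p (nat_lit 0x89) (nat_lit 1) (p (nat_lit 0x41) (nat_lit 0) (p (nat_lit 0x10a898a08881a) (nat_lit 0) (p (nat_lit 0xa090988079a) (nat_lit 0) (p (nat_lit 0x108088907871a) (nat_lit 0) (p (nat_lit 0x7880887069a) (nat_lit 0) (p (nat_lit 0x8000000000800088806860a) (nat_lit 0) (p (nat_lit 0x8000000000800068786058a) (nat_lit 0) (p (nat_lit 0x10687058502) (nat_lit 0) (p (nat_lit 0x606850482) (nat_lit 0) (p (nat_lit 0x16000c) (nat_lit 0) (p (nat_lit 0x68612) (nat_lit 0) (p (nat_lit 0x50592) (nat_lit 0) (p (nat_lit 0x40512)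 (nat_lit 0) (p (nat_lit 0x50312) (nat_lit 0) (p (nat_lit 0x38292) (nat_lit 0) (p (nat_lit 0x28212) (nat_lit 0) (p (nat_lit 0x38112) (nat_lit 0) (p (nat_lit 0x20092) (nat_lit 0) (p (nat_lit 0x10012) (nat_lit 0) pn))))))))))))))))))))))))) :=
  Cl.node (nat_lit 0x444aa) (nat_lit 12) (by decide +kernel) (ClAll.succ (ClAll.succ (ClAll.succ (ClAll.succ (ClAll.succ (ClAll.succ (ClAll.succ (ClAll.succ (ClAll.succ (ClAll.succ (ClAll.succ (ClAll.succ ClAll.zero s114) s115) s116) s117) s118) s119) s120) n75) s135) s136) s137) s138)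

def n104 : Cl (O (nat_lit 5)) (R (nat_lit 143633))
    (p (nat_lit 0xd1) (nat_lit 0) (p (nat_lit 0xc1) (nat_lit 0) (p (nat_lit 0x101) (nat_lit 1) (p (nat_lit 0x119) (nat_lit 0) (p (nat_lit 0xc9) (nat_lit 0) (p (nat_lit 0x89) (nat_lit 1) (p (nat_lit 0x41) (nat_lit 0) (p (nat_lit 0x10a898a08881a) (nat_lit 0) (p (nat_lit 0xa090988079a) (nat_lit 0) (p (nat_lit 0x108088907871a) (nat_lit 0) (p (nat_lit 0x7880887069a) (nat_lit 0) (p (nat_lit 0x8000000000800088806860a) (nat_lit 0) (p (nat_lit 0x8000000000800068786058a) (nat_lit 0) (p (nat_lit 0x10687058502) (nat_lit 0) (p (nat_lit 0x606850482) (nat_lit 0) (p (nat_lit 0x16000c) (nat_lit 0) (p (nat_lit 0x68612) (nat_lit 0) (p (nat_lit 0x50592) (nat_lit 0) (p (nat_lit 0x40512) (nat_lit 0) (p (nat_lit 0x50312) (nat_lit 0) (p (nat_lit 0x38292) (nat_lit 0) (p (nat_lit 0x28212) (nat_lit 0) (p (nat_lit 0x38112) (nat_lit 0) (p (nat_lit 0x20092) (nat_lit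 0) (p (nat_lit 0x10012) (nat_lit 0) pn))))))))))))))))))))))))) :=
  Cl.node (nat_lit 0x200004) (nat_lit 2) (by decide +kernel) (ClAll.succ (ClAll.succ ClAll.zero s139) s140)

def n105 : Cl (O (nat_lit 5)) (R (nat_lit 143633))
    (p (nat_lit 0xd1) (nat_lit 1) (p (nat_lit 0xc1) (nat_lit 0) (p (nat_lit 0x101) (nat_lit 1) (p (nat_lit 0x119) (nat_lit 0) (p (nat_lit 0xc9) (nat_lit 0) (p (nat_lit 0x89) (nat_lit 1) (p (nat_lit 0x41) (nat_lit 0) (p (nat_lit 0x10a898a08881a) (nat_lit 0) (p (nat_lit 0xa090988079a) (nat_lit 0) (p (nat_lit 0x108088907871a) (nat_lit 0) (p (nat_lit 0x7880887069a) (nat_lit 0) (p (nat_lit 0x8000000000800088806860a) (nat_lit 0) (p (nat_lit 0x8000000000800068786058a) (nat_lit 0) (p (nat_lit 0x10687058502) (nat_lit 0) (p (nat_lit 0x606850482) (nat_lit 0) (p (nat_lit 0x16000c) (nat_lit 0) (p (nat_lit 0x68612) (nat_lit 0) (p (nat_lit 0x50592) (nat_lit 0) (p (nat_lit 0x40512)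 (nat_lit 0) (p (nat_lit 0x50312) (nat_lit 0) (p (nat_lit 0x38292) (nat_lit 0) (p (nat_lit 0x28212) (nat_lit 0) (p (nat_lit 0x38112) (nat_lit 0) (p (nat_lit 0x20092) (nat_lit 0) (p (nat_lit 0x10012) (nat_lit 0) pn))))))))))))))))))))))))) :=
  Cl.node (nat_lit 0x444aa) (nat_lit 12) (by decide +kernel) (ClAll.succ (ClAll.succ (ClAll.succ (ClAll.succ (ClAll.succ (ClAll.succ (ClAll.succ (ClAll.succ (ClAll.succ (ClAll.succ (ClAll.succ (ClAll.succ ClAll.zero s141) s142) s143) s144) s145) s146) s147) n76) s150) s151) s152) s153)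

def n106 : Cl (O (nat_lit 5)) (R (nat_lit 143633))
    (p (nat_lit 0x111) (nat_lit 1) (p (nat_lit 0xd1) (nat_lit 1) (p (nat_lit 0xc1) (nat_lit 0) (p (nat_lit 0x119) (nat_lit 1) (p (nat_lit 0xc9) (nat_lit 0) (p (nat_lit 0x89) (nat_lit 1) (p (nat_lit 0x41) (nat_lit 0) (p (nat_lit 0x10a898a08881a) (nat_lit 0) (p (nat_lit 0xa090988079a) (nat_lit 0) (p (nat_lit 0x108088907871a) (nat_lit 0) (p (nat_lit 0x7880887069a) (nat_lit 0) (p (nat_lit 0x8000000000800088806860a) (nat_lit 0) (p (nat_lit 0x8000000000800068786058a) (nat_lit 0) (p (nat_lit 0x10687058502) (nat_lit 0) (p (nat_lit 0x606850482) (nat_lit 0) (p (nat_lit 0x16000c) (nat_lit 0) (p (nat_lit 0x68612) (nat_lit 0) (p (nat_lit 0x50592) (nat_lit 0) (p (nat_lit 0x40512) (nat_lit 0) (p (nat_lit 0x50312) (nat_lit 0) (p (nat_lit 0x38292) (nat_lit 0) (p (nat_lit 0x28212) (nat_lit 0) (p (nat_lit 0x38112) (nat_lit 0) (p (nat_lit 0x20092) (nat_lit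 0) (p (nat_lit 0x10012) (nat_lit 0) pn))))))))))))))))))))))))) :=
  Cl.node (nat_lit 0x444aa) (nat_lit 12) (by decide +kernel) (ClAll.succ (ClAll.succ (ClAll.succ (ClAll.succ (ClAll.succ (ClAll.succ (ClAll.succ (ClAll.succ (ClAll.succ (ClAll.succ (ClAll.succ (ClAll.succ ClAll.zero s157) s158) s159) s160) s161) s162) s163) n77) s166) s167) s168) s169)

def n107 : Cl (O (nat_lit 5)) (R (nat_lit 143633))
    (p (nat_lit 0x111) (nat_lit 0) (p (nat_lit 0x101) (nat_lit 0) (p (nat_lit 0xc1) (nat_lit 1) (p (nat_lit 0x119) (nat_lit 1) (p (nat_lit 0xc9) (nat_lit 0) (p (nat_lit 0x89) (nat_lit 1) (p (nat_lit 0x41) (nat_lit 0) (p (nat_lit 0x10a898a08881a) (nat_lit 0) (p (nat_lit 0xa090988079a) (nat_lit 0) (p (nat_lit 0x108088907871a) (nat_lit 0) (p (nat_lit 0x7880887069a) (nat_lit 0) (p (nat_lit 0x8000000000800088806860a) (nat_lit 0) (p (nat_lit 0x8000000000800068786058a) (nat_lit 0) (p (nat_lit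 0x10687058502) (nat_lit 0) (p (nat_lit 0x606850482) (nat_lit 0) (p (nat_lit 0x16000c) (nat_lit 0) (p (nat_lit 0x68612) (nat_lit 0) (p (nat_lit 0x50592) (nat_lit 0) (p (nat_lit 0x40512) (nat_lit 0) (p (nat_lit 0x50312) (nat_lit 0) (p (nat_lit 0x38292) (nat_lit 0) (p (nat_lit 0x28212) (nat_lit 0) (p (nat_lit 0x38112) (nat_lit 0) (p (nat_lit 0x20092) (nat_lit 0) (p (nat_lit 0x10012) (nat_lit 0) pn))))))))))))))))))))))))) :=
  Cl.node (nat_lit 0x44c2a) (nat_lit 12) (by decide +kernel) (ClAll.succ (ClAll.succ (ClAll.succ (ClAll.succ (ClAll.succ (ClAll.succ (ClAll.succ (ClAll.succ (ClAll.succ (ClAll.succ (ClAll.succ (ClAll.succ ClAll.zero s170) s171) s172) s173) s174) s175) s176) s177) s178) s179) s180) s181)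

def n108 : Cl (O (nat_lit 5)) (R (nat_lit 143633))
    (p (nat_lit 0x111) (nat_lit 1) (p (nat_lit 0x101) (nat_lit 0) (p (nat_lit 0xc1) (nat_lit 1) (p (nat_lit 0x119) (nat_lit 1) (p (nat_lit 0xc9) (nat_lit 0) (p (nat_lit 0x89) (nat_lit 1) (p (nat_lit 0x41) (nat_lit 0) (p (nat_lit 0x10a898a08881a) (nat_lit 0) (p (nat_lit 0xa090988079a) (nat_lit 0) (p (nat_lit 0x108088907871a) (nat_lit 0) (p (nat_lit 0x7880887069a) (nat_lit 0) (p (nat_lit 0x8000000000800088806860a) (nat_lit 0) (p (nat_lit 0x8000000000800068786058a) (nat_lit 0) (p (nat_lit 0x10687058502) (nat_lit 0) (p (nat_lit 0x606850482) (nat_lit 0) (p (nat_lit 0x16000c) (nat_lit 0) (p (nat_lit 0x68612) (nat_lit 0) (p (nat_lit 0x50592) (nat_lit 0) (p (nat_lit 0x40512) (nat_lit 0) (p (nat_lit 0x50312) (nat_lit 0) (p (nat_lit 0x38292) (nat_lit 0) (p (nat_lit 0x28212) (nat_lit 0) (p (nat_lit 0x38112) (nat_lit 0) (p (nat_lit 0x20092) (nat_lit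 0) (p (nat_lit 0x10012) (nat_lit 0) pn))))))))))))))))))))))))) :=
  Cl.node (nat_lit 0x444aa) (nat_lit 12) (by decide +kernel) (ClAll.succ (ClAll.succ (ClAll.succ (ClAll.succ (ClAll.succ (ClAll.succ (ClAll.succ (ClAll.succ (ClAll.succ (ClAll.succ (ClAll.succ (ClAll.succ ClAll.zero s182) s183) s184) s185) s186) s187) s188) s189) s190) s191) s192) s193)

def n109 : Cl (O (nat_lit 5)) (R (nat_lit 143633))
    (p (nat_lit 0x119) (nat_lit 1) (p (nat_lit 0x111) (nat_lit 0) (p (nat_lit 0x101) (nat_lit 0) (p (nat_lit 0x109) (nat_lit 0) (p (nat_lit 0xc9) (nat_lit 1) (p (nat_lit 0x89) (nat_lit 1) (p (nat_lit 0x41) (nat_lit 0) (p (nat_lit 0x10a898a08881a) (nat_lit 0) (p (nat_lit 0xa090988079a) (nat_lit 0) (p (nat_lit 0x108088907871a) (nat_lit 0) (p (nat_lit 0x7880887069a) (nat_lit 0) (p (nat_lit 0x8000000000800088806860a) (nat_lit 0) (p (nat_lit 0x8000000000800068786058a) (nat_lit 0) (p (nat_lit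 0x10687058502) (nat_lit 0) (p (nat_lit 0x606850482) (nat_lit 0) (p (nat_lit 0x16000c) (nat_lit 0) (p (nat_lit 0x68612) (nat_lit 0) (p (nat_lit 0x50592) (nat_lit 0) (p (nat_lit 0x40512) (nat_lit 0) (p (nat_lit 0x50312) (nat_lit 0) (p (nat_lit 0x38292) (nat_lit 0) (p (nat_lit 0x28212) (nat_lit 0) (p (nat_lit 0x38112) (nat_lit 0) (p (nat_lit 0x20092) (nat_lit 0) (p (nat_lit 0x10012) (nat_lit 0) pn))))))))))))))))))))))))) :=
  Cl.node (nat_lit 0x444aa) (nat_lit 12) (by decide +kernel) (ClAll.succ (ClAll.succ (ClAll.succ (ClAll.succ (ClAll.succ (ClAll.succ (ClAll.succ (ClAll.succ (ClAll.succ (ClAll.succ (ClAll.succ (ClAll.succ ClAll.zero s196) s197) s198) s199) s200) s201) s202) n78) s205) s206) s207) s208)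

def n110 : Cl (O (nat_lit 5)) (R (nat_lit 143633))
    (p (nat_lit 0x89) (nat_lit 0) (p (nat_lit 0x109) (nat_lit 1) (p (nat_lit 0x101) (nat_lit 0) (p (nat_lit 0x119) (nat_lit 0) (p (nat_lit 0xd1) (nat_lit 0) (p (nat_lit 0x81) (nat_lit 0) (p (nat_lit 0x41) (nat_lit 1) (p (nat_lit 0x10a898a08881a) (nat_lit 0) (p (nat_lit 0xa090988079a) (nat_lit 0) (p (nat_lit 0x108088907871a) (nat_lit 0) (p (nat_lit 0x7880887069a) (nat_lit 0) (p (nat_lit 0x8000000000800088806860a) (nat_lit 0) (p (nat_lit 0x8000000000800068786058a) (nat_lit 0) (p (nat_lit 0x10687058502) (nat_lit 0) (p (nat_lit 0x606850482) (nat_lit 0) (p (nat_lit 0x16000c) (nat_lit 0) (p (nat_lit 0x68612) (nat_lit 0) (p (nat_lit 0x50592) (nat_lit 0) (p (nat_lit 0x40512) (nat_lit 0) (p (nat_lit 0x50312) (nat_lit 0) (p (nat_lit 0x38292) (nat_lit 0) (p (nat_lit 0x28212) (nat_lit 0) (p (nat_lit 0x38112) (nat_lit 0) (p (nat_lit 0x20092) (nat_lit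 0) (p (nat_lit 0x10012) (nat_lit 0) pn))))))))))))))))))))))))) :=
  Cl.node (nat_lit 0x111) (nat_lit 2) (by decide +kernel) (ClAll.succ (ClAll.succ ClAll.zero s213) s214)

def n111 : Cl (O (nat_lit 5)) (R (nat_lit 143633))
    (p (nat_lit 0x89) (nat_lit 1) (p (nat_lit 0x109) (nat_lit 1) (p (nat_lit 0x101) (nat_lit 0) (p (nat_lit 0x119) (nat_lit 0) (p (nat_lit 0xd1) (nat_lit 0) (p (nat_lit 0x81) (nat_lit 0) (p (nat_lit 0x41) (nat_lit 1) (p (nat_lit 0x10a898a08881a) (nat_lit 0) (p (nat_lit 0xa090988079a) (nat_lit 0) (p (nat_lit 0x108088907871a) (nat_lit 0) (p (nat_lit 0x7880887069a) (nat_lit 0) (p (nat_lit 0x8000000000800088806860a) (nat_lit 0) (p (nat_lit 0x8000000000800068786058a) (nat_lit 0) (p (nat_lit 0x10687058502) (nat_lit 0) (p (nat_lit 0x606850482) (nat_lit 0) (p (nat_lit 0x16000c) (nat_lit 0) (p (nat_lit 0x68612) (nat_lit 0) (p (nat_lit 0x50592) (nat_lit 0) (p (nat_lit 0x40512)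 (nat_lit 0) (p (nat_lit 0x50312) (nat_lit 0) (p (nat_lit 0x38292) (nat_lit 0) (p (nat_lit 0x28212) (nat_lit 0) (p (nat_lit 0x38112) (nat_lit 0) (p (nat_lit 0x20092) (nat_lit 0) (p (nat_lit 0x10012) (nat_lit 0) pn))))))))))))))))))))))))) :=
  Cl.node (nat_lit 0xc9) (nat_lit 2) (by decide +kernel) (ClAll.succ (ClAll.succ ClAll.zero s215) s216)

def n112 : Cl (O (nat_lit 5)) (R (nat_lit 143633))
    (p (nat_lit 0x89) (nat_lit 1) (p (nat_lit 0xc1) (nat_lit 0) (p (nat_lit 0x101) (nat_lit 1) (p (nat_lit 0x119) (nat_lit 0) (p (nat_lit 0xd1) (nat_lit 0) (p (nat_lit 0x81) (nat_lit 0) (p (nat_lit 0x41) (nat_lit 1) (p (nat_lit 0x10a898a08881a) (nat_lit 0) (p (nat_lit 0xa090988079a) (nat_lit 0) (p (nat_lit 0x108088907871a) (nat_lit 0) (p (nat_lit 0x7880887069a) (nat_lit 0) (p (nat_lit 0x8000000000800088806860a) (nat_lit 0) (p (nat_lit 0x8000000000800068786058a) (nat_lit 0) (p (nat_lit 0x10687058502)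 (nat_lit 0) (p (nat_lit 0x606850482) (nat_lit 0) (p (nat_lit 0x16000c) (nat_lit 0) (p (nat_lit 0x68612) (nat_lit 0) (p (nat_lit 0x50592) (nat_lit 0) (p (nat_lit 0x40512) (nat_lit 0) (p (nat_lit 0x50312) (nat_lit 0) (p (nat_lit 0x38292) (nat_lit 0) (p (nat_lit 0x28212) (nat_lit 0) (p (nat_lit 0x38112) (nat_lit 0) (p (nat_lit 0x20092) (nat_lit 0) (p (nat_lit 0x10012) (nat_lit 0) pn))))))))))))))))))))))))) :=
  Cl.node (nat_lit 0xc9) (nat_lit 2) (by decide +kernel) (ClAll.succ (ClAll.succ ClAll.zero n79) s230)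

def n113 : Cl (O (nat_lit 5)) (R (nat_lit 143633))
    (p (nat_lit 0x89) (nat_lit 1) (p (nat_lit 0xc1) (nat_lit 1) (p (nat_lit 0x101) (nat_lit 1) (p (nat_lit 0x119) (nat_lit 0) (p (nat_lit 0xd1) (nat_lit 0) (p (nat_lit 0x81) (nat_lit 0) (p (nat_lit 0x41) (nat_lit 1) (p (nat_lit 0x10a898a08881a) (nat_lit 0) (p (nat_lit 0xa090988079a) (nat_lit 0) (p (nat_lit 0x108088907871a) (nat_lit 0) (p (nat_lit 0x7880887069a) (nat_lit 0) (p (nat_lit 0x8000000000800088806860a) (nat_lit 0) (p (nat_lit 0x8000000000800068786058a) (nat_lit 0) (p (nat_lit 0x10687058502) (nat_lit 0) (p (nat_lit 0x606850482) (nat_lit 0) (p (nat_lit 0x16000c) (nat_lit 0) (p (nat_lit 0x68612) (nat_lit 0) (p (nat_lit 0x50592) (nat_lit 0) (p (nat_lit 0x40512) (nat_lit 0) (p (nat_lit 0x50312) (nat_lit 0) (p (nat_lit 0x38292) (nat_lit 0) (p (nat_lit 0x28212) (nat_lit 0) (p (nat_lit 0x38112) (nat_lit 0) (p (nat_lit 0x20092) (nat_lit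 0) (p (nat_lit 0x10012) (nat_lit 0) pn))))))))))))))))))))))))) :=
  Cl.node (nat_lit 0x3c4aa) (nat_lit 12) (by decide +kernel) (ClAll.succ (ClAll.succ (ClAll.succ (ClAll.succ (ClAll.succ (ClAll.succ (ClAll.succ (ClAll.succ (ClAll.succ (ClAll.succ (ClAll.succ (ClAll.succ ClAll.zero s232) s233) s234) s235) s236) s237) s238) n80) s241) s242) s243) s244)

def n114 : Cl (O (nat_lit 5)) (R (nat_lit 143633))
    (p (nat_lit 0x89) (nat_lit 1) (p (nat_lit 0xc9) (nat_lit 1) (p (nat_lit 0xc1) (nat_lit 0) (p (nat_lit 0x119) (nat_lit 1) (p (nat_lit 0xd1) (nat_lit 0) (p (nat_lit 0x81) (nat_lit 0) (p (nat_lit 0x41) (nat_lit 1) (p (nat_lit 0x10a898a08881a) (nat_lit 0) (p (nat_lit 0xa090988079a) (nat_lit 0) (p (nat_lit 0x108088907871a) (nat_lit 0) (p (nat_lit 0x7880887069a) (nat_lit 0) (p (nat_lit 0x8000000000800088806860a) (nat_lit 0) (p (nat_lit 0x8000000000800068786058a) (nat_lit 0) (p (nat_lit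 0x10687058502) (nat_lit 0) (p (nat_lit 0x606850482) (nat_lit 0) (p (nat_lit 0x16000c) (nat_lit 0) (p (nat_lit 0x68612) (nat_lit 0) (p (nat_lit 0x50592) (nat_lit 0) (p (nat_lit 0x40512) (nat_lit 0) (p (nat_lit 0x50312) (nat_lit 0) (p (nat_lit 0x38292) (nat_lit 0) (p (nat_lit 0x28212) (nat_lit 0) (p (nat_lit 0x38112) (nat_lit 0) (p (nat_lit 0x20092) (nat_lit 0) (p (nat_lit 0x10012) (nat_lit 0) pn))))))))))))))))))))))))) :=
  Cl.node (nat_lit 0x109) (nat_lit 2) (by decide +kernel) (ClAll.succ (ClAll.succ ClAll.zero n81) n82)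

def n115 : Cl (O (nat_lit 5)) (R (nat_lit 143633))
    (p (nat_lit 0x89) (nat_lit 1) (p (nat_lit 0x101) (nat_lit 0) (p (nat_lit 0xc1) (nat_lit 1) (p (nat_lit 0x119) (nat_lit 1) (p (nat_lit 0xd1) (nat_lit 0) (p (nat_lit 0x81) (nat_lit 0) (p (nat_lit 0x41) (nat_lit 1) (p (nat_lit 0x10a898a08881a) (nat_lit 0) (p (nat_lit 0xa090988079a) (nat_lit 0) (p (nat_lit 0x108088907871a) (nat_lit 0) (p (nat_lit 0x7880887069a) (nat_lit 0) (p (nat_lit 0x8000000000800088806860a) (nat_lit 0) (p (nat_lit 0x8000000000800068786058a) (nat_lit 0) (p (nat_lit 0x10687058502) (nat_lit 0) (p (nat_lit 0x606850482) (nat_lit 0) (p (nat_lit 0x16000c) (nat_lit 0) (p (nat_lit 0x68612) (nat_lit 0) (p (nat_lit 0x50592) (nat_lit 0) (p (nat_lit 0x40512) (nat_lit 0) (p (nat_lit 0x50312) (nat_lit 0) (p (nat_lit 0x38292) (nat_lit 0) (p (nat_lit 0x28212) (nat_lit 0) (p (nat_lit 0x38112) (nat_lit 0) (p (nat_lit 0x20092) (nat_lit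 0) (p (nat_lit 0x10012) (nat_lit 0) pn))))))))))))))))))))))))) :=
  Cl.node (nat_lit 0x109) (nat_lit 2) (by decide +kernel) (ClAll.succ (ClAll.succ ClAll.zero n83) n84)

def n116 : Cl (O (nat_lit 5)) (R (nat_lit 143633))
    (p (nat_lit 0x89) (nat_lit 1) (p (nat_lit 0x101) (nat_lit 1) (p (nat_lit 0xc1) (nat_lit 1) (p (nat_lit 0x119) (nat_lit 1) (p (nat_lit 0xd1) (nat_lit 0) (p (nat_lit 0x81) (nat_lit 0) (p (nat_lit 0x41) (nat_lit 1) (p (nat_lit 0x10a898a08881a) (nat_lit 0) (p (nat_lit 0xa090988079a) (nat_lit 0) (p (nat_lit 0x108088907871a) (nat_lit 0) (p (nat_lit 0x7880887069a) (nat_lit 0) (p (nat_lit 0x8000000000800088806860a) (nat_lit 0) (p (nat_lit 0x8000000000800068786058a) (nat_lit 0) (p (nat_lit 0x10687058502) (nat_lit 0) (p (nat_lit 0x606850482) (nat_lit 0) (p (nat_lit 0x16000c) (nat_lit 0) (p (nat_lit 0x68612) (nat_lit 0) (p (nat_lit 0x50592) (nat_lit 0) (p (nat_lit 0x40512)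 (nat_lit 0) (p (nat_lit 0x50312) (nat_lit 0) (p (nat_lit 0x38292) (nat_lit 0) (p (nat_lit 0x28212) (nat_lit 0) (p (nat_lit 0x38112) (nat_lit 0) (p (nat_lit 0x20092) (nat_lit 0) (p (nat_lit 0x10012) (nat_lit 0) pn))))))))))))))))))))))))) :=
  Cl.node (nat_lit 0x3c4aa) (nat_lit 12) (by decide +kernel) (ClAll.succ (ClAll.succ (ClAll.succ (ClAll.succ (ClAll.succ (ClAll.succ (ClAll.succ (ClAll.succ (ClAll.succ (ClAll.succ (ClAll.succ (ClAll.succ ClAll.zero s305) s306) s307) s308) s309) s310) s311) n85) s314) s315) s316) s317)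

def n117 : Cl (O (nat_lit 5)) (R (nat_lit 143633))
    (p (nat_lit 0x89) (nat_lit 1) (p (nat_lit 0x109) (nat_lit 1) (p (nat_lit 0x101) (nat_lit 0) (p (nat_lit 0x111) (nat_lit 0) (p (nat_lit 0xd1) (nat_lit 1) (p (nat_lit 0x81) (nat_lit 0) (p (nat_lit 0x41) (nat_lit 1) (p (nat_lit 0x10a898a08881a) (nat_lit 0) (p (nat_lit 0xa090988079a) (nat_lit 0) (p (nat_lit 0x108088907871a) (nat_lit 0) (p (nat_lit 0x7880887069a) (nat_lit 0) (p (nat_lit 0x8000000000800088806860a) (nat_lit 0) (p (nat_lit 0x8000000000800068786058a) (nat_lit 0) (p (nat_lit 0x10687058502) (nat_lit 0) (p (nat_lit 0x606850482) (nat_lit 0) (p (nat_lit 0x16000c) (nat_lit 0) (p (nat_lit 0x68612) (nat_lit 0) (p (nat_lit 0x50592) (nat_lit 0) (p (nat_lit 0x40512) (nat_lit 0) (p (nat_lit 0x50312) (nat_lit 0) (p (nat_lit 0x38292) (nat_lit 0) (p (nat_lit 0x28212) (nat_lit 0) (p (nat_lit 0x38112) (nat_lit 0) (p (nat_lit 0x20092) (nat_lit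 0) (p (nat_lit 0x10012) (nat_lit 0) pn))))))))))))))))))))))))) :=
  Cl.node (nat_lit 0xc9) (nat_lit 2) (by decide +kernel) (ClAll.succ (ClAll.succ ClAll.zero n86) s322)

def n118 : Cl (O (nat_lit 5)) (R (nat_lit 143633))
    (p (nat_lit 0xc9) (nat_lit 0) (p (nat_lit 0x89) (nat_lit 1) (p (nat_lit 0x101) (nat_lit 1) (p (nat_lit 0x111) (nat_lit 0) (p (nat_lit 0xd1) (nat_lit 1) (p (nat_lit 0x81) (nat_lit 0) (p (nat_lit 0x41) (nat_lit 1) (p (nat_lit 0x10a898a08881a) (nat_lit 0) (p (nat_lit 0xa090988079a) (nat_lit 0) (p (nat_lit 0x108088907871a) (nat_lit 0) (p (nat_lit 0x7880887069a) (nat_lit 0) (p (nat_lit 0x8000000000800088806860a) (nat_lit 0) (p (nat_lit 0x8000000000800068786058a) (nat_lit 0) (p (nat_lit 0x10687058502) (nat_lit 0) (p (nat_lit 0x606850482) (nat_lit 0) (p (nat_lit 0x16000c) (nat_lit 0) (p (nat_lit 0x68612) (nat_lit 0) (p (nat_lit 0x50592) (nat_lit 0) (p (nat_lit 0x40512)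 (nat_lit 0) (p (nat_lit 0x50312) (nat_lit 0) (p (nat_lit 0x38292) (nat_lit 0) (p (nat_lit 0x28212) (nat_lit 0) (p (nat_lit 0x38112) (nat_lit 0) (p (nat_lit 0x20092) (nat_lit 0) (p (nat_lit 0x10012) (nat_lit 0) pn))))))))))))))))))))))))) :=
  Cl.node (nat_lit 0x3cc2a) (nat_lit 12) (by decide +kernel) (ClAll.succ (ClAll.succ (ClAll.succ (ClAll.succ (ClAll.succ (ClAll.succ (ClAll.succ (ClAll.succ (ClAll.succ (ClAll.succ (ClAll.succ (ClAll.succ ClAll.zero s335) s336) s337) s338) s339) s340) s341) s342) s343) s344) s345) s346)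

def n119 : Cl (O (nat_lit 5)) (R (nat_lit 143633))
    (p (nat_lit 0x111) (nat_lit 1) (p (nat_lit 0x109) (nat_lit 0) (p (nat_lit 0x101) (nat_lit 0) (p (nat_lit 0x119) (nat_lit 0) (p (nat_lit 0xc1) (nat_lit 0) (p (nat_lit 0x81) (nat_lit 1) (p (nat_lit 0x41) (nat_lit 1) (p (nat_lit 0x10a898a08881a) (nat_lit 0) (p (nat_lit 0xa090988079a) (nat_lit 0) (p (nat_lit 0x108088907871a) (nat_lit 0) (p (nat_lit 0x7880887069a) (nat_lit 0) (p (nat_lit 0x8000000000800088806860a) (nat_lit 0) (p (nat_lit 0x8000000000800068786058a) (nat_lit 0) (p (nat_lit 0x10687058502) (nat_lit 0) (p (nat_lit 0x606850482) (nat_lit 0) (p (nat_lit 0x16000c) (nat_lit 0) (p (nat_lit 0x68612) (nat_lit 0) (p (nat_lit 0x50592) (nat_lit 0) (p (nat_lit 0x40512) (nat_lit 0) (p (nat_lit 0x50312) (nat_lit 0) (p (nat_lit 0x38292) (nat_lit 0) (p (nat_lit 0x28212) (nat_lit 0) (p (nat_lit 0x38112) (nat_lit 0) (p (nat_lit 0x20092) (nat_lit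 0) (p (nat_lit 0x10012) (nat_lit 0) pn))))))))))))))))))))))))) :=
  Cl.node (nat_lit 0xd1) (nat_lit 2) (by decide +kernel) (ClAll.succ (ClAll.succ ClAll.zero s353) n87)

def n120 : Cl (O (nat_lit 5)) (R (nat_lit 143633))
    (p (nat_lit 0xc9) (nat_lit 0) (p (nat_lit 0x109) (nat_lit 1) (p (nat_lit 0x101) (nat_lit 0) (p (nat_lit 0x119) (nat_lit 0) (p (nat_lit 0xc1) (nat_lit 0) (p (nat_lit 0x81) (nat_lit 1) (p (nat_lit 0x41) (nat_lit 1) (p (nat_lit 0x10a898a08881a) (nat_lit 0) (p (nat_lit 0xa090988079a) (nat_lit 0) (p (nat_lit 0x108088907871a) (nat_lit 0) (p (nat_lit 0x7880887069a) (nat_lit 0) (p (nat_lit 0x8000000000800088806860a) (nat_lit 0) (p (nat_lit 0x8000000000800068786058a) (nat_lit 0) (p (nat_lit 0x10687058502) (nat_lit 0) (p (nat_lit 0x606850482) (nat_lit 0) (p (nat_lit 0x16000c) (nat_lit 0) (p (nat_lit 0x68612) (nat_lit 0) (p (nat_lit 0x50592) (nat_lit 0) (p (nat_lit 0x40512)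 (nat_lit 0) (p (nat_lit 0x50312) (nat_lit 0) (p (nat_lit 0x38292) (nat_lit 0) (p (nat_lit 0x28212) (nat_lit 0) (p (nat_lit 0x38112) (nat_lit 0) (p (nat_lit 0x20092) (nat_lit 0) (p (nat_lit 0x10012) (nat_lit 0) pn))))))))))))))))))))))))) :=
  Cl.node (nat_lit 0xd1) (nat_lit 2) (by decide +kernel) (ClAll.succ (ClAll.succ ClAll.zero s382) n88)

def n121 : Cl (O (nat_lit 5)) (R (nat_lit 143633))
    (p (nat_lit 0xd1) (nat_lit 0) (p (nat_lit 0xc9) (nat_lit 0) (p (nat_lit 0x101) (nat_lit 1) (p (nat_lit 0x119) (nat_lit 0) (p (nat_lit 0xc1) (nat_lit 0) (p (nat_lit 0x81) (nat_lit 1) (p (nat_lit 0x41) (nat_lit 1) (p (nat_lit 0x10a898a08881a) (nat_lit 0) (p (nat_lit 0xa090988079a) (nat_lit 0) (p (nat_lit 0x108088907871a) (nat_lit 0) (p (nat_lit 0x7880887069a) (nat_lit 0) (p (nat_lit 0x8000000000800088806860a) (nat_lit 0) (p (nat_lit 0x8000000000800068786058a) (nat_lit 0) (p (nat_lit 0x10687058502)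 (nat_lit 0) (p (nat_lit 0x606850482) (nat_lit 0) (p (nat_lit 0x16000c) (nat_lit 0) (p (nat_lit 0x68612) (nat_lit 0) (p (nat_lit 0x50592) (nat_lit 0) (p (nat_lit 0x40512) (nat_lit 0) (p (nat_lit 0x50312) (nat_lit 0) (p (nat_lit 0x38292) (nat_lit 0) (p (nat_lit 0x28212) (nat_lit 0) (p (nat_lit 0x38112) (nat_lit 0) (p (nat_lit 0x20092) (nat_lit 0) (p (nat_lit 0x10012) (nat_lit 0) pn))))))))))))))))))))))))) :=
  Cl.node (nat_lit 0x44c2a) (nat_lit 12) (by decide +kernel) (ClAll.succ (ClAll.succ (ClAll.succ (ClAll.succ (ClAll.succ (ClAll.succ (ClAll.succ (ClAll.succ (ClAll.succ (ClAll.succ (ClAll.succ (ClAll.succ ClAll.zero s398) s399) s400) s401) s402) s403) s404) s405) s406) s407) s408) s409)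

def n122 : Cl (O (nat_lit 5)) (R (nat_lit 143633))
    (p (nat_lit 0xd1) (nat_lit 1) (p (nat_lit 0xc9) (nat_lit 0) (p (nat_lit 0x101) (nat_lit 1) (p (nat_lit 0x119) (nat_lit 0) (p (nat_lit 0xc1) (nat_lit 0) (p (nat_lit 0x81) (nat_lit 1) (p (nat_lit 0x41) (nat_lit 1) (p (nat_lit 0x10a898a08881a) (nat_lit 0) (p (nat_lit 0xa090988079a) (nat_lit 0) (p (nat_lit 0x108088907871a) (nat_lit 0) (p (nat_lit 0x7880887069a) (nat_lit 0) (p (nat_lit 0x8000000000800088806860a) (nat_lit 0) (p (nat_lit 0x8000000000800068786058a) (nat_lit 0) (p (nat_lit 0x10687058502) (nat_lit 0) (p (nat_lit 0x606850482) (nat_lit 0) (p (nat_lit 0x16000c) (nat_lit 0) (p (nat_lit 0x68612) (nat_lit 0) (p (nat_lit 0x50592) (nat_lit 0) (p (nat_lit 0x40512) (nat_lit 0) (p (nat_lit 0x50312) (nat_lit 0) (p (nat_lit 0x38292) (nat_lit 0) (p (nat_lit 0x28212) (nat_lit 0) (p (nat_lit 0x38112) (nat_lit 0) (p (nat_lit 0x20092) (nat_lit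 0) (p (nat_lit 0x10012) (nat_lit 0) pn))))))))))))))))))))))))) :=
  Cl.node (nat_lit 0x3c4aa) (nat_lit 12) (by decide +kernel) (ClAll.succ (ClAll.succ (ClAll.succ (ClAll.succ (ClAll.succ (ClAll.succ (ClAll.succ (ClAll.succ (ClAll.succ (ClAll.succ (ClAll.succ (ClAll.succ ClAll.zero s410) s411) s412) s413) s414) s415) s416) n89) s429) s430) s431) s432)

def n123 : Cl (O (nat_lit 5)) (R (nat_lit 143633))
    (p (nat_lit 0x111) (nat_lit 1) (p (nat_lit 0xd1) (nat_lit 1) (p (nat_lit 0xc9) (nat_lit 0) (p (nat_lit 0x119) (nat_lit 1) (p (nat_lit 0xc1) (nat_lit 0) (p (nat_lit 0x81) (nat_lit 1) (p (nat_lit 0x41) (nat_lit 1) (p (nat_lit 0x10a898a08881a) (nat_lit 0) (p (nat_lit 0xa090988079a) (nat_lit 0) (p (nat_lit 0x108088907871a) (nat_lit 0) (p (nat_lit 0x7880887069a) (nat_lit 0) (p (nat_lit 0x8000000000800088806860a) (nat_lit 0) (p (nat_lit 0x8000000000800068786058a) (nat_lit 0) (p (nat_lit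 0x10687058502) (nat_lit 0) (p (nat_lit 0x606850482) (nat_lit 0) (p (nat_lit 0x16000c) (nat_lit 0) (p (nat_lit 0x68612) (nat_lit 0) (p (nat_lit 0x50592) (nat_lit 0) (p (nat_lit 0x40512) (nat_lit 0) (p (nat_lit 0x50312) (nat_lit 0) (p (nat_lit 0x38292) (nat_lit 0) (p (nat_lit 0x28212) (nat_lit 0) (p (nat_lit 0x38112) (nat_lit 0) (p (nat_lit 0x20092) (nat_lit 0) (p (nat_lit 0x10012) (nat_lit 0) pn))))))))))))))))))))))))) :=
  Cl.node (nat_lit 0x3c4aa) (nat_lit 12) (by decide +kernel) (ClAll.succ (ClAll.succ (ClAll.succ (ClAll.succ (ClAll.succ (ClAll.succ (ClAll.succ (ClAll.succ (ClAll.succ (ClAll.succ (ClAll.succ (ClAll.succ ClAll.zero s436) s437) s438) s439) s440) s441) s442) n90) s447) s448) s449) s450)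

def n124 : Cl (O (nat_lit 5)) (R (nat_lit 143633))
    (p (nat_lit 0x111) (nat_lit 1) (p (nat_lit 0x109) (nat_lit 0) (p (nat_lit 0xc9) (nat_lit 1) (p (nat_lit 0x119) (nat_lit 1) (p (nat_lit 0xc1) (nat_lit 0) (p (nat_lit 0x81) (nat_lit 1) (p (nat_lit 0x41) (nat_lit 1) (p (nat_lit 0x10a898a08881a) (nat_lit 0) (p (nat_lit 0xa090988079a) (nat_lit 0) (p (nat_lit 0x108088907871a) (nat_lit 0) (p (nat_lit 0x7880887069a) (nat_lit 0) (p (nat_lit 0x8000000000800088806860a) (nat_lit 0) (p (nat_lit 0x8000000000800068786058a) (nat_lit 0) (p (nat_lit 0x10687058502) (nat_lit 0) (p (nat_lit 0x606850482) (nat_lit 0) (p (nat_lit 0x16000c) (nat_lit 0) (p (nat_lit 0x68612) (nat_lit 0) (p (nat_lit 0x50592) (nat_lit 0) (p (nat_lit 0x40512) (nat_lit 0) (p (nat_lit 0x50312) (nat_lit 0) (p (nat_lit 0x38292) (nat_lit 0) (p (nat_lit 0x28212) (nat_lit 0) (p (nat_lit 0x38112) (nat_lit 0) (p (nat_lit 0x20092) (nat_lit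 0) (p (nat_lit 0x10012) (nat_lit 0) pn))))))))))))))))))))))))) :=
  Cl.node (nat_lit 0x3c4aa) (nat_lit 12) (by decide +kernel) (ClAll.succ (ClAll.succ (ClAll.succ (ClAll.succ (ClAll.succ (ClAll.succ (ClAll.succ (ClAll.succ (ClAll.succ (ClAll.succ (ClAll.succ (ClAll.succ ClAll.zero s452) s453) s454) s455) s456) s457) s458) n91) s470) s471) s472) s473)

def n125 : Cl (O (nat_lit 5)) (R (nat_lit 143633))
    (p (nat_lit 0x109) (nat_lit 1) (p (nat_lit 0x101) (nat_lit 0) (p (nat_lit 0x119) (nat_lit 0) (p (nat_lit 0xd1) (nat_lit 0) (p (nat_lit 0x89) (nat_lit 0) (p (nat_lit 0x41) (nat_lit 0) (p (nat_lit 0x10a898a08881a) (nat_lit 0) (p (nat_lit 0xa090988079a) (nat_lit 0) (p (nat_lit 0x108088907871a) (nat_lit 0) (p (nat_lit 0x7880887069a) (nat_lit 0) (p (nat_lit 0x8000000000800088806860a) (nat_lit 0) (p (nat_lit 0x8000000000800068786058a) (nat_lit 0) (p (nat_lit 0x10687058502) (nat_lit 0) (p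 (nat_lit 0x606850482) (nat_lit 0) (p (nat_lit 0x16000c) (nat_lit 0) (p (nat_lit 0x68612) (nat_lit 0) (p (nat_lit 0x50592) (nat_lit 0) (p (nat_lit 0x40512) (nat_lit 0) (p (nat_lit 0x50312) (nat_lit 0) (p (nat_lit 0x38292) (nat_lit 0) (p (nat_lit 0x28212) (nat_lit 0) (p (nat_lit 0x38112) (nat_lit 0) (p (nat_lit 0x20092) (nat_lit 0) (p (nat_lit 0x10012) (nat_lit 0) pn)))))))))))))))))))))))) :=
  Cl.node (nat_lit 0xc9) (nat_lit 2) (by decide +kernel) (ClAll.succ (ClAll.succ ClAll.zero s1) n92)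

def n126 : Cl (O (nat_lit 5)) (R (nat_lit 143633))
    (p (nat_lit 0x81) (nat_lit 0) (p (nat_lit 0x101) (nat_lit 1) (p (nat_lit 0x119) (nat_lit 0) (p (nat_lit 0xd1) (nat_lit 0) (p (nat_lit 0x89) (nat_lit 0) (p (nat_lit 0x41) (nat_lit 0) (p (nat_lit 0x10a898a08881a) (nat_lit 0) (p (nat_lit 0xa090988079a) (nat_lit 0) (p (nat_lit 0x108088907871a) (nat_lit 0) (p (nat_lit 0x7880887069a) (nat_lit 0) (p (nat_lit 0x8000000000800088806860a) (nat_lit 0) (p (nat_lit 0x8000000000800068786058a) (nat_lit 0) (p (nat_lit 0x10687058502) (nat_lit 0) (p (nat_lit 0x606850482) (nat_lit 0) (p (nat_lit 0x16000c) (nat_lit 0) (p (nat_lit 0x68612) (nat_lit 0) (p (nat_lit 0x50592) (nat_lit 0) (p (nat_lit 0x40512) (nat_lit 0) (p (nat_lit 0x50312) (nat_lit 0) (p (nat_lit 0x38292) (nat_lit 0) (p (nat_lit 0x28212) (nat_lit 0) (p (nat_lit 0x38112) (nat_lit 0) (p (nat_lit 0x20092) (nat_lit 0) (p (nat_lit 0x10012)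 (nat_lit 0) pn)))))))))))))))))))))))) :=
  Cl.node (nat_lit 0xc9) (nat_lit 2) (by decide +kernel) (ClAll.succ (ClAll.succ ClAll.zero n93) n94)

def n127 : Cl (O (nat_lit 5)) (R (nat_lit 143633))
    (p (nat_lit 0x81) (nat_lit 1) (p (nat_lit 0x101) (nat_lit 1) (p (nat_lit 0x119) (nat_lit 0) (p (nat_lit 0xd1) (nat_lit 0) (p (nat_lit 0x89) (nat_lit 0) (p (nat_lit 0x41) (nat_lit 0) (p (nat_lit 0x10a898a08881a) (nat_lit 0) (p (nat_lit 0xa090988079a) (nat_lit 0) (p (nat_lit 0x108088907871a) (nat_lit 0) (p (nat_lit 0x7880887069a) (nat_lit 0) (p (nat_lit 0x8000000000800088806860a) (nat_lit 0) (p (nat_lit 0x8000000000800068786058a) (nat_lit 0) (p (nat_lit 0x10687058502) (nat_lit 0) (p (nat_lit 0x606850482) (nat_lit 0) (p (nat_lit 0x16000c) (nat_lit 0) (p (nat_lit 0x68612) (nat_lit 0) (p (nat_lit 0x50592) (nat_lit 0) (p (nat_lit 0x40512) (nat_lit 0) (p (nat_lit 0x50312) (nat_lit 0) (p (nat_lit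 0x38292) (nat_lit 0) (p (nat_lit 0x28212) (nat_lit 0) (p (nat_lit 0x38112) (nat_lit 0) (p (nat_lit 0x20092) (nat_lit 0) (p (nat_lit 0x10012) (nat_lit 0) pn)))))))))))))))))))))))) :=
  Cl.node (nat_lit 0xc1) (nat_lit 2) (by decide +kernel) (ClAll.succ (ClAll.succ ClAll.zero n95) s41)

def n128 : Cl (O (nat_lit 5)) (R (nat_lit 143633))
    (p (nat_lit 0xc9) (nat_lit 1) (p (nat_lit 0xc1) (nat_lit 0) (p (nat_lit 0x119) (nat_lit 1) (p (nat_lit 0xd1) (nat_lit 0) (p (nat_lit 0x89) (nat_lit 0) (p (nat_lit 0x41) (nat_lit 0) (p (nat_lit 0x10a898a08881a) (nat_lit 0) (p (nat_lit 0xa090988079a) (nat_lit 0) (p (nat_lit 0x108088907871a) (nat_lit 0) (p (nat_lit 0x7880887069a) (nat_lit 0) (p (nat_lit 0x8000000000800088806860a) (nat_lit 0) (p (nat_lit 0x8000000000800068786058a) (nat_lit 0) (p (nat_lit 0x10687058502) (nat_lit 0) (p (nat_lit 0x606850482) (nat_lit 0) (p (nat_lit 0x16000c) (nat_lit 0) (p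 (nat_lit 0x68612) (nat_lit 0) (p (nat_lit 0x50592) (nat_lit 0) (p (nat_lit 0x40512) (nat_lit 0) (p (nat_lit 0x50312) (nat_lit 0) (p (nat_lit 0x38292) (nat_lit 0) (p (nat_lit 0x28212) (nat_lit 0) (p (nat_lit 0x38112) (nat_lit 0) (p (nat_lit 0x20092) (nat_lit 0) (p (nat_lit 0x10012) (nat_lit 0) pn)))))))))))))))))))))))) :=
  Cl.node (nat_lit 0x109) (nat_lit 2) (by decide +kernel) (ClAll.succ (ClAll.succ ClAll.zero s43) n96)

def n129 : Cl (O (nat_lit 5)) (R (nat_lit 143633))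
    (p (nat_lit 0x81) (nat_lit 0) (p (nat_lit 0xc1) (nat_lit 1) (p (nat_lit 0x119) (nat_lit 1) (p (nat_lit 0xd1) (nat_lit 0) (p (nat_lit 0x89) (nat_lit 0) (p (nat_lit 0x41) (nat_lit 0) (p (nat_lit 0x10a898a08881a) (nat_lit 0) (p (nat_lit 0xa090988079a) (nat_lit 0) (p (nat_lit 0x108088907871a) (nat_lit 0) (p (nat_lit 0x7880887069a) (nat_lit 0) (p (nat_lit 0x8000000000800088806860a) (nat_lit 0) (p (nat_lit 0x8000000000800068786058a) (nat_lit 0) (p (nat_lit 0x10687058502) (nat_lit 0) (p (nat_lit 0x606850482) (nat_lit 0) (p (nat_lit 0x16000c) (nat_lit 0) (p (nat_lit 0x68612) (nat_lit 0) (p (nat_lit 0x50592) (nat_lit 0) (p (nat_lit 0x40512) (nat_lit 0) (p (nat_lit 0x50312) (nat_lit 0) (p (nat_lit 0x38292) (nat_lit 0) (p (nat_lit 0x28212) (nat_lit 0) (p (nat_lit 0x38112) (nat_lit 0) (p (nat_lit 0x20092) (nat_lit 0) (p (nat_lit 0x10012) (nat_lit 0) pn)))))))))))))))))))))))) :=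
  Cl.node (nat_lit 0x109) (nat_lit 2) (by decide +kernel) (ClAll.succ (ClAll.succ ClAll.zero s58) n97)

def n130 : Cl (O (nat_lit 5)) (R (nat_lit 143633))
    (p (nat_lit 0x81) (nat_lit 1) (p (nat_lit 0xc1) (nat_lit 1) (p (nat_lit 0x119) (nat_lit 1) (p (nat_lit 0xd1) (nat_lit 0) (p (nat_lit 0x89) (nat_lit 0) (p (nat_lit 0x41) (nat_lit 0) (p (nat_lit 0x10a898a08881a) (nat_lit 0) (p (nat_lit 0xa090988079a) (nat_lit 0) (p (nat_lit 0x108088907871a) (nat_lit 0) (p (nat_lit 0x7880887069a) (nat_lit 0) (p (nat_lit 0x8000000000800088806860a) (nat_lit 0) (p (nat_lit 0x8000000000800068786058a) (nat_lit 0) (p (nat_lit 0x10687058502) (nat_lit 0) (p (nat_lit 0x606850482) (nat_lit 0) (p (nat_lit 0x16000c) (nat_lit 0) (p (nat_lit 0x68612) (nat_lit 0) (p (nat_lit 0x50592) (nat_lit 0) (p (nat_lit 0x40512) (nat_lit 0) (p (nat_lit 0x50312) (nat_lit 0) (p (nat_lit 0x38292) (nat_lit 0) (p (nat_lit 0x28212)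 (nat_lit 0) (p (nat_lit 0x38112) (nat_lit 0) (p (nat_lit 0x20092) (nat_lit 0) (p (nat_lit 0x10012) (nat_lit 0) pn)))))))))))))))))))))))) :=
  Cl.node (nat_lit 0x101) (nat_lit 2) (by decide +kernel) (ClAll.succ (ClAll.succ ClAll.zero n98) s84)

def n131 : Cl (O (nat_lit 5)) (R (nat_lit 143633))
    (p (nat_lit 0x109) (nat_lit 1) (p (nat_lit 0x101) (nat_lit 0) (p (nat_lit 0x111) (nat_lit 0) (p (nat_lit 0xd1) (nat_lit 1) (p (nat_lit 0x89) (nat_lit 0) (p (nat_lit 0x41) (nat_lit 0) (p (nat_lit 0x10a898a08881a) (nat_lit 0) (p (nat_lit 0xa090988079a) (nat_lit 0) (p (nat_lit 0x108088907871a) (nat_lit 0) (p (nat_lit 0x7880887069a) (nat_lit 0) (p (nat_lit 0x8000000000800088806860a) (nat_lit 0) (p (nat_lit 0x8000000000800068786058a) (nat_lit 0) (p (nat_lit 0x10687058502) (nat_lit 0) (p (nat_lit 0x606850482) (nat_lit 0) (p (nat_lit 0x16000c) (nat_lit 0) (p (nat_lit 0x68612) (nat_lit 0) (p (nat_lit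 0x50592) (nat_lit 0) (p (nat_lit 0x40512) (nat_lit 0) (p (nat_lit 0x50312) (nat_lit 0) (p (nat_lit 0x38292) (nat_lit 0) (p (nat_lit 0x28212) (nat_lit 0) (p (nat_lit 0x38112) (nat_lit 0) (p (nat_lit 0x20092) (nat_lit 0) (p (nat_lit 0x10012) (nat_lit 0) pn)))))))))))))))))))))))) :=
  Cl.node (nat_lit 0xc1) (nat_lit 2) (by decide +kernel) (ClAll.succ (ClAll.succ ClAll.zero s86) s87)

def n132 : Cl (O (nat_lit 5)) (R (nat_lit 143633))
    (p (nat_lit 0x81) (nat_lit 0) (p (nat_lit 0x101) (nat_lit 1) (p (nat_lit 0x111) (nat_lit 0) (p (nat_lit 0xd1) (nat_lit 1) (p (nat_lit 0x89) (nat_lit 0) (p (nat_lit 0x41) (nat_lit 0) (p (nat_lit 0x10a898a08881a) (nat_lit 0) (p (nat_lit 0xa090988079a) (nat_lit 0) (p (nat_lit 0x108088907871a) (nat_lit 0) (p (nat_lit 0x7880887069a) (nat_lit 0) (p (nat_lit 0x8000000000800088806860a) (nat_lit 0) (p (nat_lit 0x8000000000800068786058a) (nat_lit 0) (p (nat_lit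 0x10687058502) (nat_lit 0) (p (nat_lit 0x606850482) (nat_lit 0) (p (nat_lit 0x16000c) (nat_lit 0) (p (nat_lit 0x68612) (nat_lit 0) (p (nat_lit 0x50592) (nat_lit 0) (p (nat_lit 0x40512) (nat_lit 0) (p (nat_lit 0x50312) (nat_lit 0) (p (nat_lit 0x38292) (nat_lit 0) (p (nat_lit 0x28212) (nat_lit 0) (p (nat_lit 0x38112) (nat_lit 0) (p (nat_lit 0x20092) (nat_lit 0) (p (nat_lit 0x10012) (nat_lit 0) pn)))))))))))))))))))))))) :=
  Cl.node (nat_lit 0x119) (nat_lit 2) (by decide +kernel) (ClAll.succ (ClAll.succ ClAll.zero n99) s90)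

def n133 : Cl (O (nat_lit 5)) (R (nat_lit 143633))
    (p (nat_lit 0x81) (nat_lit 1) (p (nat_lit 0x101) (nat_lit 1) (p (nat_lit 0x111) (nat_lit 0) (p (nat_lit 0xd1) (nat_lit 1) (p (nat_lit 0x89) (nat_lit 0) (p (nat_lit 0x41) (nat_lit 0) (p (nat_lit 0x10a898a08881a) (nat_lit 0) (p (nat_lit 0xa090988079a) (nat_lit 0) (p (nat_lit 0x108088907871a) (nat_lit 0) (p (nat_lit 0x7880887069a) (nat_lit 0) (p (nat_lit 0x8000000000800088806860a) (nat_lit 0) (p (nat_lit 0x8000000000800068786058a) (nat_lit 0) (p (nat_lit 0x10687058502) (nat_lit 0) (p (nat_lit 0x606850482) (nat_lit 0) (p (nat_lit 0x16000c) (nat_lit 0) (p (nat_lit 0x68612) (nat_lit 0) (p (nat_lit 0x50592) (nat_lit 0) (p (nat_lit 0x40512) (nat_lit 0) (p (nat_lit 0x50312) (nat_lit 0) (p (nat_lit 0x38292) (nat_lit 0) (p (nat_lit 0x28212) (nat_lit 0) (p (nat_lit 0x38112) (nat_lit 0) (p (nat_lit 0x20092) (nat_lit 0) (p (nat_lit 0x10012)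 (nat_lit 0) pn)))))))))))))))))))))))) :=
  Cl.node (nat_lit 0xc1) (nat_lit 2) (by decide +kernel) (ClAll.succ (ClAll.succ ClAll.zero n100) s93)

def n134 : Cl (O (nat_lit 5)) (R (nat_lit 143633))
    (p (nat_lit 0x109) (nat_lit 0) (p (nat_lit 0x101) (nat_lit 0) (p (nat_lit 0x119) (nat_lit 0) (p (nat_lit 0xc9) (nat_lit 0) (p (nat_lit 0x89) (nat_lit 1) (p (nat_lit 0x41) (nat_lit 0) (p (nat_lit 0x10a898a08881a) (nat_lit 0) (p (nat_lit 0xa090988079a) (nat_lit 0) (p (nat_lit 0x108088907871a) (nat_lit 0) (p (nat_lit 0x7880887069a) (nat_lit 0) (p (nat_lit 0x8000000000800088806860a) (nat_lit 0) (p (nat_lit 0x8000000000800068786058a) (nat_lit 0) (p (nat_lit 0x10687058502) (nat_lit 0) (p (nat_lit 0x606850482) (nat_lit 0) (p (nat_lit 0x16000c) (nat_lit 0) (p (nat_lit 0x68612) (nat_lit 0) (p (nat_lit 0x50592) (nat_lit 0) (p (nat_lit 0x40512) (nat_lit 0) (p (nat_lit 0x50312) (nat_lit 0) (p (nat_lit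 0x38292) (nat_lit 0) (p (nat_lit 0x28212) (nat_lit 0) (p (nat_lit 0x38112) (nat_lit 0) (p (nat_lit 0x20092) (nat_lit 0) (p (nat_lit 0x10012) (nat_lit 0) pn)))))))))))))))))))))))) :=
  Cl.node (nat_lit 0x111) (nat_lit 2) (by decide +kernel) (ClAll.succ (ClAll.succ ClAll.zero s97) n101)

def n135 : Cl (O (nat_lit 5)) (R (nat_lit 143633))
    (p (nat_lit 0x109) (nat_lit 1) (p (nat_lit 0x101) (nat_lit 0) (p (nat_lit 0x119) (nat_lit 0) (p (nat_lit 0xc9) (nat_lit 0) (p (nat_lit 0x89) (nat_lit 1) (p (nat_lit 0x41) (nat_lit 0) (p (nat_lit 0x10a898a08881a) (nat_lit 0) (p (nat_lit 0xa090988079a) (nat_lit 0) (p (nat_lit 0x108088907871a) (nat_lit 0) (p (nat_lit 0x7880887069a) (nat_lit 0) (p (nat_lit 0x8000000000800088806860a) (nat_lit 0) (p (nat_lit 0x8000000000800068786058a) (nat_lit 0) (p (nat_lit 0x10687058502) (nat_lit 0) (p (nat_lit 0x606850482) (nat_lit 0) (p (nat_lit 0x16000c) (nat_lit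 0) (p (nat_lit 0x68612) (nat_lit 0) (p (nat_lit 0x50592) (nat_lit 0) (p (nat_lit 0x40512) (nat_lit 0) (p (nat_lit 0x50312) (nat_lit 0) (p (nat_lit 0x38292) (nat_lit 0) (p (nat_lit 0x28212) (nat_lit 0) (p (nat_lit 0x38112) (nat_lit 0) (p (nat_lit 0x20092) (nat_lit 0) (p (nat_lit 0x10012) (nat_lit 0) pn)))))))))))))))))))))))) :=
  Cl.node (nat_lit 0xd1) (nat_lit 2) (by decide +kernel) (ClAll.succ (ClAll.succ ClAll.zero n102) n103)

def n136 : Cl (O (nat_lit 5)) (R (nat_lit 143633))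
    (p (nat_lit 0xc1) (nat_lit 0) (p (nat_lit 0x101) (nat_lit 1) (p (nat_lit 0x119) (nat_lit 0) (p (nat_lit 0xc9) (nat_lit 0) (p (nat_lit 0x89) (nat_lit 1) (p (nat_lit 0x41) (nat_lit 0) (p (nat_lit 0x10a898a08881a) (nat_lit 0) (p (nat_lit 0xa090988079a) (nat_lit 0) (p (nat_lit 0x108088907871a) (nat_lit 0) (p (nat_lit 0x7880887069a) (nat_lit 0) (p (nat_lit 0x8000000000800088806860a) (nat_lit 0) (p (nat_lit 0x8000000000800068786058a) (nat_lit 0) (p (nat_lit 0x10687058502) (nat_lit 0) (p (nat_lit 0x606850482) (nat_lit 0) (p (nat_lit 0x16000c) (nat_lit 0) (p (nat_lit 0x68612) (nat_lit 0) (p (nat_lit 0x50592) (nat_lit 0) (p (nat_lit 0x40512) (nat_lit 0) (p (nat_lit 0x50312) (nat_lit 0) (p (nat_lit 0x38292) (nat_lit 0) (p (nat_lit 0x28212) (nat_lit 0) (p (nat_lit 0x38112) (nat_lit 0) (p (nat_lit 0x20092) (nat_lit 0) (p (nat_lit 0x10012) (nat_lit 0) pn)))))))))))))))))))))))) :=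
  Cl.node (nat_lit 0xd1) (nat_lit 2) (by decide +kernel) (ClAll.succ (ClAll.succ ClAll.zero n104) n105)

def n137 : Cl (O (nat_lit 5)) (R (nat_lit 143633))
    (p (nat_lit 0xd1) (nat_lit 1) (p (nat_lit 0xc1) (nat_lit 0) (p (nat_lit 0x119) (nat_lit 1) (p (nat_lit 0xc9) (nat_lit 0) (p (nat_lit 0x89) (nat_lit 1) (p (nat_lit 0x41) (nat_lit 0) (p (nat_lit 0x10a898a08881a) (nat_lit 0) (p (nat_lit 0xa090988079a) (nat_lit 0) (p (nat_lit 0x108088907871a) (nat_lit 0) (p (nat_lit 0x7880887069a) (nat_lit 0) (p (nat_lit 0x8000000000800088806860a) (nat_lit 0) (p (nat_lit 0x8000000000800068786058a) (nat_lit 0) (p (nat_lit 0x10687058502) (nat_lit 0) (p (nat_lit 0x606850482) (nat_lit 0) (p (nat_lit 0x16000c) (nat_lit 0) (p (nat_lit 0x68612) (nat_lit 0) (p (nat_lit 0x50592) (nat_lit 0) (p (nat_lit 0x40512) (nat_lit 0) (p (nat_lit 0x50312) (nat_lit 0) (p (nat_lit 0x38292) (nat_lit 0) (p (nat_lit 0x28212)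 (nat_lit 0) (p (nat_lit 0x38112) (nat_lit 0) (p (nat_lit 0x20092) (nat_lit 0) (p (nat_lit 0x10012) (nat_lit 0) pn)))))))))))))))))))))))) :=
  Cl.node (nat_lit 0x111) (nat_lit 2) (by decide +kernel) (ClAll.succ (ClAll.succ ClAll.zero s156) n106)

def n138 : Cl (O (nat_lit 5)) (R (nat_lit 143633))
    (p (nat_lit 0x101) (nat_lit 0) (p (nat_lit 0xc1) (nat_lit 1) (p (nat_lit 0x119) (nat_lit 1) (p (nat_lit 0xc9) (nat_lit 0) (p (nat_lit 0x89) (nat_lit 1) (p (nat_lit 0x41) (nat_lit 0) (p (nat_lit 0x10a898a08881a) (nat_lit 0) (p (nat_lit 0xa090988079a) (nat_lit 0) (p (nat_lit 0x108088907871a) (nat_lit 0) (p (nat_lit 0x7880887069a) (nat_lit 0) (p (nat_lit 0x8000000000800088806860a) (nat_lit 0) (p (nat_lit 0x8000000000800068786058a) (nat_lit 0) (p (nat_lit 0x10687058502) (nat_lit 0) (p (nat_lit 0x606850482) (nat_lit 0) (p (nat_lit 0x16000c) (nat_lit 0) (p (nat_lit 0x68612) (nat_lit 0) (p (nat_lit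 0x50592) (nat_lit 0) (p (nat_lit 0x40512) (nat_lit 0) (p (nat_lit 0x50312) (nat_lit 0) (p (nat_lit 0x38292) (nat_lit 0) (p (nat_lit 0x28212) (nat_lit 0) (p (nat_lit 0x38112) (nat_lit 0) (p (nat_lit 0x20092) (nat_lit 0) (p (nat_lit 0x10012) (nat_lit 0) pn)))))))))))))))))))))))) :=
  Cl.node (nat_lit 0x111) (nat_lit 2) (by decide +kernel) (ClAll.succ (ClAll.succ ClAll.zero n107) n108)

def n139 : Cl (O (nat_lit 5)) (R (nat_lit 143633))
    (p (nat_lit 0x111) (nat_lit 0) (p (nat_lit 0x101) (nat_lit 0) (p (nat_lit 0x109) (nat_lit 0) (p (nat_lit 0xc9) (nat_lit 1) (p (nat_lit 0x89) (nat_lit 1) (p (nat_lit 0x41) (nat_lit 0) (p (nat_lit 0x10a898a08881a) (nat_lit 0) (p (nat_lit 0xa090988079a) (nat_lit 0) (p (nat_lit 0x108088907871a) (nat_lit 0) (p (nat_lit 0x7880887069a) (nat_lit 0) (p (nat_lit 0x8000000000800088806860a) (nat_lit 0) (p (nat_lit 0x8000000000800068786058a) (nat_lit 0) (p (nat_lit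 0x10687058502) (nat_lit 0) (p (nat_lit 0x606850482) (nat_lit 0) (p (nat_lit 0x16000c) (nat_lit 0) (p (nat_lit 0x68612) (nat_lit 0) (p (nat_lit 0x50592) (nat_lit 0) (p (nat_lit 0x40512) (nat_lit 0) (p (nat_lit 0x50312) (nat_lit 0) (p (nat_lit 0x38292) (nat_lit 0) (p (nat_lit 0x28212) (nat_lit 0) (p (nat_lit 0x38112) (nat_lit 0) (p (nat_lit 0x20092) (nat_lit 0) (p (nat_lit 0x10012) (nat_lit 0) pn)))))))))))))))))))))))) :=
  Cl.node (nat_lit 0x119) (nat_lit 2) (by decide +kernel) (ClAll.succ (ClAll.succ ClAll.zero s195) n109)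

def n140 : Cl (O (nat_lit 5)) (R (nat_lit 143633))
    (p (nat_lit 0x109) (nat_lit 1) (p (nat_lit 0x101) (nat_lit 0) (p (nat_lit 0x119) (nat_lit 0) (p (nat_lit 0xd1) (nat_lit 0) (p (nat_lit 0x81) (nat_lit 0) (p (nat_lit 0x41) (nat_lit 1) (p (nat_lit 0x10a898a08881a) (nat_lit 0) (p (nat_lit 0xa090988079a) (nat_lit 0) (p (nat_lit 0x108088907871a) (nat_lit 0) (p (nat_lit 0x7880887069a) (nat_lit 0) (p (nat_lit 0x8000000000800088806860a) (nat_lit 0) (p (nat_lit 0x8000000000800068786058a) (nat_lit 0) (p (nat_lit 0x10687058502) (nat_lit 0) (p (nat_lit 0x606850482) (nat_lit 0) (p (nat_lit 0x16000c) (nat_lit 0) (p (nat_lit 0x68612) (nat_lit 0) (p (nat_lit 0x50592) (nat_lit 0) (p (nat_lit 0x40512) (nat_lit 0) (p (nat_lit 0x50312) (nat_lit 0) (p (nat_lit 0x38292) (nat_lit 0) (p (nat_lit 0x28212) (nat_lit 0) (p (nat_lit 0x38112) (nat_lit 0) (p (nat_lit 0x20092) (nat_lit 0) (p (nat_lit 0x10012)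 (nat_lit 0) pn)))))))))))))))))))))))) :=
  Cl.node (nat_lit 0x89) (nat_lit 2) (by decide +kernel) (ClAll.succ (ClAll.succ ClAll.zero n110) n111)

def n141 : Cl (O (nat_lit 5)) (R (nat_lit 143633))
    (p (nat_lit 0xc1) (nat_lit 0) (p (nat_lit 0x101) (nat_lit 1) (p (nat_lit 0x119) (nat_lit 0) (p (nat_lit 0xd1) (nat_lit 0) (p (nat_lit 0x81) (nat_lit 0) (p (nat_lit 0x41) (nat_lit 1) (p (nat_lit 0x10a898a08881a) (nat_lit 0) (p (nat_lit 0xa090988079a) (nat_lit 0) (p (nat_lit 0x108088907871a) (nat_lit 0) (p (nat_lit 0x7880887069a) (nat_lit 0) (p (nat_lit 0x8000000000800088806860a) (nat_lit 0) (p (nat_lit 0x8000000000800068786058a) (nat_lit 0) (p (nat_lit 0x10687058502) (nat_lit 0) (p (nat_lit 0x606850482) (nat_lit 0) (p (nat_lit 0x16000c) (nat_lit 0) (p (nat_lit 0x68612) (nat_lit 0) (p (nat_lit 0x50592) (nat_lit 0) (p (nat_lit 0x40512) (nat_lit 0) (p (nat_lit 0x50312) (nat_lit 0) (p (nat_lit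 0x38292) (nat_lit 0) (p (nat_lit 0x28212) (nat_lit 0) (p (nat_lit 0x38112) (nat_lit 0) (p (nat_lit 0x20092) (nat_lit 0) (p (nat_lit 0x10012) (nat_lit 0) pn)))))))))))))))))))))))) :=
  Cl.node (nat_lit 0x89) (nat_lit 2) (by decide +kernel) (ClAll.succ (ClAll.succ ClAll.zero s217) n112)

def n142 : Cl (O (nat_lit 5)) (R (nat_lit 143633))
    (p (nat_lit 0xc1) (nat_lit 1) (p (nat_lit 0x101) (nat_lit 1) (p (nat_lit 0x119) (nat_lit 0) (p (nat_lit 0xd1) (nat_lit 0) (p (nat_lit 0x81) (nat_lit 0) (p (nat_lit 0x41) (nat_lit 1) (p (nat_lit 0x10a898a08881a) (nat_lit 0) (p (nat_lit 0xa090988079a) (nat_lit 0) (p (nat_lit 0x108088907871a) (nat_lit 0) (p (nat_lit 0x7880887069a) (nat_lit 0) (p (nat_lit 0x8000000000800088806860a) (nat_lit 0) (p (nat_lit 0x8000000000800068786058a) (nat_lit 0) (p (nat_lit 0x10687058502) (nat_lit 0) (p (nat_lit 0x606850482) (nat_lit 0) (p (nat_lit 0x16000c) (nat_lit 0)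 (p (nat_lit 0x68612) (nat_lit 0) (p (nat_lit 0x50592) (nat_lit 0) (p (nat_lit 0x40512) (nat_lit 0) (p (nat_lit 0x50312) (nat_lit 0) (p (nat_lit 0x38292) (nat_lit 0) (p (nat_lit 0x28212) (nat_lit 0) (p (nat_lit 0x38112) (nat_lit 0) (p (nat_lit 0x20092) (nat_lit 0) (p (nat_lit 0x10012) (nat_lit 0) pn)))))))))))))))))))))))) :=
  Cl.node (nat_lit 0x89) (nat_lit 2) (by decide +kernel) (ClAll.succ (ClAll.succ ClAll.zero s231) n113)

def n143 : Cl (O (nat_lit 5)) (R (nat_lit 143633))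
    (p (nat_lit 0xc9) (nat_lit 1) (p (nat_lit 0xc1) (nat_lit 0) (p (nat_lit 0x119) (nat_lit 1) (p (nat_lit 0xd1) (nat_lit 0) (p (nat_lit 0x81) (nat_lit 0) (p (nat_lit 0x41) (nat_lit 1) (p (nat_lit 0x10a898a08881a) (nat_lit 0) (p (nat_lit 0xa090988079a) (nat_lit 0) (p (nat_lit 0x108088907871a) (nat_lit 0) (p (nat_lit 0x7880887069a) (nat_lit 0) (p (nat_lit 0x8000000000800088806860a) (nat_lit 0) (p (nat_lit 0x8000000000800068786058a) (nat_lit 0) (p (nat_lit 0x10687058502) (nat_lit 0) (p (nat_lit 0x606850482) (nat_lit 0) (p (nat_lit 0x16000c) (nat_lit 0) (p (nat_lit 0x68612) (nat_lit 0) (p (nat_lit 0x50592) (nat_lit 0) (p (nat_lit 0x40512) (nat_lit 0) (p (nat_lit 0x50312) (nat_lit 0) (p (nat_lit 0x38292) (nat_lit 0) (p (nat_lit 0x28212) (nat_lit 0) (p (nat_lit 0x38112) (nat_lit 0) (p (nat_lit 0x20092) (nat_lit 0) (p (nat_lit 0x10012) (nat_lit 0) pn)))))))))))))))))))))))) :=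
  Cl.node (nat_lit 0x89) (nat_lit 2) (by decide +kernel) (ClAll.succ (ClAll.succ ClAll.zero s246) n114)

def n144 : Cl (O (nat_lit 5)) (R (nat_lit 143633))
    (p (nat_lit 0x101) (nat_lit 0) (p (nat_lit 0xc1) (nat_lit 1) (p (nat_lit 0x119) (nat_lit 1) (p (nat_lit 0xd1) (nat_lit 0) (p (nat_lit 0x81) (nat_lit 0) (p (nat_lit 0x41) (nat_lit 1) (p (nat_lit 0x10a898a08881a) (nat_lit 0) (p (nat_lit 0xa090988079a) (nat_lit 0) (p (nat_lit 0x108088907871a) (nat_lit 0) (p (nat_lit 0x7880887069a) (nat_lit 0) (p (nat_lit 0x8000000000800088806860a) (nat_lit 0) (p (nat_lit 0x8000000000800068786058a) (nat_lit 0) (p (nat_lit 0x10687058502) (nat_lit 0) (p (nat_lit 0x606850482) (nat_lit 0) (p (nat_lit 0x16000c) (nat_lit 0) (p (nat_lit 0x68612) (nat_lit 0) (p (nat_lit 0x50592) (nat_lit 0) (p (nat_lit 0x40512) (nat_lit 0) (p (nat_lit 0x50312) (nat_lit 0) (p (nat_lit 0x38292) (nat_lit 0) (p (nat_lit 0x28212)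 (nat_lit 0) (p (nat_lit 0x38112) (nat_lit 0) (p (nat_lit 0x20092) (nat_lit 0) (p (nat_lit 0x10012) (nat_lit 0) pn)))))))))))))))))))))))) :=
  Cl.node (nat_lit 0x89) (nat_lit 2) (by decide +kernel) (ClAll.succ (ClAll.succ ClAll.zero s278) n115)

def n145 : Cl (O (nat_lit 5)) (R (nat_lit 143633))
    (p (nat_lit 0x101) (nat_lit 1) (p (nat_lit 0xc1) (nat_lit 1) (p (nat_lit 0x119) (nat_lit 1) (p (nat_lit 0xd1) (nat_lit 0) (p (nat_lit 0x81) (nat_lit 0) (p (nat_lit 0x41) (nat_lit 1) (p (nat_lit 0x10a898a08881a) (nat_lit 0) (p (nat_lit 0xa090988079a) (nat_lit 0) (p (nat_lit 0x108088907871a) (nat_lit 0) (p (nat_lit 0x7880887069a) (nat_lit 0) (p (nat_lit 0x8000000000800088806860a) (nat_lit 0) (p (nat_lit 0x8000000000800068786058a) (nat_lit 0) (p (nat_lit 0x10687058502) (nat_lit 0) (p (nat_lit 0x606850482) (nat_lit 0) (p (nat_lit 0x16000c) (nat_lit 0) (p (nat_lit 0x68612) (nat_lit 0) (p (nat_lit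 0x50592) (nat_lit 0) (p (nat_lit 0x40512) (nat_lit 0) (p (nat_lit 0x50312) (nat_lit 0) (p (nat_lit 0x38292) (nat_lit 0) (p (nat_lit 0x28212) (nat_lit 0) (p (nat_lit 0x38112) (nat_lit 0) (p (nat_lit 0x20092) (nat_lit 0) (p (nat_lit 0x10012) (nat_lit 0) pn)))))))))))))))))))))))) :=
  Cl.node (nat_lit 0x89) (nat_lit 2) (by decide +kernel) (ClAll.succ (ClAll.succ ClAll.zero s304) n116)

def n146 : Cl (O (nat_lit 5)) (R (nat_lit 143633))
    (p (nat_lit 0x109) (nat_lit 1) (p (nat_lit 0x101) (nat_lit 0) (p (nat_lit 0x111) (nat_lit 0) (p (nat_lit 0xd1) (nat_lit 1) (p (nat_lit 0x81) (nat_lit 0) (p (nat_lit 0x41) (nat_lit 1) (p (nat_lit 0x10a898a08881a) (nat_lit 0) (p (nat_lit 0xa090988079a) (nat_lit 0) (p (nat_lit 0x108088907871a) (nat_lit 0) (p (nat_lit 0x7880887069a) (nat_lit 0) (p (nat_lit 0x8000000000800088806860a) (nat_lit 0) (p (nat_lit 0x8000000000800068786058a) (nat_lit 0) (p (nat_lit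 0x10687058502) (nat_lit 0) (p (nat_lit 0x606850482) (nat_lit 0) (p (nat_lit 0x16000c) (nat_lit 0) (p (nat_lit 0x68612) (nat_lit 0) (p (nat_lit 0x50592) (nat_lit 0) (p (nat_lit 0x40512) (nat_lit 0) (p (nat_lit 0x50312) (nat_lit 0) (p (nat_lit 0x38292) (nat_lit 0) (p (nat_lit 0x28212) (nat_lit 0) (p (nat_lit 0x38112) (nat_lit 0) (p (nat_lit 0x20092) (nat_lit 0) (p (nat_lit 0x10012) (nat_lit 0) pn)))))))))))))))))))))))) :=
  Cl.node (nat_lit 0x89) (nat_lit 2) (by decide +kernel) (ClAll.succ (ClAll.succ ClAll.zero s319) n117)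

def n147 : Cl (O (nat_lit 5)) (R (nat_lit 143633))
    (p (nat_lit 0x89) (nat_lit 0) (p (nat_lit 0x101) (nat_lit 1) (p (nat_lit 0x111) (nat_lit 0) (p (nat_lit 0xd1) (nat_lit 1) (p (nat_lit 0x81) (nat_lit 0) (p (nat_lit 0x41) (nat_lit 1) (p (nat_lit 0x10a898a08881a) (nat_lit 0) (p (nat_lit 0xa090988079a) (nat_lit 0) (p (nat_lit 0x108088907871a) (nat_lit 0) (p (nat_lit 0x7880887069a) (nat_lit 0) (p (nat_lit 0x8000000000800088806860a) (nat_lit 0) (p (nat_lit 0x8000000000800068786058a) (nat_lit 0) (p (nat_lit 0x10687058502) (nat_lit 0) (p (nat_lit 0x606850482) (nat_lit 0) (p (nat_lit 0x16000c) (nat_lit 0) (p (nat_lit 0x68612) (nat_lit 0) (p (nat_lit 0x50592) (nat_lit 0) (p (nat_lit 0x40512) (nat_lit 0) (p (nat_lit 0x50312) (nat_lit 0) (p (nat_lit 0x38292) (nat_lit 0) (p (nat_lit 0x28212) (nat_lit 0) (p (nat_lit 0x38112) (nat_lit 0) (p (nat_lit 0x20092) (nat_lit 0) (p (nat_lit 0x10012)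 (nat_lit 0) pn)))))))))))))))))))))))) :=
  Cl.node (nat_lit 0x3cc2a) (nat_lit 12) (by decide +kernel) (ClAll.succ (ClAll.succ (ClAll.succ (ClAll.succ (ClAll.succ (ClAll.succ (ClAll.succ (ClAll.succ (ClAll.succ (ClAll.succ (ClAll.succ (ClAll.succ ClAll.zero s323) s324) s325) s326) s327) s328) s329) s330) s331) s332) s333) s334)

def n148 : Cl (O (nat_lit 5)) (R (nat_lit 143633))
    (p (nat_lit 0x89) (nat_lit 1) (p (nat_lit 0x101) (nat_lit 1) (p (nat_lit 0x111) (nat_lit 0) (p (nat_lit 0xd1) (nat_lit 1) (p (nat_lit 0x81) (nat_lit 0) (p (nat_lit 0x41) (nat_lit 1) (p (nat_lit 0x10a898a08881a) (nat_lit 0) (p (nat_lit 0xa090988079a) (nat_lit 0) (p (nat_lit 0x108088907871a) (nat_lit 0) (p (nat_lit 0x7880887069a) (nat_lit 0) (p (nat_lit 0x8000000000800088806860a) (nat_lit 0) (p (nat_lit 0x8000000000800068786058a) (nat_lit 0) (p (nat_lit 0x10687058502) (nat_lit 0) (p (nat_lit 0x606850482) (nat_lit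 0) (p (nat_lit 0x16000c) (nat_lit 0) (p (nat_lit 0x68612) (nat_lit 0) (p (nat_lit 0x50592) (nat_lit 0) (p (nat_lit 0x40512) (nat_lit 0) (p (nat_lit 0x50312) (nat_lit 0) (p (nat_lit 0x38292) (nat_lit 0) (p (nat_lit 0x28212) (nat_lit 0) (p (nat_lit 0x38112) (nat_lit 0) (p (nat_lit 0x20092) (nat_lit 0) (p (nat_lit 0x10012) (nat_lit 0) pn)))))))))))))))))))))))) :=
  Cl.node (nat_lit 0xc9) (nat_lit 2) (by decide +kernel) (ClAll.succ (ClAll.succ ClAll.zero n118) s347)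

def n149 : Cl (O (nat_lit 5)) (R (nat_lit 143633))
    (p (nat_lit 0xc9) (nat_lit 1) (p (nat_lit 0x89) (nat_lit 1) (p (nat_lit 0x111) (nat_lit 1) (p (nat_lit 0xd1) (nat_lit 1) (p (nat_lit 0x81) (nat_lit 0) (p (nat_lit 0x41) (nat_lit 1) (p (nat_lit 0x10a898a08881a) (nat_lit 0) (p (nat_lit 0xa090988079a) (nat_lit 0) (p (nat_lit 0x108088907871a) (nat_lit 0) (p (nat_lit 0x7880887069a) (nat_lit 0) (p (nat_lit 0x8000000000800088806860a) (nat_lit 0) (p (nat_lit 0x8000000000800068786058a) (nat_lit 0) (p (nat_lit 0x10687058502) (nat_lit 0) (p (nat_lit 0x606850482) (nat_lit 0) (p (nat_lit 0x16000c) (nat_lit 0) (p (nat_lit 0x68612) (nat_lit 0) (p (nat_lit 0x50592) (nat_lit 0) (p (nat_lit 0x40512) (nat_lit 0) (p (nat_lit 0x50312) (nat_lit 0) (p (nat_lit 0x38292) (nat_lit 0) (p (nat_lit 0x28212) (nat_lit 0) (p (nat_lit 0x38112) (nat_lit 0) (p (nat_lit 0x20092) (nat_lit 0) (p (nat_lit 0x10012) (nat_lit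 0) pn)))))))))))))))))))))))) :=
  Cl.node (nat_lit 0x109) (nat_lit 2) (by decide +kernel) (ClAll.succ (ClAll.succ ClAll.zero s350) s351)

def n150 : Cl (O (nat_lit 5)) (R (nat_lit 143633))
    (p (nat_lit 0x109) (nat_lit 0) (p (nat_lit 0x101) (nat_lit 0) (p (nat_lit 0x119) (nat_lit 0) (p (nat_lit 0xc1) (nat_lit 0) (p (nat_lit 0x81) (nat_lit 1) (p (nat_lit 0x41) (nat_lit 1) (p (nat_lit 0x10a898a08881a) (nat_lit 0) (p (nat_lit 0xa090988079a) (nat_lit 0) (p (nat_lit 0x108088907871a) (nat_lit 0) (p (nat_lit 0x7880887069a) (nat_lit 0) (p (nat_lit 0x8000000000800088806860a) (nat_lit 0) (p (nat_lit 0x8000000000800068786058a) (nat_lit 0) (p (nat_lit 0x10687058502) (nat_lit 0) (p (nat_lit 0x606850482) (nat_lit 0) (p (nat_lit 0x16000c) (nat_lit 0) (p (nat_lit 0x68612) (nat_lit 0) (p (nat_lit 0x50592) (nat_lit 0) (p (nat_lit 0x40512) (nat_lit 0) (p (nat_lit 0x50312) (nat_lit 0) (p (nat_lit 0x38292)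 (nat_lit 0) (p (nat_lit 0x28212) (nat_lit 0) (p (nat_lit 0x38112) (nat_lit 0) (p (nat_lit 0x20092) (nat_lit 0) (p (nat_lit 0x10012) (nat_lit 0) pn)))))))))))))))))))))))) :=
  Cl.node (nat_lit 0x111) (nat_lit 2) (by decide +kernel) (ClAll.succ (ClAll.succ ClAll.zero s352) n119)

def n151 : Cl (O (nat_lit 5)) (R (nat_lit 143633))
    (p (nat_lit 0x109) (nat_lit 1) (p (nat_lit 0x101) (nat_lit 0) (p (nat_lit 0x119) (nat_lit 0) (p (nat_lit 0xc1) (nat_lit 0) (p (nat_lit 0x81) (nat_lit 1) (p (nat_lit 0x41) (nat_lit 1) (p (nat_lit 0x10a898a08881a) (nat_lit 0) (p (nat_lit 0xa090988079a) (nat_lit 0) (p (nat_lit 0x108088907871a) (nat_lit 0) (p (nat_lit 0x7880887069a) (nat_lit 0) (p (nat_lit 0x8000000000800088806860a) (nat_lit 0) (p (nat_lit 0x8000000000800068786058a) (nat_lit 0) (p (nat_lit 0x10687058502) (nat_lit 0) (p (nat_lit 0x606850482) (nat_lit 0) (p (nat_lit 0x16000c) (nat_lit 0) (p (nat_lit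 0x68612) (nat_lit 0) (p (nat_lit 0x50592) (nat_lit 0) (p (nat_lit 0x40512) (nat_lit 0) (p (nat_lit 0x50312) (nat_lit 0) (p (nat_lit 0x38292) (nat_lit 0) (p (nat_lit 0x28212) (nat_lit 0) (p (nat_lit 0x38112) (nat_lit 0) (p (nat_lit 0x20092) (nat_lit 0) (p (nat_lit 0x10012) (nat_lit 0) pn)))))))))))))))))))))))) :=
  Cl.node (nat_lit 0xc9) (nat_lit 2) (by decide +kernel) (ClAll.succ (ClAll.succ ClAll.zero n120) s397)

def n152 : Cl (O (nat_lit 5)) (R (nat_lit 143633))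
    (p (nat_lit 0xc9) (nat_lit 0) (p (nat_lit 0x101) (nat_lit 1) (p (nat_lit 0x119) (nat_lit 0) (p (nat_lit 0xc1) (nat_lit 0) (p (nat_lit 0x81) (nat_lit 1) (p (nat_lit 0x41) (nat_lit 1) (p (nat_lit 0x10a898a08881a) (nat_lit 0) (p (nat_lit 0xa090988079a) (nat_lit 0) (p (nat_lit 0x108088907871a) (nat_lit 0) (p (nat_lit 0x7880887069a) (nat_lit 0) (p (nat_lit 0x8000000000800088806860a) (nat_lit 0) (p (nat_lit 0x8000000000800068786058a) (nat_lit 0) (p (nat_lit 0x10687058502) (nat_lit 0) (p (nat_lit 0x606850482) (nat_lit 0) (p (nat_lit 0x16000c) (nat_lit 0) (p (nat_lit 0x68612) (nat_lit 0) (p (nat_lit 0x50592) (nat_lit 0) (p (nat_lit 0x40512) (nat_lit 0) (p (nat_lit 0x50312) (nat_lit 0) (p (nat_lit 0x38292) (nat_lit 0) (p (nat_lit 0x28212) (nat_lit 0) (p (nat_lit 0x38112) (nat_lit 0) (p (nat_lit 0x20092) (nat_lit 0) (p (nat_lit 0x10012) (nat_lit 0) pn)))))))))))))))))))))))) :=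
  Cl.node (nat_lit 0xd1) (nat_lit 2) (by decide +kernel) (ClAll.succ (ClAll.succ ClAll.zero n121) n122)

def n153 : Cl (O (nat_lit 5)) (R (nat_lit 143633))
    (p (nat_lit 0xd1) (nat_lit 1) (p (nat_lit 0xc9) (nat_lit 0) (p (nat_lit 0x119) (nat_lit 1) (p (nat_lit 0xc1) (nat_lit 0) (p (nat_lit 0x81) (nat_lit 1) (p (nat_lit 0x41) (nat_lit 1) (p (nat_lit 0x10a898a08881a) (nat_lit 0) (p (nat_lit 0xa090988079a) (nat_lit 0) (p (nat_lit 0x108088907871a) (nat_lit 0) (p (nat_lit 0x7880887069a) (nat_lit 0) (p (nat_lit 0x8000000000800088806860a) (nat_lit 0) (p (nat_lit 0x8000000000800068786058a) (nat_lit 0) (p (nat_lit 0x10687058502) (nat_lit 0) (p (nat_lit 0x606850482) (nat_lit 0) (p (nat_lit 0x16000c) (nat_lit 0) (p (nat_lit 0x68612) (nat_lit 0) (p (nat_lit 0x50592) (nat_lit 0) (p (nat_lit 0x40512) (nat_lit 0) (p (nat_lit 0x50312) (nat_lit 0) (p (nat_lit 0x38292) (nat_lit 0) (p (nat_lit 0x28212)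 (nat_lit 0) (p (nat_lit 0x38112) (nat_lit 0) (p (nat_lit 0x20092) (nat_lit 0) (p (nat_lit 0x10012) (nat_lit 0) pn)))))))))))))))))))))))) :=
  Cl.node (nat_lit 0x111) (nat_lit 2) (by decide +kernel) (ClAll.succ (ClAll.succ ClAll.zero s435) n123)

def n154 : Cl (O (nat_lit 5)) (R (nat_lit 143633))
    (p (nat_lit 0x109) (nat_lit 0) (p (nat_lit 0xc9) (nat_lit 1) (p (nat_lit 0x119) (nat_lit 1) (p (nat_lit 0xc1) (nat_lit 0) (p (nat_lit 0x81) (nat_lit 1) (p (nat_lit 0x41) (nat_lit 1) (p (nat_lit 0x10a898a08881a) (nat_lit 0) (p (nat_lit 0xa090988079a) (nat_lit 0) (p (nat_lit 0x108088907871a) (nat_lit 0) (p (nat_lit 0x7880887069a) (nat_lit 0) (p (nat_lit 0x8000000000800088806860a) (nat_lit 0) (p (nat_lit 0x8000000000800068786058a) (nat_lit 0) (p (nat_lit 0x10687058502) (nat_lit 0) (p (nat_lit 0x606850482) (nat_lit 0) (p (nat_lit 0x16000c) (nat_lit 0) (p (nat_lit 0x68612) (nat_lit 0) (p (nat_lit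 0x50592) (nat_lit 0) (p (nat_lit 0x40512) (nat_lit 0) (p (nat_lit 0x50312) (nat_lit 0) (p (nat_lit 0x38292) (nat_lit 0) (p (nat_lit 0x28212) (nat_lit 0) (p (nat_lit 0x38112) (nat_lit 0) (p (nat_lit 0x20092) (nat_lit 0) (p (nat_lit 0x10012) (nat_lit 0) pn)))))))))))))))))))))))) :=
  Cl.node (nat_lit 0x111) (nat_lit 2) (by decide +kernel) (ClAll.succ (ClAll.succ ClAll.zero s451) n124)

def n155 : Cl (O (nat_lit 5)) (R (nat_lit 143633))
    (p (nat_lit 0x101) (nat_lit 0) (p (nat_lit 0x119) (nat_lit 0) (p (nat_lit 0xd1) (nat_lit 0) (p (nat_lit 0x89) (nat_lit 0) (p (nat_lit 0x41) (nat_lit 0) (p (nat_lit 0x10a898a08881a) (nat_lit 0) (p (nat_lit 0xa090988079a) (nat_lit 0) (p (nat_lit 0x108088907871a) (nat_lit 0) (p (nat_lit 0x7880887069a) (nat_lit 0) (p (nat_lit 0x8000000000800088806860a) (nat_lit 0) (p (nat_lit 0x8000000000800068786058a) (nat_lit 0) (p (nat_lit 0x10687058502) (nat_lit 0)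 (p (nat_lit 0x606850482) (nat_lit 0) (p (nat_lit 0x16000c) (nat_lit 0) (p (nat_lit 0x68612) (nat_lit 0) (p (nat_lit 0x50592) (nat_lit 0) (p (nat_lit 0x40512) (nat_lit 0) (p (nat_lit 0x50312) (nat_lit 0) (p (nat_lit 0x38292) (nat_lit 0) (p (nat_lit 0x28212) (nat_lit 0) (p (nat_lit 0x38112) (nat_lit 0) (p (nat_lit 0x20092) (nat_lit 0) (p (nat_lit 0x10012) (nat_lit 0) pn))))))))))))))))))))))) :=
  Cl.node (nat_lit 0x109) (nat_lit 2) (by decide +kernel) (ClAll.succ (ClAll.succ ClAll.zero s0) n125)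

def n156 : Cl (O (nat_lit 5)) (R (nat_lit 143633))
    (p (nat_lit 0x101) (nat_lit 1) (p (nat_lit 0x119) (nat_lit 0) (p (nat_lit 0xd1) (nat_lit 0) (p (nat_lit 0x89) (nat_lit 0) (p (nat_lit 0x41) (nat_lit 0) (p (nat_lit 0x10a898a08881a) (nat_lit 0) (p (nat_lit 0xa090988079a) (nat_lit 0) (p (nat_lit 0x108088907871a) (nat_lit 0) (p (nat_lit 0x7880887069a) (nat_lit 0) (p (nat_lit 0x8000000000800088806860a) (nat_lit 0) (p (nat_lit 0x8000000000800068786058a) (nat_lit 0) (p (nat_lit 0x10687058502) (nat_lit 0) (p (nat_lit 0x606850482) (nat_lit 0) (p (nat_lit 0x16000c) (nat_lit 0) (p (nat_lit 0x68612) (nat_lit 0) (p (nat_lit 0x50592) (nat_lit 0) (p (nat_lit 0x40512) (nat_lit 0) (p (nat_lit 0x50312) (nat_lit 0) (p (nat_lit 0x38292) (nat_lit 0) (p (nat_lit 0x28212) (nat_lit 0) (p (nat_lit 0x38112) (nat_lit 0) (p (nat_lit 0x20092) (nat_lit 0) (p (nat_lit 0x10012) (nat_lit 0) pn)))))))))))))))))))))))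 :=
  Cl.node (nat_lit 0x81) (nat_lit 2) (by decide +kernel) (ClAll.succ (ClAll.succ ClAll.zero n126) n127)

def n157 : Cl (O (nat_lit 5)) (R (nat_lit 143633))
    (p (nat_lit 0xc1) (nat_lit 0) (p (nat_lit 0x119) (nat_lit 1) (p (nat_lit 0xd1) (nat_lit 0) (p (nat_lit 0x89) (nat_lit 0) (p (nat_lit 0x41) (nat_lit 0) (p (nat_lit 0x10a898a08881a) (nat_lit 0) (p (nat_lit 0xa090988079a) (nat_lit 0) (p (nat_lit 0x108088907871a) (nat_lit 0) (p (nat_lit 0x7880887069a) (nat_lit 0) (p (nat_lit 0x8000000000800088806860a) (nat_lit 0) (p (nat_lit 0x8000000000800068786058a) (nat_lit 0) (p (nat_lit 0x10687058502) (nat_lit 0) (p (nat_lit 0x606850482) (nat_lit 0) (p (nat_lit 0x16000c) (nat_lit 0) (p (nat_lit 0x68612) (nat_lit 0) (p (nat_lit 0x50592) (nat_lit 0) (p (nat_lit 0x40512) (nat_lit 0) (p (nat_lit 0x50312) (nat_lit 0) (p (nat_lit 0x38292) (nat_lit 0) (p (nat_lit 0x28212) (nat_lit 0) (p (nat_lit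 0x38112) (nat_lit 0) (p (nat_lit 0x20092) (nat_lit 0) (p (nat_lit 0x10012) (nat_lit 0) pn))))))))))))))))))))))) :=
  Cl.node (nat_lit 0xc9) (nat_lit 2) (by decide +kernel) (ClAll.succ (ClAll.succ ClAll.zero s42) n128)

def n158 : Cl (O (nat_lit 5)) (R (nat_lit 143633))
    (p (nat_lit 0xc1) (nat_lit 1) (p (nat_lit 0x119) (nat_lit 1) (p (nat_lit 0xd1) (nat_lit 0) (p (nat_lit 0x89) (nat_lit 0) (p (nat_lit 0x41) (nat_lit 0) (p (nat_lit 0x10a898a08881a) (nat_lit 0) (p (nat_lit 0xa090988079a) (nat_lit 0) (p (nat_lit 0x108088907871a) (nat_lit 0) (p (nat_lit 0x7880887069a) (nat_lit 0) (p (nat_lit 0x8000000000800088806860a) (nat_lit 0) (p (nat_lit 0x8000000000800068786058a) (nat_lit 0) (p (nat_lit 0x10687058502) (nat_lit 0) (p (nat_lit 0x606850482) (nat_lit 0) (p (nat_lit 0x16000c) (nat_lit 0) (p (nat_lit 0x68612) (nat_lit 0) (p (nat_lit 0x50592) (nat_lit 0) (p (nat_lit 0x40512) (nat_lit 0)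 (p (nat_lit 0x50312) (nat_lit 0) (p (nat_lit 0x38292) (nat_lit 0) (p (nat_lit 0x28212) (nat_lit 0) (p (nat_lit 0x38112) (nat_lit 0) (p (nat_lit 0x20092) (nat_lit 0) (p (nat_lit 0x10012) (nat_lit 0) pn))))))))))))))))))))))) :=
  Cl.node (nat_lit 0x81) (nat_lit 2) (by decide +kernel) (ClAll.succ (ClAll.succ ClAll.zero n129) n130)

def n159 : Cl (O (nat_lit 5)) (R (nat_lit 143633))
    (p (nat_lit 0x101) (nat_lit 0) (p (nat_lit 0x111) (nat_lit 0) (p (nat_lit 0xd1) (nat_lit 1) (p (nat_lit 0x89) (nat_lit 0) (p (nat_lit 0x41) (nat_lit 0) (p (nat_lit 0x10a898a08881a) (nat_lit 0) (p (nat_lit 0xa090988079a) (nat_lit 0) (p (nat_lit 0x108088907871a) (nat_lit 0) (p (nat_lit 0x7880887069a) (nat_lit 0) (p (nat_lit 0x8000000000800088806860a) (nat_lit 0) (p (nat_lit 0x8000000000800068786058a) (nat_lit 0) (p (nat_lit 0x10687058502) (nat_lit 0) (p (nat_lit 0x606850482) (nat_lit 0) (p (nat_lit 0x16000c)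 (nat_lit 0) (p (nat_lit 0x68612) (nat_lit 0) (p (nat_lit 0x50592) (nat_lit 0) (p (nat_lit 0x40512) (nat_lit 0) (p (nat_lit 0x50312) (nat_lit 0) (p (nat_lit 0x38292) (nat_lit 0) (p (nat_lit 0x28212) (nat_lit 0) (p (nat_lit 0x38112) (nat_lit 0) (p (nat_lit 0x20092) (nat_lit 0) (p (nat_lit 0x10012) (nat_lit 0) pn))))))))))))))))))))))) :=
  Cl.node (nat_lit 0x109) (nat_lit 2) (by decide +kernel) (ClAll.succ (ClAll.succ ClAll.zero s85) n131)

def n160 : Cl (O (nat_lit 5)) (R (nat_lit 143633))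
    (p (nat_lit 0x101) (nat_lit 1) (p (nat_lit 0x111) (nat_lit 0) (p (nat_lit 0xd1) (nat_lit 1) (p (nat_lit 0x89) (nat_lit 0) (p (nat_lit 0x41) (nat_lit 0) (p (nat_lit 0x10a898a08881a) (nat_lit 0) (p (nat_lit 0xa090988079a) (nat_lit 0) (p (nat_lit 0x108088907871a) (nat_lit 0) (p (nat_lit 0x7880887069a) (nat_lit 0) (p (nat_lit 0x8000000000800088806860a) (nat_lit 0) (p (nat_lit 0x8000000000800068786058a) (nat_lit 0) (p (nat_lit 0x10687058502) (nat_lit 0) (p (nat_lit 0x606850482) (nat_lit 0) (p (nat_lit 0x16000c) (nat_lit 0) (p (nat_lit 0x68612) (nat_lit 0) (p (nat_lit 0x50592) (nat_lit 0) (p (nat_lit 0x40512) (nat_lit 0) (p (nat_lit 0x50312) (nat_lit 0) (p (nat_lit 0x38292) (nat_lit 0) (p (nat_lit 0x28212) (nat_lit 0) (p (nat_lit 0x38112) (nat_lit 0) (p (nat_lit 0x20092) (nat_lit 0) (p (nat_lit 0x10012) (nat_lit 0) pn))))))))))))))))))))))) :=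
  Cl.node (nat_lit 0x81) (nat_lit 2) (by decide +kernel) (ClAll.succ (ClAll.succ ClAll.zero n132) n133)

def n161 : Cl (O (nat_lit 5)) (R (nat_lit 143633))
    (p (nat_lit 0x81) (nat_lit 1) (p (nat_lit 0x111) (nat_lit 1) (p (nat_lit 0xd1) (nat_lit 1) (p (nat_lit 0x89) (nat_lit 0) (p (nat_lit 0x41) (nat_lit 0) (p (nat_lit 0x10a898a08881a) (nat_lit 0) (p (nat_lit 0xa090988079a) (nat_lit 0) (p (nat_lit 0x108088907871a) (nat_lit 0) (p (nat_lit 0x7880887069a) (nat_lit 0) (p (nat_lit 0x8000000000800088806860a) (nat_lit 0) (p (nat_lit 0x8000000000800068786058a) (nat_lit 0) (p (nat_lit 0x10687058502) (nat_lit 0) (p (nat_lit 0x606850482) (nat_lit 0) (p (nat_lit 0x16000c) (nat_lit 0) (p (nat_lit 0x68612) (nat_lit 0) (p (nat_lit 0x50592) (nat_lit 0) (p (nat_lit 0x40512) (nat_lit 0) (p (nat_lit 0x50312) (nat_lit 0) (p (nat_lit 0x38292) (nat_lit 0) (p (nat_lit 0x28212) (nat_lit 0) (p (nat_lit 0x38112)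 (nat_lit 0) (p (nat_lit 0x20092) (nat_lit 0) (p (nat_lit 0x10012) (nat_lit 0) pn))))))))))))))))))))))) :=
  Cl.node (nat_lit 0xc1) (nat_lit 2) (by decide +kernel) (ClAll.succ (ClAll.succ ClAll.zero s95) s96)

def n162 : Cl (O (nat_lit 5)) (R (nat_lit 143633))
    (p (nat_lit 0x101) (nat_lit 0) (p (nat_lit 0x119) (nat_lit 0) (p (nat_lit 0xc9) (nat_lit 0) (p (nat_lit 0x89) (nat_lit 1) (p (nat_lit 0x41) (nat_lit 0) (p (nat_lit 0x10a898a08881a) (nat_lit 0) (p (nat_lit 0xa090988079a) (nat_lit 0) (p (nat_lit 0x108088907871a) (nat_lit 0) (p (nat_lit 0x7880887069a) (nat_lit 0) (p (nat_lit 0x8000000000800088806860a) (nat_lit 0) (p (nat_lit 0x8000000000800068786058a) (nat_lit 0) (p (nat_lit 0x10687058502) (nat_lit 0) (p (nat_lit 0x606850482) (nat_lit 0) (p (nat_lit 0x16000c) (nat_lit 0) (p (nat_lit 0x68612) (nat_lit 0) (p (nat_lit 0x50592) (nat_lit 0) (p (nat_lit 0x40512) (nat_lit 0) (p (nat_lit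 0x50312) (nat_lit 0) (p (nat_lit 0x38292) (nat_lit 0) (p (nat_lit 0x28212) (nat_lit 0) (p (nat_lit 0x38112) (nat_lit 0) (p (nat_lit 0x20092) (nat_lit 0) (p (nat_lit 0x10012) (nat_lit 0) pn))))))))))))))))))))))) :=
  Cl.node (nat_lit 0x109) (nat_lit 2) (by decide +kernel) (ClAll.succ (ClAll.succ ClAll.zero n134) n135)

def n163 : Cl (O (nat_lit 5)) (R (nat_lit 143633))
    (p (nat_lit 0x101) (nat_lit 1) (p (nat_lit 0x119) (nat_lit 0) (p (nat_lit 0xc9) (nat_lit 0) (p (nat_lit 0x89) (nat_lit 1) (p (nat_lit 0x41) (nat_lit 0) (p (nat_lit 0x10a898a08881a) (nat_lit 0) (p (nat_lit 0xa090988079a) (nat_lit 0) (p (nat_lit 0x108088907871a) (nat_lit 0) (p (nat_lit 0x7880887069a) (nat_lit 0) (p (nat_lit 0x8000000000800088806860a) (nat_lit 0) (p (nat_lit 0x8000000000800068786058a) (nat_lit 0) (p (nat_lit 0x10687058502) (nat_lit 0) (p (nat_lit 0x606850482) (nat_lit 0) (p (nat_lit 0x16000c) (nat_lit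 0) (p (nat_lit 0x68612) (nat_lit 0) (p (nat_lit 0x50592) (nat_lit 0) (p (nat_lit 0x40512) (nat_lit 0) (p (nat_lit 0x50312) (nat_lit 0) (p (nat_lit 0x38292) (nat_lit 0) (p (nat_lit 0x28212) (nat_lit 0) (p (nat_lit 0x38112) (nat_lit 0) (p (nat_lit 0x20092) (nat_lit 0) (p (nat_lit 0x10012) (nat_lit 0) pn))))))))))))))))))))))) :=
  Cl.node (nat_lit 0xc1) (nat_lit 2) (by decide +kernel) (ClAll.succ (ClAll.succ ClAll.zero n136) s154)

def n164 : Cl (O (nat_lit 5)) (R (nat_lit 143633))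
    (p (nat_lit 0xc1) (nat_lit 0) (p (nat_lit 0x119) (nat_lit 1) (p (nat_lit 0xc9) (nat_lit 0) (p (nat_lit 0x89) (nat_lit 1) (p (nat_lit 0x41) (nat_lit 0) (p (nat_lit 0x10a898a08881a) (nat_lit 0) (p (nat_lit 0xa090988079a) (nat_lit 0) (p (nat_lit 0x108088907871a) (nat_lit 0) (p (nat_lit 0x7880887069a) (nat_lit 0) (p (nat_lit 0x8000000000800088806860a) (nat_lit 0) (p (nat_lit 0x8000000000800068786058a) (nat_lit 0) (p (nat_lit 0x10687058502) (nat_lit 0) (p (nat_lit 0x606850482) (nat_lit 0) (p (nat_lit 0x16000c) (nat_lit 0) (p (nat_lit 0x68612) (nat_lit 0) (p (nat_lit 0x50592) (nat_lit 0) (p (nat_lit 0x40512) (nat_lit 0) (p (nat_lit 0x50312) (nat_lit 0) (p (nat_lit 0x38292) (nat_lit 0) (p (nat_lit 0x28212) (nat_lit 0) (p (nat_lit 0x38112) (nat_lit 0) (p (nat_lit 0x20092) (nat_lit 0) (p (nat_lit 0x10012) (nat_lit 0) pn))))))))))))))))))))))) :=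
  Cl.node (nat_lit 0xd1) (nat_lit 2) (by decide +kernel) (ClAll.succ (ClAll.succ ClAll.zero s155) n137)

def n165 : Cl (O (nat_lit 5)) (R (nat_lit 143633))
    (p (nat_lit 0xc1) (nat_lit 1) (p (nat_lit 0x119) (nat_lit 1) (p (nat_lit 0xc9) (nat_lit 0) (p (nat_lit 0x89) (nat_lit 1) (p (nat_lit 0x41) (nat_lit 0) (p (nat_lit 0x10a898a08881a) (nat_lit 0) (p (nat_lit 0xa090988079a) (nat_lit 0) (p (nat_lit 0x108088907871a) (nat_lit 0) (p (nat_lit 0x7880887069a) (nat_lit 0) (p (nat_lit 0x8000000000800088806860a) (nat_lit 0) (p (nat_lit 0x8000000000800068786058a) (nat_lit 0) (p (nat_lit 0x10687058502) (nat_lit 0) (p (nat_lit 0x606850482) (nat_lit 0) (p (nat_lit 0x16000c) (nat_lit 0) (p (nat_lit 0x68612) (nat_lit 0) (p (nat_lit 0x50592) (nat_lit 0) (p (nat_lit 0x40512) (nat_lit 0) (p (nat_lit 0x50312) (nat_lit 0) (p (nat_lit 0x38292) (nat_lit 0) (p (nat_lit 0x28212) (nat_lit 0) (p (nat_lit 0x38112)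 (nat_lit 0) (p (nat_lit 0x20092) (nat_lit 0) (p (nat_lit 0x10012) (nat_lit 0) pn))))))))))))))))))))))) :=
  Cl.node (nat_lit 0x101) (nat_lit 2) (by decide +kernel) (ClAll.succ (ClAll.succ ClAll.zero n138) s194)

def n166 : Cl (O (nat_lit 5)) (R (nat_lit 143633))
    (p (nat_lit 0x101) (nat_lit 0) (p (nat_lit 0x109) (nat_lit 0) (p (nat_lit 0xc9) (nat_lit 1) (p (nat_lit 0x89) (nat_lit 1) (p (nat_lit 0x41) (nat_lit 0) (p (nat_lit 0x10a898a08881a) (nat_lit 0) (p (nat_lit 0xa090988079a) (nat_lit 0) (p (nat_lit 0x108088907871a) (nat_lit 0) (p (nat_lit 0x7880887069a) (nat_lit 0) (p (nat_lit 0x8000000000800088806860a) (nat_lit 0) (p (nat_lit 0x8000000000800068786058a) (nat_lit 0) (p (nat_lit 0x10687058502) (nat_lit 0) (p (nat_lit 0x606850482) (nat_lit 0) (p (nat_lit 0x16000c) (nat_lit 0) (p (nat_lit 0x68612) (nat_lit 0) (p (nat_lit 0x50592) (nat_lit 0) (p (nat_lit 0x40512) (nat_lit 0) (p (nat_lit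 0x50312) (nat_lit 0) (p (nat_lit 0x38292) (nat_lit 0) (p (nat_lit 0x28212) (nat_lit 0) (p (nat_lit 0x38112) (nat_lit 0) (p (nat_lit 0x20092) (nat_lit 0) (p (nat_lit 0x10012) (nat_lit 0) pn))))))))))))))))))))))) :=
  Cl.node (nat_lit 0x111) (nat_lit 2) (by decide +kernel) (ClAll.succ (ClAll.succ ClAll.zero n139) s209)

def n167 : Cl (O (nat_lit 5)) (R (nat_lit 143633))
    (p (nat_lit 0x101) (nat_lit 0) (p (nat_lit 0x119) (nat_lit 0) (p (nat_lit 0xd1) (nat_lit 0) (p (nat_lit 0x81) (nat_lit 0) (p (nat_lit 0x41) (nat_lit 1) (p (nat_lit 0x10a898a08881a) (nat_lit 0) (p (nat_lit 0xa090988079a) (nat_lit 0) (p (nat_lit 0x108088907871a) (nat_lit 0) (p (nat_lit 0x7880887069a) (nat_lit 0) (p (nat_lit 0x8000000000800088806860a) (nat_lit 0) (p (nat_lit 0x8000000000800068786058a) (nat_lit 0) (p (nat_lit 0x10687058502) (nat_lit 0) (p (nat_lit 0x606850482) (nat_lit 0) (p (nat_lit 0x16000c) (nat_lit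 0) (p (nat_lit 0x68612) (nat_lit 0) (p (nat_lit 0x50592) (nat_lit 0) (p (nat_lit 0x40512) (nat_lit 0) (p (nat_lit 0x50312) (nat_lit 0) (p (nat_lit 0x38292) (nat_lit 0) (p (nat_lit 0x28212) (nat_lit 0) (p (nat_lit 0x38112) (nat_lit 0) (p (nat_lit 0x20092) (nat_lit 0) (p (nat_lit 0x10012) (nat_lit 0) pn))))))))))))))))))))))) :=
  Cl.node (nat_lit 0x109) (nat_lit 2) (by decide +kernel) (ClAll.succ (ClAll.succ ClAll.zero s212) n140)

def n168 : Cl (O (nat_lit 5)) (R (nat_lit 143633))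
    (p (nat_lit 0x101) (nat_lit 1) (p (nat_lit 0x119) (nat_lit 0) (p (nat_lit 0xd1) (nat_lit 0) (p (nat_lit 0x81) (nat_lit 0) (p (nat_lit 0x41) (nat_lit 1) (p (nat_lit 0x10a898a08881a) (nat_lit 0) (p (nat_lit 0xa090988079a) (nat_lit 0) (p (nat_lit 0x108088907871a) (nat_lit 0) (p (nat_lit 0x7880887069a) (nat_lit 0) (p (nat_lit 0x8000000000800088806860a) (nat_lit 0) (p (nat_lit 0x8000000000800068786058a) (nat_lit 0) (p (nat_lit 0x10687058502) (nat_lit 0) (p (nat_lit 0x606850482) (nat_lit 0) (p (nat_lit 0x16000c) (nat_lit 0) (p (nat_lit 0x68612) (nat_lit 0) (p (nat_lit 0x50592) (nat_lit 0) (p (nat_lit 0x40512) (nat_lit 0) (p (nat_lit 0x50312) (nat_lit 0) (p (nat_lit 0x38292) (nat_lit 0) (p (nat_lit 0x28212) (nat_lit 0) (p (nat_lit 0x38112) (nat_lit 0) (p (nat_lit 0x20092) (nat_lit 0) (p (nat_lit 0x10012) (nat_lit 0) pn))))))))))))))))))))))) :=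
  Cl.node (nat_lit 0xc1) (nat_lit 2) (by decide +kernel) (ClAll.succ (ClAll.succ ClAll.zero n141) n142)

def n169 : Cl (O (nat_lit 5)) (R (nat_lit 143633))
    (p (nat_lit 0xc1) (nat_lit 0) (p (nat_lit 0x119) (nat_lit 1) (p (nat_lit 0xd1) (nat_lit 0) (p (nat_lit 0x81) (nat_lit 0) (p (nat_lit 0x41) (nat_lit 1) (p (nat_lit 0x10a898a08881a) (nat_lit 0) (p (nat_lit 0xa090988079a) (nat_lit 0) (p (nat_lit 0x108088907871a) (nat_lit 0) (p (nat_lit 0x7880887069a) (nat_lit 0) (p (nat_lit 0x8000000000800088806860a) (nat_lit 0) (p (nat_lit 0x8000000000800068786058a) (nat_lit 0) (p (nat_lit 0x10687058502) (nat_lit 0) (p (nat_lit 0x606850482) (nat_lit 0) (p (nat_lit 0x16000c) (nat_lit 0) (p (nat_lit 0x68612) (nat_lit 0) (p (nat_lit 0x50592) (nat_lit 0) (p (nat_lit 0x40512) (nat_lit 0) (p (nat_lit 0x50312) (nat_lit 0) (p (nat_lit 0x38292) (nat_lit 0) (p (nat_lit 0x28212) (nat_lit 0) (p (nat_lit 0x38112)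 (nat_lit 0) (p (nat_lit 0x20092) (nat_lit 0) (p (nat_lit 0x10012) (nat_lit 0) pn))))))))))))))))))))))) :=
  Cl.node (nat_lit 0xc9) (nat_lit 2) (by decide +kernel) (ClAll.succ (ClAll.succ ClAll.zero s245) n143)

def n170 : Cl (O (nat_lit 5)) (R (nat_lit 143633))
    (p (nat_lit 0xc1) (nat_lit 1) (p (nat_lit 0x119) (nat_lit 1) (p (nat_lit 0xd1) (nat_lit 0) (p (nat_lit 0x81) (nat_lit 0) (p (nat_lit 0x41) (nat_lit 1) (p (nat_lit 0x10a898a08881a) (nat_lit 0) (p (nat_lit 0xa090988079a) (nat_lit 0) (p (nat_lit 0x108088907871a) (nat_lit 0) (p (nat_lit 0x7880887069a) (nat_lit 0) (p (nat_lit 0x8000000000800088806860a) (nat_lit 0) (p (nat_lit 0x8000000000800068786058a) (nat_lit 0) (p (nat_lit 0x10687058502) (nat_lit 0) (p (nat_lit 0x606850482) (nat_lit 0) (p (nat_lit 0x16000c) (nat_lit 0) (p (nat_lit 0x68612) (nat_lit 0) (p (nat_lit 0x50592) (nat_lit 0) (p (nat_lit 0x40512) (nat_lit 0) (p (nat_lit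 0x50312) (nat_lit 0) (p (nat_lit 0x38292) (nat_lit 0) (p (nat_lit 0x28212) (nat_lit 0) (p (nat_lit 0x38112) (nat_lit 0) (p (nat_lit 0x20092) (nat_lit 0) (p (nat_lit 0x10012) (nat_lit 0) pn))))))))))))))))))))))) :=
  Cl.node (nat_lit 0x101) (nat_lit 2) (by decide +kernel) (ClAll.succ (ClAll.succ ClAll.zero n144) n145)

def n171 : Cl (O (nat_lit 5)) (R (nat_lit 143633))
    (p (nat_lit 0x101) (nat_lit 0) (p (nat_lit 0x111) (nat_lit 0) (p (nat_lit 0xd1) (nat_lit 1) (p (nat_lit 0x81) (nat_lit 0) (p (nat_lit 0x41) (nat_lit 1) (p (nat_lit 0x10a898a08881a) (nat_lit 0) (p (nat_lit 0xa090988079a) (nat_lit 0) (p (nat_lit 0x108088907871a) (nat_lit 0) (p (nat_lit 0x7880887069a) (nat_lit 0) (p (nat_lit 0x8000000000800088806860a) (nat_lit 0) (p (nat_lit 0x8000000000800068786058a) (nat_lit 0) (p (nat_lit 0x10687058502) (nat_lit 0) (p (nat_lit 0x606850482) (nat_lit 0) (p (nat_lit 0x16000c) (nat_lit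 0) (p (nat_lit 0x68612) (nat_lit 0) (p (nat_lit 0x50592) (nat_lit 0) (p (nat_lit 0x40512) (nat_lit 0) (p (nat_lit 0x50312) (nat_lit 0) (p (nat_lit 0x38292) (nat_lit 0) (p (nat_lit 0x28212) (nat_lit 0) (p (nat_lit 0x38112) (nat_lit 0) (p (nat_lit 0x20092) (nat_lit 0) (p (nat_lit 0x10012) (nat_lit 0) pn))))))))))))))))))))))) :=
  Cl.node (nat_lit 0x109) (nat_lit 2) (by decide +kernel) (ClAll.succ (ClAll.succ ClAll.zero s318) n146)

def n172 : Cl (O (nat_lit 5)) (R (nat_lit 143633))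
    (p (nat_lit 0x101) (nat_lit 1) (p (nat_lit 0x111) (nat_lit 0) (p (nat_lit 0xd1) (nat_lit 1) (p (nat_lit 0x81) (nat_lit 0) (p (nat_lit 0x41) (nat_lit 1) (p (nat_lit 0x10a898a08881a) (nat_lit 0) (p (nat_lit 0xa090988079a) (nat_lit 0) (p (nat_lit 0x108088907871a) (nat_lit 0) (p (nat_lit 0x7880887069a) (nat_lit 0) (p (nat_lit 0x8000000000800088806860a) (nat_lit 0) (p (nat_lit 0x8000000000800068786058a) (nat_lit 0) (p (nat_lit 0x10687058502) (nat_lit 0) (p (nat_lit 0x606850482) (nat_lit 0) (p (nat_lit 0x16000c) (nat_lit 0) (p (nat_lit 0x68612) (nat_lit 0) (p (nat_lit 0x50592) (nat_lit 0) (p (nat_lit 0x40512) (nat_lit 0) (p (nat_lit 0x50312) (nat_lit 0) (p (nat_lit 0x38292) (nat_lit 0) (p (nat_lit 0x28212) (nat_lit 0) (p (nat_lit 0x38112) (nat_lit 0) (p (nat_lit 0x20092) (nat_lit 0) (p (nat_lit 0x10012) (nat_lit 0) pn))))))))))))))))))))))) :=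
  Cl.node (nat_lit 0x89) (nat_lit 2) (by decide +kernel) (ClAll.succ (ClAll.succ ClAll.zero n147) n148)

def n173 : Cl (O (nat_lit 5)) (R (nat_lit 143633))
    (p (nat_lit 0x89) (nat_lit 1) (p (nat_lit 0x111) (nat_lit 1) (p (nat_lit 0xd1) (nat_lit 1) (p (nat_lit 0x81) (nat_lit 0) (p (nat_lit 0x41) (nat_lit 1) (p (nat_lit 0x10a898a08881a) (nat_lit 0) (p (nat_lit 0xa090988079a) (nat_lit 0) (p (nat_lit 0x108088907871a) (nat_lit 0) (p (nat_lit 0x7880887069a) (nat_lit 0) (p (nat_lit 0x8000000000800088806860a) (nat_lit 0) (p (nat_lit 0x8000000000800068786058a) (nat_lit 0) (p (nat_lit 0x10687058502) (nat_lit 0) (p (nat_lit 0x606850482) (nat_lit 0) (p (nat_lit 0x16000c) (nat_lit 0) (p (nat_lit 0x68612) (nat_lit 0) (p (nat_lit 0x50592) (nat_lit 0) (p (nat_lit 0x40512) (nat_lit 0) (p (nat_lit 0x50312) (nat_lit 0) (p (nat_lit 0x38292) (nat_lit 0) (p (nat_lit 0x28212) (nat_lit 0) (p (nat_lit 0x38112)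 (nat_lit 0) (p (nat_lit 0x20092) (nat_lit 0) (p (nat_lit 0x10012) (nat_lit 0) pn))))))))))))))))))))))) :=
  Cl.node (nat_lit 0xc9) (nat_lit 2) (by decide +kernel) (ClAll.succ (ClAll.succ ClAll.zero s349) n149)

def n174 : Cl (O (nat_lit 5)) (R (nat_lit 143633))
    (p (nat_lit 0x101) (nat_lit 0) (p (nat_lit 0x119) (nat_lit 0) (p (nat_lit 0xc1) (nat_lit 0) (p (nat_lit 0x81) (nat_lit 1) (p (nat_lit 0x41) (nat_lit 1) (p (nat_lit 0x10a898a08881a) (nat_lit 0) (p (nat_lit 0xa090988079a) (nat_lit 0) (p (nat_lit 0x108088907871a) (nat_lit 0) (p (nat_lit 0x7880887069a) (nat_lit 0) (p (nat_lit 0x8000000000800088806860a) (nat_lit 0) (p (nat_lit 0x8000000000800068786058a) (nat_lit 0) (p (nat_lit 0x10687058502) (nat_lit 0) (p (nat_lit 0x606850482) (nat_lit 0) (p (nat_lit 0x16000c) (nat_lit 0) (p (nat_lit 0x68612) (nat_lit 0) (p (nat_lit 0x50592) (nat_lit 0) (p (nat_lit 0x40512) (nat_lit 0) (p (nat_lit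 0x50312) (nat_lit 0) (p (nat_lit 0x38292) (nat_lit 0) (p (nat_lit 0x28212) (nat_lit 0) (p (nat_lit 0x38112) (nat_lit 0) (p (nat_lit 0x20092) (nat_lit 0) (p (nat_lit 0x10012) (nat_lit 0) pn))))))))))))))))))))))) :=
  Cl.node (nat_lit 0x109) (nat_lit 2) (by decide +kernel) (ClAll.succ (ClAll.succ ClAll.zero n150) n151)

def n175 : Cl (O (nat_lit 5)) (R (nat_lit 143633))
    (p (nat_lit 0x101) (nat_lit 1) (p (nat_lit 0x119) (nat_lit 0) (p (nat_lit 0xc1) (nat_lit 0) (p (nat_lit 0x81) (nat_lit 1) (p (nat_lit 0x41) (nat_lit 1) (p (nat_lit 0x10a898a08881a) (nat_lit 0) (p (nat_lit 0xa090988079a) (nat_lit 0) (p (nat_lit 0x108088907871a) (nat_lit 0) (p (nat_lit 0x7880887069a) (nat_lit 0) (p (nat_lit 0x8000000000800088806860a) (nat_lit 0) (p (nat_lit 0x8000000000800068786058a) (nat_lit 0) (p (nat_lit 0x10687058502) (nat_lit 0) (p (nat_lit 0x606850482) (nat_lit 0) (p (nat_lit 0x16000c) (nat_lit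 0) (p (nat_lit 0x68612) (nat_lit 0) (p (nat_lit 0x50592) (nat_lit 0) (p (nat_lit 0x40512) (nat_lit 0) (p (nat_lit 0x50312) (nat_lit 0) (p (nat_lit 0x38292) (nat_lit 0) (p (nat_lit 0x28212) (nat_lit 0) (p (nat_lit 0x38112) (nat_lit 0) (p (nat_lit 0x20092) (nat_lit 0) (p (nat_lit 0x10012) (nat_lit 0) pn))))))))))))))))))))))) :=
  Cl.node (nat_lit 0xc9) (nat_lit 2) (by decide +kernel) (ClAll.succ (ClAll.succ ClAll.zero n152) s433)

def n176 : Cl (O (nat_lit 5)) (R (nat_lit 143633))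
    (p (nat_lit 0xc9) (nat_lit 0) (p (nat_lit 0x119) (nat_lit 1) (p (nat_lit 0xc1) (nat_lit 0) (p (nat_lit 0x81) (nat_lit 1) (p (nat_lit 0x41) (nat_lit 1) (p (nat_lit 0x10a898a08881a) (nat_lit 0) (p (nat_lit 0xa090988079a) (nat_lit 0) (p (nat_lit 0x108088907871a) (nat_lit 0) (p (nat_lit 0x7880887069a) (nat_lit 0) (p (nat_lit 0x8000000000800088806860a) (nat_lit 0) (p (nat_lit 0x8000000000800068786058a) (nat_lit 0) (p (nat_lit 0x10687058502) (nat_lit 0) (p (nat_lit 0x606850482) (nat_lit 0) (p (nat_lit 0x16000c) (nat_lit 0) (p (nat_lit 0x68612) (nat_lit 0) (p (nat_lit 0x50592) (nat_lit 0) (p (nat_lit 0x40512) (nat_lit 0) (p (nat_lit 0x50312) (nat_lit 0) (p (nat_lit 0x38292) (nat_lit 0) (p (nat_lit 0x28212) (nat_lit 0) (p (nat_lit 0x38112) (nat_lit 0) (p (nat_lit 0x20092) (nat_lit 0) (p (nat_lit 0x10012) (nat_lit 0) pn))))))))))))))))))))))) :=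
  Cl.node (nat_lit 0xd1) (nat_lit 2) (by decide +kernel) (ClAll.succ (ClAll.succ ClAll.zero s434) n153)

def n177 : Cl (O (nat_lit 5)) (R (nat_lit 143633))
    (p (nat_lit 0xc9) (nat_lit 1) (p (nat_lit 0x119) (nat_lit 1) (p (nat_lit 0xc1) (nat_lit 0) (p (nat_lit 0x81) (nat_lit 1) (p (nat_lit 0x41) (nat_lit 1) (p (nat_lit 0x10a898a08881a) (nat_lit 0) (p (nat_lit 0xa090988079a) (nat_lit 0) (p (nat_lit 0x108088907871a) (nat_lit 0) (p (nat_lit 0x7880887069a) (nat_lit 0) (p (nat_lit 0x8000000000800088806860a) (nat_lit 0) (p (nat_lit 0x8000000000800068786058a) (nat_lit 0) (p (nat_lit 0x10687058502) (nat_lit 0) (p (nat_lit 0x606850482) (nat_lit 0) (p (nat_lit 0x16000c) (nat_lit 0) (p (nat_lit 0x68612) (nat_lit 0) (p (nat_lit 0x50592) (nat_lit 0) (p (nat_lit 0x40512) (nat_lit 0) (p (nat_lit 0x50312) (nat_lit 0) (p (nat_lit 0x38292) (nat_lit 0) (p (nat_lit 0x28212) (nat_lit 0) (p (nat_lit 0x38112)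 (nat_lit 0) (p (nat_lit 0x20092) (nat_lit 0) (p (nat_lit 0x10012) (nat_lit 0) pn))))))))))))))))))))))) :=
  Cl.node (nat_lit 0x109) (nat_lit 2) (by decide +kernel) (ClAll.succ (ClAll.succ ClAll.zero n154) s474)

def n178 : Cl (O (nat_lit 5)) (R (nat_lit 143633))
    (p (nat_lit 0x119) (nat_lit 0) (p (nat_lit 0xd1) (nat_lit 0) (p (nat_lit 0x89) (nat_lit 0) (p (nat_lit 0x41) (nat_lit 0) (p (nat_lit 0x10a898a08881a) (nat_lit 0) (p (nat_lit 0xa090988079a) (nat_lit 0) (p (nat_lit 0x108088907871a) (nat_lit 0) (p (nat_lit 0x7880887069a) (nat_lit 0) (p (nat_lit 0x8000000000800088806860a) (nat_lit 0) (p (nat_lit 0x8000000000800068786058a) (nat_lit 0) (p (nat_lit 0x10687058502) (nat_lit 0) (p (nat_lit 0x606850482) (nat_lit 0) (p (nat_lit 0x16000c) (nat_lit 0) (p (nat_lit 0x68612) (nat_lit 0) (p (nat_lit 0x50592) (nat_lit 0) (p (nat_lit 0x40512) (nat_lit 0) (p (nat_lit 0x50312) (nat_lit 0) (p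 (nat_lit 0x38292) (nat_lit 0) (p (nat_lit 0x28212) (nat_lit 0) (p (nat_lit 0x38112) (nat_lit 0) (p (nat_lit 0x20092) (nat_lit 0) (p (nat_lit 0x10012) (nat_lit 0) pn)))))))))))))))))))))) :=
  Cl.node (nat_lit 0x101) (nat_lit 2) (by decide +kernel) (ClAll.succ (ClAll.succ ClAll.zero n155) n156)

def n179 : Cl (O (nat_lit 5)) (R (nat_lit 143633))
    (p (nat_lit 0x119) (nat_lit 1) (p (nat_lit 0xd1) (nat_lit 0) (p (nat_lit 0x89) (nat_lit 0) (p (nat_lit 0x41) (nat_lit 0) (p (nat_lit 0x10a898a08881a) (nat_lit 0) (p (nat_lit 0xa090988079a) (nat_lit 0) (p (nat_lit 0x108088907871a) (nat_lit 0) (p (nat_lit 0x7880887069a) (nat_lit 0) (p (nat_lit 0x8000000000800088806860a) (nat_lit 0) (p (nat_lit 0x8000000000800068786058a) (nat_lit 0) (p (nat_lit 0x10687058502) (nat_lit 0) (p (nat_lit 0x606850482) (nat_lit 0) (p (nat_lit 0x16000c) (nat_lit 0) (p (nat_lit 0x68612) (nat_lit 0) (p (nat_lit 0x50592)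 (nat_lit 0) (p (nat_lit 0x40512) (nat_lit 0) (p (nat_lit 0x50312) (nat_lit 0) (p (nat_lit 0x38292) (nat_lit 0) (p (nat_lit 0x28212) (nat_lit 0) (p (nat_lit 0x38112) (nat_lit 0) (p (nat_lit 0x20092) (nat_lit 0) (p (nat_lit 0x10012) (nat_lit 0) pn)))))))))))))))))))))) :=
  Cl.node (nat_lit 0xc1) (nat_lit 2) (by decide +kernel) (ClAll.succ (ClAll.succ ClAll.zero n157) n158)

def n180 : Cl (O (nat_lit 5)) (R (nat_lit 143633))
    (p (nat_lit 0x111) (nat_lit 0) (p (nat_lit 0xd1) (nat_lit 1) (p (nat_lit 0x89) (nat_lit 0) (p (nat_lit 0x41) (nat_lit 0) (p (nat_lit 0x10a898a08881a) (nat_lit 0) (p (nat_lit 0xa090988079a) (nat_lit 0) (p (nat_lit 0x108088907871a) (nat_lit 0) (p (nat_lit 0x7880887069a) (nat_lit 0) (p (nat_lit 0x8000000000800088806860a) (nat_lit 0) (p (nat_lit 0x8000000000800068786058a) (nat_lit 0) (p (nat_lit 0x10687058502) (nat_lit 0) (p (nat_lit 0x606850482) (nat_lit 0) (p (nat_lit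 0x16000c) (nat_lit 0) (p (nat_lit 0x68612) (nat_lit 0) (p (nat_lit 0x50592) (nat_lit 0) (p (nat_lit 0x40512) (nat_lit 0) (p (nat_lit 0x50312) (nat_lit 0) (p (nat_lit 0x38292) (nat_lit 0) (p (nat_lit 0x28212) (nat_lit 0) (p (nat_lit 0x38112) (nat_lit 0) (p (nat_lit 0x20092) (nat_lit 0) (p (nat_lit 0x10012) (nat_lit 0) pn)))))))))))))))))))))) :=
  Cl.node (nat_lit 0x101) (nat_lit 2) (by decide +kernel) (ClAll.succ (ClAll.succ ClAll.zero n159) n160)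

def n181 : Cl (O (nat_lit 5)) (R (nat_lit 143633))
    (p (nat_lit 0x111) (nat_lit 1) (p (nat_lit 0xd1) (nat_lit 1) (p (nat_lit 0x89) (nat_lit 0) (p (nat_lit 0x41) (nat_lit 0) (p (nat_lit 0x10a898a08881a) (nat_lit 0) (p (nat_lit 0xa090988079a) (nat_lit 0) (p (nat_lit 0x108088907871a) (nat_lit 0) (p (nat_lit 0x7880887069a) (nat_lit 0) (p (nat_lit 0x8000000000800088806860a) (nat_lit 0) (p (nat_lit 0x8000000000800068786058a) (nat_lit 0) (p (nat_lit 0x10687058502) (nat_lit 0) (p (nat_lit 0x606850482) (nat_lit 0) (p (nat_lit 0x16000c) (nat_lit 0) (p (nat_lit 0x68612) (nat_lit 0) (p (nat_lit 0x50592) (nat_lit 0) (p (nat_lit 0x40512) (nat_lit 0) (p (nat_lit 0x50312) (nat_lit 0) (p (nat_lit 0x38292) (nat_lit 0) (p (nat_lit 0x28212) (nat_lit 0) (p (nat_lit 0x38112) (nat_lit 0) (p (nat_lit 0x20092) (nat_lit 0) (p (nat_lit 0x10012) (nat_lit 0) pn)))))))))))))))))))))) :=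
  Cl.node (nat_lit 0x81) (nat_lit 2) (by decide +kernel) (ClAll.succ (ClAll.succ ClAll.zero s94) n161)

def n182 : Cl (O (nat_lit 5)) (R (nat_lit 143633))
    (p (nat_lit 0x119) (nat_lit 0) (p (nat_lit 0xc9) (nat_lit 0) (p (nat_lit 0x89) (nat_lit 1) (p (nat_lit 0x41) (nat_lit 0) (p (nat_lit 0x10a898a08881a) (nat_lit 0) (p (nat_lit 0xa090988079a) (nat_lit 0) (p (nat_lit 0x108088907871a) (nat_lit 0) (p (nat_lit 0x7880887069a) (nat_lit 0) (p (nat_lit 0x8000000000800088806860a) (nat_lit 0) (p (nat_lit 0x8000000000800068786058a) (nat_lit 0) (p (nat_lit 0x10687058502) (nat_lit 0) (p (nat_lit 0x606850482) (nat_lit 0) (p (nat_lit 0x16000c) (nat_lit 0) (p (nat_lit 0x68612) (nat_lit 0) (p (nat_lit 0x50592) (nat_lit 0) (p (nat_lit 0x40512) (nat_lit 0) (p (nat_lit 0x50312) (nat_lit 0) (p (nat_lit 0x38292) (nat_lit 0) (p (nat_lit 0x28212) (nat_lit 0) (p (nat_lit 0x38112) (nat_lit 0) (p (nat_lit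 0x20092) (nat_lit 0) (p (nat_lit 0x10012) (nat_lit 0) pn)))))))))))))))))))))) :=
  Cl.node (nat_lit 0x101) (nat_lit 2) (by decide +kernel) (ClAll.succ (ClAll.succ ClAll.zero n162) n163)

def n183 : Cl (O (nat_lit 5)) (R (nat_lit 143633))
    (p (nat_lit 0x119) (nat_lit 1) (p (nat_lit 0xc9) (nat_lit 0) (p (nat_lit 0x89) (nat_lit 1) (p (nat_lit 0x41) (nat_lit 0) (p (nat_lit 0x10a898a08881a) (nat_lit 0) (p (nat_lit 0xa090988079a) (nat_lit 0) (p (nat_lit 0x108088907871a) (nat_lit 0) (p (nat_lit 0x7880887069a) (nat_lit 0) (p (nat_lit 0x8000000000800088806860a) (nat_lit 0) (p (nat_lit 0x8000000000800068786058a) (nat_lit 0) (p (nat_lit 0x10687058502) (nat_lit 0) (p (nat_lit 0x606850482) (nat_lit 0) (p (nat_lit 0x16000c) (nat_lit 0) (p (nat_lit 0x68612) (nat_lit 0) (p (nat_lit 0x50592) (nat_lit 0) (p (nat_lit 0x40512) (nat_lit 0) (p (nat_lit 0x50312) (nat_lit 0) (p (nat_lit 0x38292) (nat_lit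 0) (p (nat_lit 0x28212) (nat_lit 0) (p (nat_lit 0x38112) (nat_lit 0) (p (nat_lit 0x20092) (nat_lit 0) (p (nat_lit 0x10012) (nat_lit 0) pn)))))))))))))))))))))) :=
  Cl.node (nat_lit 0xc1) (nat_lit 2) (by decide +kernel) (ClAll.succ (ClAll.succ ClAll.zero n164) n165)

def n184 : Cl (O (nat_lit 5)) (R (nat_lit 143633))
    (p (nat_lit 0x109) (nat_lit 0) (p (nat_lit 0xc9) (nat_lit 1) (p (nat_lit 0x89) (nat_lit 1) (p (nat_lit 0x41) (nat_lit 0) (p (nat_lit 0x10a898a08881a) (nat_lit 0) (p (nat_lit 0xa090988079a) (nat_lit 0) (p (nat_lit 0x108088907871a) (nat_lit 0) (p (nat_lit 0x7880887069a) (nat_lit 0) (p (nat_lit 0x8000000000800088806860a) (nat_lit 0) (p (nat_lit 0x8000000000800068786058a) (nat_lit 0) (p (nat_lit 0x10687058502) (nat_lit 0) (p (nat_lit 0x606850482) (nat_lit 0) (p (nat_lit 0x16000c) (nat_lit 0) (p (nat_lit 0x68612) (nat_lit 0) (p (nat_lit 0x50592) (nat_lit 0) (p (nat_lit 0x40512)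 (nat_lit 0) (p (nat_lit 0x50312) (nat_lit 0) (p (nat_lit 0x38292) (nat_lit 0) (p (nat_lit 0x28212) (nat_lit 0) (p (nat_lit 0x38112) (nat_lit 0) (p (nat_lit 0x20092) (nat_lit 0) (p (nat_lit 0x10012) (nat_lit 0) pn)))))))))))))))))))))) :=
  Cl.node (nat_lit 0x101) (nat_lit 2) (by decide +kernel) (ClAll.succ (ClAll.succ ClAll.zero n166) s210)

def n185 : Cl (O (nat_lit 5)) (R (nat_lit 143633))
    (p (nat_lit 0x119) (nat_lit 0) (p (nat_lit 0xd1) (nat_lit 0) (p (nat_lit 0x81) (nat_lit 0) (p (nat_lit 0x41) (nat_lit 1) (p (nat_lit 0x10a898a08881a) (nat_lit 0) (p (nat_lit 0xa090988079a) (nat_lit 0) (p (nat_lit 0x108088907871a) (nat_lit 0) (p (nat_lit 0x7880887069a) (nat_lit 0) (p (nat_lit 0x8000000000800088806860a) (nat_lit 0) (p (nat_lit 0x8000000000800068786058a) (nat_lit 0) (p (nat_lit 0x10687058502) (nat_lit 0) (p (nat_lit 0x606850482) (nat_lit 0) (p (nat_lit 0x16000c) (nat_lit 0) (p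 (nat_lit 0x68612) (nat_lit 0) (p (nat_lit 0x50592) (nat_lit 0) (p (nat_lit 0x40512) (nat_lit 0) (p (nat_lit 0x50312) (nat_lit 0) (p (nat_lit 0x38292) (nat_lit 0) (p (nat_lit 0x28212) (nat_lit 0) (p (nat_lit 0x38112) (nat_lit 0) (p (nat_lit 0x20092) (nat_lit 0) (p (nat_lit 0x10012) (nat_lit 0) pn)))))))))))))))))))))) :=
  Cl.node (nat_lit 0x101) (nat_lit 2) (by decide +kernel) (ClAll.succ (ClAll.succ ClAll.zero n167) n168)

def n186 : Cl (O (nat_lit 5)) (R (nat_lit 143633))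
    (p (nat_lit 0x119) (nat_lit 1) (p (nat_lit 0xd1) (nat_lit 0) (p (nat_lit 0x81) (nat_lit 0) (p (nat_lit 0x41) (nat_lit 1) (p (nat_lit 0x10a898a08881a) (nat_lit 0) (p (nat_lit 0xa090988079a) (nat_lit 0) (p (nat_lit 0x108088907871a) (nat_lit 0) (p (nat_lit 0x7880887069a) (nat_lit 0) (p (nat_lit 0x8000000000800088806860a) (nat_lit 0) (p (nat_lit 0x8000000000800068786058a) (nat_lit 0) (p (nat_lit 0x10687058502) (nat_lit 0) (p (nat_lit 0x606850482) (nat_lit 0) (p (nat_lit 0x16000c) (nat_lit 0) (p (nat_lit 0x68612) (nat_lit 0) (p (nat_lit 0x50592) (nat_lit 0) (p (nat_lit 0x40512) (nat_lit 0) (p (nat_lit 0x50312) (nat_lit 0) (p (nat_lit 0x38292) (nat_lit 0) (p (nat_lit 0x28212) (nat_lit 0) (p (nat_lit 0x38112) (nat_lit 0) (p (nat_lit 0x20092) (nat_lit 0) (p (nat_lit 0x10012) (nat_lit 0) pn)))))))))))))))))))))) :=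
  Cl.node (nat_lit 0xc1) (nat_lit 2) (by decide +kernel) (ClAll.succ (ClAll.succ ClAll.zero n169) n170)

def n187 : Cl (O (nat_lit 5)) (R (nat_lit 143633))
    (p (nat_lit 0x111) (nat_lit 0) (p (nat_lit 0xd1) (nat_lit 1) (p (nat_lit 0x81) (nat_lit 0) (p (nat_lit 0x41) (nat_lit 1) (p (nat_lit 0x10a898a08881a) (nat_lit 0) (p (nat_lit 0xa090988079a) (nat_lit 0) (p (nat_lit 0x108088907871a) (nat_lit 0) (p (nat_lit 0x7880887069a) (nat_lit 0) (p (nat_lit 0x8000000000800088806860a) (nat_lit 0) (p (nat_lit 0x8000000000800068786058a) (nat_lit 0) (p (nat_lit 0x10687058502) (nat_lit 0) (p (nat_lit 0x606850482) (nat_lit 0) (p (nat_lit 0x16000c) (nat_lit 0) (p (nat_lit 0x68612) (nat_lit 0) (p (nat_lit 0x50592) (nat_lit 0) (p (nat_lit 0x40512) (nat_lit 0) (p (nat_lit 0x50312) (nat_lit 0) (p (nat_lit 0x38292) (nat_lit 0) (p (nat_lit 0x28212) (nat_lit 0) (p (nat_lit 0x38112) (nat_lit 0) (p (nat_lit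 0x20092) (nat_lit 0) (p (nat_lit 0x10012) (nat_lit 0) pn)))))))))))))))))))))) :=
  Cl.node (nat_lit 0x101) (nat_lit 2) (by decide +kernel) (ClAll.succ (ClAll.succ ClAll.zero n171) n172)

def n188 : Cl (O (nat_lit 5)) (R (nat_lit 143633))
    (p (nat_lit 0x111) (nat_lit 1) (p (nat_lit 0xd1) (nat_lit 1) (p (nat_lit 0x81) (nat_lit 0) (p (nat_lit 0x41) (nat_lit 1) (p (nat_lit 0x10a898a08881a) (nat_lit 0) (p (nat_lit 0xa090988079a) (nat_lit 0) (p (nat_lit 0x108088907871a) (nat_lit 0) (p (nat_lit 0x7880887069a) (nat_lit 0) (p (nat_lit 0x8000000000800088806860a) (nat_lit 0) (p (nat_lit 0x8000000000800068786058a) (nat_lit 0) (p (nat_lit 0x10687058502) (nat_lit 0) (p (nat_lit 0x606850482) (nat_lit 0) (p (nat_lit 0x16000c) (nat_lit 0) (p (nat_lit 0x68612) (nat_lit 0) (p (nat_lit 0x50592) (nat_lit 0) (p (nat_lit 0x40512) (nat_lit 0) (p (nat_lit 0x50312) (nat_lit 0) (p (nat_lit 0x38292) (nat_lit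 0) (p (nat_lit 0x28212) (nat_lit 0) (p (nat_lit 0x38112) (nat_lit 0) (p (nat_lit 0x20092) (nat_lit 0) (p (nat_lit 0x10012) (nat_lit 0) pn)))))))))))))))))))))) :=
  Cl.node (nat_lit 0x89) (nat_lit 2) (by decide +kernel) (ClAll.succ (ClAll.succ ClAll.zero s348) n173)

def n189 : Cl (O (nat_lit 5)) (R (nat_lit 143633))
    (p (nat_lit 0x119) (nat_lit 0) (p (nat_lit 0xc1) (nat_lit 0) (p (nat_lit 0x81) (nat_lit 1) (p (nat_lit 0x41) (nat_lit 1) (p (nat_lit 0x10a898a08881a) (nat_lit 0) (p (nat_lit 0xa090988079a) (nat_lit 0) (p (nat_lit 0x108088907871a) (nat_lit 0) (p (nat_lit 0x7880887069a) (nat_lit 0) (p (nat_lit 0x8000000000800088806860a) (nat_lit 0) (p (nat_lit 0x8000000000800068786058a) (nat_lit 0) (p (nat_lit 0x10687058502) (nat_lit 0) (p (nat_lit 0x606850482) (nat_lit 0) (p (nat_lit 0x16000c) (nat_lit 0) (p (nat_lit 0x68612) (nat_lit 0) (p (nat_lit 0x50592) (nat_lit 0) (p (nat_lit 0x40512)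 (nat_lit 0) (p (nat_lit 0x50312) (nat_lit 0) (p (nat_lit 0x38292) (nat_lit 0) (p (nat_lit 0x28212) (nat_lit 0) (p (nat_lit 0x38112) (nat_lit 0) (p (nat_lit 0x20092) (nat_lit 0) (p (nat_lit 0x10012) (nat_lit 0) pn)))))))))))))))))))))) :=
  Cl.node (nat_lit 0x101) (nat_lit 2) (by decide +kernel) (ClAll.succ (ClAll.succ ClAll.zero n174) n175)

def n190 : Cl (O (nat_lit 5)) (R (nat_lit 143633))
    (p (nat_lit 0x119) (nat_lit 1) (p (nat_lit 0xc1) (nat_lit 0) (p (nat_lit 0x81) (nat_lit 1) (p (nat_lit 0x41) (nat_lit 1) (p (nat_lit 0x10a898a08881a) (nat_lit 0) (p (nat_lit 0xa090988079a) (nat_lit 0) (p (nat_lit 0x108088907871a) (nat_lit 0) (p (nat_lit 0x7880887069a) (nat_lit 0) (p (nat_lit 0x8000000000800088806860a) (nat_lit 0) (p (nat_lit 0x8000000000800068786058a) (nat_lit 0) (p (nat_lit 0x10687058502) (nat_lit 0) (p (nat_lit 0x606850482) (nat_lit 0) (p (nat_lit 0x16000c) (nat_lit 0) (p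 (nat_lit 0x68612) (nat_lit 0) (p (nat_lit 0x50592) (nat_lit 0) (p (nat_lit 0x40512) (nat_lit 0) (p (nat_lit 0x50312) (nat_lit 0) (p (nat_lit 0x38292) (nat_lit 0) (p (nat_lit 0x28212) (nat_lit 0) (p (nat_lit 0x38112) (nat_lit 0) (p (nat_lit 0x20092) (nat_lit 0) (p (nat_lit 0x10012) (nat_lit 0) pn)))))))))))))))))))))) :=
  Cl.node (nat_lit 0xc9) (nat_lit 2) (by decide +kernel) (ClAll.succ (ClAll.succ ClAll.zero n176) n177)

def n191 : Cl (O (nat_lit 5)) (R (nat_lit 143633))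
    (p (nat_lit 0xd1) (nat_lit 0) (p (nat_lit 0x89) (nat_lit 0) (p (nat_lit 0x41) (nat_lit 0) (p (nat_lit 0x10a898a08881a) (nat_lit 0) (p (nat_lit 0xa090988079a) (nat_lit 0) (p (nat_lit 0x108088907871a) (nat_lit 0) (p (nat_lit 0x7880887069a) (nat_lit 0) (p (nat_lit 0x8000000000800088806860a) (nat_lit 0) (p (nat_lit 0x8000000000800068786058a) (nat_lit 0) (p (nat_lit 0x10687058502) (nat_lit 0) (p (nat_lit 0x606850482) (nat_lit 0) (p (nat_lit 0x16000c) (nat_lit 0) (p (nat_lit 0x68612) (nat_lit 0) (p (nat_lit 0x50592) (nat_lit 0) (p (nat_lit 0x40512) (nat_lit 0) (p (nat_lit 0x50312) (nat_lit 0) (p (nat_lit 0x38292) (nat_lit 0) (p (nat_lit 0x28212) (nat_lit 0) (p (nat_lit 0x38112) (nat_lit 0) (p (nat_lit 0x20092) (nat_lit 0) (p (nat_lit 0x10012) (nat_lit 0) pn))))))))))))))))))))) :=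
  Cl.node (nat_lit 0x119) (nat_lit 2) (by decide +kernel) (ClAll.succ (ClAll.succ ClAll.zero n178) n179)

def n192 : Cl (O (nat_lit 5)) (R (nat_lit 143633))
    (p (nat_lit 0xd1) (nat_lit 1) (p (nat_lit 0x89) (nat_lit 0) (p (nat_lit 0x41) (nat_lit 0) (p (nat_lit 0x10a898a08881a) (nat_lit 0) (p (nat_lit 0xa090988079a) (nat_lit 0) (p (nat_lit 0x108088907871a) (nat_lit 0) (p (nat_lit 0x7880887069a) (nat_lit 0) (p (nat_lit 0x8000000000800088806860a) (nat_lit 0) (p (nat_lit 0x8000000000800068786058a) (nat_lit 0) (p (nat_lit 0x10687058502) (nat_lit 0) (p (nat_lit 0x606850482) (nat_lit 0) (p (nat_lit 0x16000c) (nat_lit 0) (p (nat_lit 0x68612) (nat_lit 0) (p (nat_lit 0x50592) (nat_lit 0) (p (nat_lit 0x40512) (nat_lit 0) (p (nat_lit 0x50312) (nat_lit 0) (p (nat_lit 0x38292) (nat_lit 0) (p (nat_lit 0x28212) (nat_lit 0) (p (nat_lit 0x38112) (nat_lit 0) (p (nat_lit 0x20092) (nat_lit 0) (p (nat_lit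 0x10012) (nat_lit 0) pn))))))))))))))))))))) :=
  Cl.node (nat_lit 0x111) (nat_lit 2) (by decide +kernel) (ClAll.succ (ClAll.succ ClAll.zero n180) n181)

def n193 : Cl (O (nat_lit 5)) (R (nat_lit 143633))
    (p (nat_lit 0xc9) (nat_lit 0) (p (nat_lit 0x89) (nat_lit 1) (p (nat_lit 0x41) (nat_lit 0) (p (nat_lit 0x10a898a08881a) (nat_lit 0) (p (nat_lit 0xa090988079a) (nat_lit 0) (p (nat_lit 0x108088907871a) (nat_lit 0) (p (nat_lit 0x7880887069a) (nat_lit 0) (p (nat_lit 0x8000000000800088806860a) (nat_lit 0) (p (nat_lit 0x8000000000800068786058a) (nat_lit 0) (p (nat_lit 0x10687058502) (nat_lit 0) (p (nat_lit 0x606850482) (nat_lit 0) (p (nat_lit 0x16000c) (nat_lit 0) (p (nat_lit 0x68612) (nat_lit 0) (p (nat_lit 0x50592) (nat_lit 0) (p (nat_lit 0x40512) (nat_lit 0) (p (nat_lit 0x50312) (nat_lit 0) (p (nat_lit 0x38292) (nat_lit 0) (p (nat_lit 0x28212) (nat_lit 0) (p (nat_lit 0x38112) (nat_lit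 0) (p (nat_lit 0x20092) (nat_lit 0) (p (nat_lit 0x10012) (nat_lit 0) pn))))))))))))))))))))) :=
  Cl.node (nat_lit 0x119) (nat_lit 2) (by decide +kernel) (ClAll.succ (ClAll.succ ClAll.zero n182) n183)

def n194 : Cl (O (nat_lit 5)) (R (nat_lit 143633))
    (p (nat_lit 0xc9) (nat_lit 1) (p (nat_lit 0x89) (nat_lit 1) (p (nat_lit 0x41) (nat_lit 0) (p (nat_lit 0x10a898a08881a) (nat_lit 0) (p (nat_lit 0xa090988079a) (nat_lit 0) (p (nat_lit 0x108088907871a) (nat_lit 0) (p (nat_lit 0x7880887069a) (nat_lit 0) (p (nat_lit 0x8000000000800088806860a) (nat_lit 0) (p (nat_lit 0x8000000000800068786058a) (nat_lit 0) (p (nat_lit 0x10687058502) (nat_lit 0) (p (nat_lit 0x606850482) (nat_lit 0) (p (nat_lit 0x16000c) (nat_lit 0) (p (nat_lit 0x68612) (nat_lit 0) (p (nat_lit 0x50592) (nat_lit 0) (p (nat_lit 0x40512) (nat_lit 0) (p (nat_lit 0x50312) (nat_lit 0) (p (nat_lit 0x38292) (nat_lit 0) (p (nat_lit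 0x28212) (nat_lit 0) (p (nat_lit 0x38112) (nat_lit 0) (p (nat_lit 0x20092) (nat_lit 0) (p (nat_lit 0x10012) (nat_lit 0) pn))))))))))))))))))))) :=
  Cl.node (nat_lit 0x109) (nat_lit 2) (by decide +kernel) (ClAll.succ (ClAll.succ ClAll.zero n184) s211)

def n195 : Cl (O (nat_lit 5)) (R (nat_lit 143633))
    (p (nat_lit 0xd1) (nat_lit 0) (p (nat_lit 0x81) (nat_lit 0) (p (nat_lit 0x41) (nat_lit 1) (p (nat_lit 0x10a898a08881a) (nat_lit 0) (p (nat_lit 0xa090988079a) (nat_lit 0) (p (nat_lit 0x108088907871a) (nat_lit 0) (p (nat_lit 0x7880887069a) (nat_lit 0) (p (nat_lit 0x8000000000800088806860a) (nat_lit 0) (p (nat_lit 0x8000000000800068786058a) (nat_lit 0) (p (nat_lit 0x10687058502) (nat_lit 0) (p (nat_lit 0x606850482) (nat_lit 0) (p (nat_lit 0x16000c) (nat_lit 0) (p (nat_lit 0x68612) (nat_lit 0) (p (nat_lit 0x50592) (nat_lit 0) (p (nat_lit 0x40512) (nat_lit 0) (p (nat_lit 0x50312) (nat_lit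 0) (p (nat_lit 0x38292) (nat_lit 0) (p (nat_lit 0x28212) (nat_lit 0) (p (nat_lit 0x38112) (nat_lit 0) (p (nat_lit 0x20092) (nat_lit 0) (p (nat_lit 0x10012) (nat_lit 0) pn))))))))))))))))))))) :=
  Cl.node (nat_lit 0x119) (nat_lit 2) (by decide +kernel) (ClAll.succ (ClAll.succ ClAll.zero n185) n186)

def n196 : Cl (O (nat_lit 5)) (R (nat_lit 143633))
    (p (nat_lit 0xd1) (nat_lit 1) (p (nat_lit 0x81) (nat_lit 0) (p (nat_lit 0x41) (nat_lit 1) (p (nat_lit 0x10a898a08881a) (nat_lit 0) (p (nat_lit 0xa090988079a) (nat_lit 0) (p (nat_lit 0x108088907871a) (nat_lit 0) (p (nat_lit 0x7880887069a) (nat_lit 0) (p (nat_lit 0x8000000000800088806860a) (nat_lit 0) (p (nat_lit 0x8000000000800068786058a) (nat_lit 0) (p (nat_lit 0x10687058502) (nat_lit 0) (p (nat_lit 0x606850482) (nat_lit 0) (p (nat_lit 0x16000c) (nat_lit 0) (p (nat_lit 0x68612) (nat_lit 0) (p (nat_lit 0x50592) (nat_lit 0) (p (nat_lit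 0x40512) (nat_lit 0) (p (nat_lit 0x50312) (nat_lit 0) (p (nat_lit 0x38292) (nat_lit 0) (p (nat_lit 0x28212) (nat_lit 0) (p (nat_lit 0x38112) (nat_lit 0) (p (nat_lit 0x20092) (nat_lit 0) (p (nat_lit 0x10012) (nat_lit 0) pn))))))))))))))))))))) :=
  Cl.node (nat_lit 0x111) (nat_lit 2) (by decide +kernel) (ClAll.succ (ClAll.succ ClAll.zero n187) n188)

def n197 : Cl (O (nat_lit 5)) (R (nat_lit 143633))
    (p (nat_lit 0xc1) (nat_lit 0) (p (nat_lit 0x81) (nat_lit 1) (p (nat_lit 0x41) (nat_lit 1) (p (nat_lit 0x10a898a08881a) (nat_lit 0) (p (nat_lit 0xa090988079a) (nat_lit 0) (p (nat_lit 0x108088907871a) (nat_lit 0) (p (nat_lit 0x7880887069a) (nat_lit 0) (p (nat_lit 0x8000000000800088806860a) (nat_lit 0) (p (nat_lit 0x8000000000800068786058a) (nat_lit 0) (p (nat_lit 0x10687058502) (nat_lit 0) (p (nat_lit 0x606850482) (nat_lit 0) (p (nat_lit 0x16000c) (nat_lit 0) (p (nat_lit 0x68612) (nat_lit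 0) (p (nat_lit 0x50592) (nat_lit 0) (p (nat_lit 0x40512) (nat_lit 0) (p (nat_lit 0x50312) (nat_lit 0) (p (nat_lit 0x38292) (nat_lit 0) (p (nat_lit 0x28212) (nat_lit 0) (p (nat_lit 0x38112) (nat_lit 0) (p (nat_lit 0x20092) (nat_lit 0) (p (nat_lit 0x10012) (nat_lit 0) pn))))))))))))))))))))) :=
  Cl.node (nat_lit 0x119) (nat_lit 2) (by decide +kernel) (ClAll.succ (ClAll.succ ClAll.zero n189) n190)

def n198 : Cl (O (nat_lit 5)) (R (nat_lit 143633))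
    (p (nat_lit 0x89) (nat_lit 0) (p (nat_lit 0x41) (nat_lit 0) (p (nat_lit 0x10a898a08881a) (nat_lit 0) (p (nat_lit 0xa090988079a) (nat_lit 0) (p (nat_lit 0x108088907871a) (nat_lit 0) (p (nat_lit 0x7880887069a) (nat_lit 0) (p (nat_lit 0x8000000000800088806860a) (nat_lit 0) (p (nat_lit 0x8000000000800068786058a) (nat_lit 0) (p (nat_lit 0x10687058502) (nat_lit 0) (p (nat_lit 0x606850482) (nat_lit 0) (p (nat_lit 0x16000c) (nat_lit 0) (p (nat_lit 0x68612) (nat_lit 0) (p (nat_lit 0x50592) (nat_lit 0) (p (nat_lit 0x40512) (nat_lit 0) (p (nat_lit 0x50312) (nat_lit 0) (p (nat_lit 0x38292) (nat_lit 0) (p (nat_lit 0x28212) (nat_lit 0) (p (nat_lit 0x38112) (nat_lit 0) (p (nat_lit 0x20092) (nat_lit 0) (p (nat_lit 0x10012) (nat_lit 0) pn)))))))))))))))))))) :=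
  Cl.node (nat_lit 0xd1) (nat_lit 2) (by decide +kernel) (ClAll.succ (ClAll.succ ClAll.zero n191) n192)

def n199 : Cl (O (nat_lit 5)) (R (nat_lit 143633))
    (p (nat_lit 0x89) (nat_lit 1) (p (nat_lit 0x41) (nat_lit 0) (p (nat_lit 0x10a898a08881a) (nat_lit 0) (p (nat_lit 0xa090988079a) (nat_lit 0) (p (nat_lit 0x108088907871a) (nat_lit 0) (p (nat_lit 0x7880887069a) (nat_lit 0) (p (nat_lit 0x8000000000800088806860a) (nat_lit 0) (p (nat_lit 0x8000000000800068786058a) (nat_lit 0) (p (nat_lit 0x10687058502) (nat_lit 0) (p (nat_lit 0x606850482) (nat_lit 0) (p (nat_lit 0x16000c) (nat_lit 0) (p (nat_lit 0x68612) (nat_lit 0) (p (nat_lit 0x50592) (nat_lit 0) (p (nat_lit 0x40512) (nat_lit 0) (p (nat_lit 0x50312) (nat_lit 0) (p (nat_lit 0x38292) (nat_lit 0) (p (nat_lit 0x28212) (nat_lit 0) (p (nat_lit 0x38112) (nat_lit 0) (p (nat_lit 0x20092) (nat_lit 0) (p (nat_lit 0x10012) (nat_lit 0) pn))))))))))))))))))))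 :=
  Cl.node (nat_lit 0xc9) (nat_lit 2) (by decide +kernel) (ClAll.succ (ClAll.succ ClAll.zero n193) n194)

def n200 : Cl (O (nat_lit 5)) (R (nat_lit 143633))
    (p (nat_lit 0x81) (nat_lit 0) (p (nat_lit 0x41) (nat_lit 1) (p (nat_lit 0x10a898a08881a) (nat_lit 0) (p (nat_lit 0xa090988079a) (nat_lit 0) (p (nat_lit 0x108088907871a) (nat_lit 0) (p (nat_lit 0x7880887069a) (nat_lit 0) (p (nat_lit 0x8000000000800088806860a) (nat_lit 0) (p (nat_lit 0x8000000000800068786058a) (nat_lit 0) (p (nat_lit 0x10687058502) (nat_lit 0) (p (nat_lit 0x606850482) (nat_lit 0) (p (nat_lit 0x16000c) (nat_lit 0) (p (nat_lit 0x68612) (nat_lit 0) (p (nat_lit 0x50592) (nat_lit 0) (p (nat_lit 0x40512) (nat_lit 0) (p (nat_lit 0x50312) (nat_lit 0) (p (nat_lit 0x38292) (nat_lit 0) (p (nat_lit 0x28212) (nat_lit 0) (p (nat_lit 0x38112) (nat_lit 0) (p (nat_lit 0x20092) (nat_lit 0) (p (nat_lit 0x10012) (nat_lit 0) pn))))))))))))))))))))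 :=
  Cl.node (nat_lit 0xd1) (nat_lit 2) (by decide +kernel) (ClAll.succ (ClAll.succ ClAll.zero n195) n196)

def n201 : Cl (O (nat_lit 5)) (R (nat_lit 143633))
    (p (nat_lit 0x81) (nat_lit 1) (p (nat_lit 0x41) (nat_lit 1) (p (nat_lit 0x10a898a08881a) (nat_lit 0) (p (nat_lit 0xa090988079a) (nat_lit 0) (p (nat_lit 0x108088907871a) (nat_lit 0) (p (nat_lit 0x7880887069a) (nat_lit 0) (p (nat_lit 0x8000000000800088806860a) (nat_lit 0) (p (nat_lit 0x8000000000800068786058a) (nat_lit 0) (p (nat_lit 0x10687058502) (nat_lit 0) (p (nat_lit 0x606850482) (nat_lit 0) (p (nat_lit 0x16000c) (nat_lit 0) (p (nat_lit 0x68612) (nat_lit 0) (p (nat_lit 0x50592) (nat_lit 0) (p (nat_lit 0x40512) (nat_lit 0) (p (nat_lit 0x50312) (nat_lit 0) (p (nat_lit 0x38292) (nat_lit 0) (p (nat_lit 0x28212) (nat_lit 0) (p (nat_lit 0x38112) (nat_lit 0) (p (nat_lit 0x20092) (nat_lit 0) (p (nat_lit 0x10012) (nat_lit 0) pn))))))))))))))))))))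 :=
  Cl.node (nat_lit 0xc1) (nat_lit 2) (by decide +kernel) (ClAll.succ (ClAll.succ ClAll.zero n197) s475)

def n202 : Cl (O (nat_lit 5)) (R (nat_lit 143633))
    (p (nat_lit 0x41) (nat_lit 0) (p (nat_lit 0x10a898a08881a) (nat_lit 0) (p (nat_lit 0xa090988079a) (nat_lit 0) (p (nat_lit 0x108088907871a) (nat_lit 0) (p (nat_lit 0x7880887069a) (nat_lit 0) (p (nat_lit 0x8000000000800088806860a) (nat_lit 0) (p (nat_lit 0x8000000000800068786058a) (nat_lit 0) (p (nat_lit 0x10687058502) (nat_lit 0) (p (nat_lit 0x606850482) (nat_lit 0) (p (nat_lit 0x16000c) (nat_lit 0) (p (nat_lit 0x68612) (nat_lit 0) (p (nat_lit 0x50592) (nat_lit 0) (p (nat_lit 0x40512) (nat_lit 0) (p (nat_lit 0x50312) (nat_lit 0) (p (nat_lit 0x38292) (nat_lit 0) (p (nat_lit 0x28212) (nat_lit 0) (p (nat_lit 0x38112) (nat_lit 0) (p (nat_lit 0x20092) (nat_lit 0) (p (nat_lit 0x10012) (nat_lit 0) pn))))))))))))))))))) :=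
  Cl.node (nat_lit 0x89) (nat_lit 2) (by decide +kernel) (ClAll.succ (ClAll.succ ClAll.zero n198) n199)

def n203 : Cl (O (nat_lit 5)) (R (nat_lit 143633))
    (p (nat_lit 0x41) (nat_lit 1) (p (nat_lit 0x10a898a08881a) (nat_lit 0) (p (nat_lit 0xa090988079a) (nat_lit 0) (p (nat_lit 0x108088907871a) (nat_lit 0) (p (nat_lit 0x7880887069a) (nat_lit 0) (p (nat_lit 0x8000000000800088806860a) (nat_lit 0) (p (nat_lit 0x8000000000800068786058a) (nat_lit 0) (p (nat_lit 0x10687058502) (nat_lit 0) (p (nat_lit 0x606850482) (nat_lit 0) (p (nat_lit 0x16000c) (nat_lit 0) (p (nat_lit 0x68612) (nat_lit 0) (p (nat_lit 0x50592) (nat_lit 0) (p (nat_lit 0x40512) (nat_lit 0) (p (nat_lit 0x50312) (nat_lit 0) (p (nat_lit 0x38292) (nat_lit 0) (p (nat_lit 0x28212) (nat_lit 0) (p (nat_lit 0x38112) (nat_lit 0) (p (nat_lit 0x20092) (nat_lit 0) (p (nat_lit 0x10012) (nat_lit 0) pn))))))))))))))))))) :=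
  Cl.node (nat_lit 0x81) (nat_lit 2) (by decide +kernel) (ClAll.succ (ClAll.succ ClAll.zero n200) n201)

def n204 : Cl (O (nat_lit 5)) (R (nat_lit 143633))
    (p (nat_lit 0x10a898a08881a) (nat_lit 0) (p (nat_lit 0xa090988079a) (nat_lit 0) (p (nat_lit 0x108088907871a) (nat_lit 0) (p (nat_lit 0x7880887069a) (nat_lit 0) (p (nat_lit 0x8000000000800088806860a) (nat_lit 0) (p (nat_lit 0x8000000000800068786058a) (nat_lit 0) (p (nat_lit 0x10687058502) (nat_lit 0) (p (nat_lit 0x606850482) (nat_lit 0) (p (nat_lit 0x16000c) (nat_lit 0) (p (nat_lit 0x68612) (nat_lit 0) (p (nat_lit 0x50592) (nat_lit 0) (p (nat_lit 0x40512) (nat_lit 0) (p (nat_lit 0x50312) (nat_lit 0) (p (nat_lit 0x38292) (nat_lit 0) (p (nat_lit 0x28212) (nat_lit 0) (p (nat_lit 0x38112) (nat_lit 0) (p (nat_lit 0x20092) (nat_lit 0) (p (nat_lit 0x10012) (nat_lit 0) pn)))))))))))))))))) :=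
  Cl.node (nat_lit 0x41) (nat_lit 2) (by decide +kernel) (ClAll.succ (ClAll.succ ClAll.zero n202) n203)

def n205 : Cl (O (nat_lit 5)) (R (nat_lit 143633))
    (p (nat_lit 0xa090988079a) (nat_lit 0) (p (nat_lit 0x108088907871a) (nat_lit 0) (p (nat_lit 0x7880887069a) (nat_lit 0) (p (nat_lit 0x8000000000800088806860a) (nat_lit 0) (p (nat_lit 0x8000000000800068786058a) (nat_lit 0) (p (nat_lit 0x10687058502) (nat_lit 0) (p (nat_lit 0x606850482) (nat_lit 0) (p (nat_lit 0x16000c) (nat_lit 0) (p (nat_lit 0x68612) (nat_lit 0) (p (nat_lit 0x50592) (nat_lit 0) (p (nat_lit 0x40512) (nat_lit 0) (p (nat_lit 0x50312) (nat_lit 0) (p (nat_lit 0x38292) (nat_lit 0) (p (nat_lit 0x28212) (nat_lit 0) (p (nat_lit 0x38112) (nat_lit 0) (p (nat_lit 0x20092) (nat_lit 0) (p (nat_lit 0x10012) (nat_lit 0) pn))))))))))))))))) :=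
  Cl.node (nat_lit 0x10a898a08881a) (nat_lit 1) (by decide +kernel) (ClAll.succ ClAll.zero n204)

def n206 : Cl (O (nat_lit 5)) (R (nat_lit 143633))
    (p (nat_lit 0x108088907871a) (nat_lit 0) (p (nat_lit 0x7880887069a) (nat_lit 0) (p (nat_lit 0x8000000000800088806860a) (nat_lit 0) (p (nat_lit 0x8000000000800068786058a) (nat_lit 0) (p (nat_lit 0x10687058502) (nat_lit 0) (p (nat_lit 0x606850482) (nat_lit 0) (p (nat_lit 0x16000c) (nat_lit 0) (p (nat_lit 0x68612) (nat_lit 0) (p (nat_lit 0x50592) (nat_lit 0) (p (nat_lit 0x40512) (nat_lit 0) (p (nat_lit 0x50312) (nat_lit 0) (p (nat_lit 0x38292) (nat_lit 0) (p (nat_lit 0x28212) (nat_lit 0) (p (nat_lit 0x38112) (nat_lit 0) (p (nat_lit 0x20092) (nat_lit 0) (p (nat_lit 0x10012) (nat_lit 0) pn)))))))))))))))) :=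
  Cl.node (nat_lit 0xa090988079a) (nat_lit 1) (by decide +kernel) (ClAll.succ ClAll.zero n205)

def n207 : Cl (O (nat_lit 5)) (R (nat_lit 143633))
    (p (nat_lit 0x7880887069a) (nat_lit 0) (p (nat_lit 0x8000000000800088806860a) (nat_lit 0) (p (nat_lit 0x8000000000800068786058a) (nat_lit 0) (p (nat_lit 0x10687058502) (nat_lit 0) (p (nat_lit 0x606850482) (nat_lit 0) (p (nat_lit 0x16000c) (nat_lit 0) (p (nat_lit 0x68612) (nat_lit 0) (p (nat_lit 0x50592) (nat_lit 0) (p (nat_lit 0x40512) (nat_lit 0) (p (nat_lit 0x50312) (nat_lit 0) (p (nat_lit 0x38292) (nat_lit 0) (p (nat_lit 0x28212) (nat_lit 0) (p (nat_lit 0x38112) (nat_lit 0) (p (nat_lit 0x20092) (nat_lit 0) (p (nat_lit 0x10012) (nat_lit 0) pn))))))))))))))) :=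
  Cl.node (nat_lit 0x108088907871a) (nat_lit 1) (by decide +kernel) (ClAll.succ ClAll.zero n206)

def n208 : Cl (O (nat_lit 5)) (R (nat_lit 143633))
    (p (nat_lit 0x8000000000800088806860a) (nat_lit 0) (p (nat_lit 0x8000000000800068786058a) (nat_lit 0) (p (nat_lit 0x10687058502) (nat_lit 0) (p (nat_lit 0x606850482) (nat_lit 0) (p (nat_lit 0x16000c) (nat_lit 0) (p (nat_lit 0x68612) (nat_lit 0) (p (nat_lit 0x50592) (nat_lit 0) (p (nat_lit 0x40512) (nat_lit 0) (p (nat_lit 0x50312) (nat_lit 0) (p (nat_lit 0x38292) (nat_lit 0) (p (nat_lit 0x28212) (nat_lit 0) (p (nat_lit 0x38112) (nat_lit 0) (p (nat_lit 0x20092) (nat_lit 0) (p (nat_lit 0x10012) (nat_lit 0) pn)))))))))))))) :=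
  Cl.node (nat_lit 0x7880887069a) (nat_lit 1) (by decide +kernel) (ClAll.succ ClAll.zero n207)

def n209 : Cl (O (nat_lit 5)) (R (nat_lit 143633))
    (p (nat_lit 0x8000000000800068786058a) (nat_lit 0) (p (nat_lit 0x10687058502) (nat_lit 0) (p (nat_lit 0x606850482) (nat_lit 0) (p (nat_lit 0x16000c) (nat_lit 0) (p (nat_lit 0x68612) (nat_lit 0) (p (nat_lit 0x50592) (nat_lit 0) (p (nat_lit 0x40512) (nat_lit 0) (p (nat_lit 0x50312) (nat_lit 0) (p (nat_lit 0x38292) (nat_lit 0) (p (nat_lit 0x28212) (nat_lit 0) (p (nat_lit 0x38112) (nat_lit 0) (p (nat_lit 0x20092) (nat_lit 0) (p (nat_lit 0x10012) (nat_lit 0) pn))))))))))))) :=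
  Cl.node (nat_lit 0x8000000000800088806860a) (nat_lit 1) (by decide +kernel) (ClAll.succ ClAll.zero n208)

def n210 : Cl (O (nat_lit 5)) (R (nat_lit 143633))
    (p (nat_lit 0x10687058502) (nat_lit 0) (p (nat_lit 0x606850482) (nat_lit 0) (p (nat_lit 0x16000c) (nat_lit 0) (p (nat_lit 0x68612) (nat_lit 0) (p (nat_lit 0x50592) (nat_lit 0) (p (nat_lit 0x40512) (nat_lit 0) (p (nat_lit 0x50312) (nat_lit 0) (p (nat_lit 0x38292) (nat_lit 0) (p (nat_lit 0x28212) (nat_lit 0) (p (nat_lit 0x38112) (nat_lit 0) (p (nat_lit 0x20092) (nat_lit 0) (p (nat_lit 0x10012) (nat_lit 0) pn)))))))))))) :=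
  Cl.node (nat_lit 0x8000000000800068786058a) (nat_lit 1) (by decide +kernel) (ClAll.succ ClAll.zero n209)

def n211 : Cl (O (nat_lit 5)) (R (nat_lit 143633))
    (p (nat_lit 0x606850482) (nat_lit 0) (p (nat_lit 0x16000c) (nat_lit 0) (p (nat_lit 0x68612) (nat_lit 0) (p (nat_lit 0x50592) (nat_lit 0) (p (nat_lit 0x40512) (nat_lit 0) (p (nat_lit 0x50312) (nat_lit 0) (p (nat_lit 0x38292) (nat_lit 0) (p (nat_lit 0x28212) (nat_lit 0) (p (nat_lit 0x38112) (nat_lit 0) (p (nat_lit 0x20092) (nat_lit 0) (p (nat_lit 0x10012) (nat_lit 0) pn))))))))))) :=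
  Cl.node (nat_lit 0x10687058502) (nat_lit 1) (by decide +kernel) (ClAll.succ ClAll.zero n210)

def n212 : Cl (O (nat_lit 5)) (R (nat_lit 143633))
    (p (nat_lit 0x16000c) (nat_lit 0) (p (nat_lit 0x68612) (nat_lit 0) (p (nat_lit 0x50592) (nat_lit 0) (p (nat_lit 0x40512) (nat_lit 0) (p (nat_lit 0x50312) (nat_lit 0) (p (nat_lit 0x38292) (nat_lit 0) (p (nat_lit 0x28212) (nat_lit 0) (p (nat_lit 0x38112) (nat_lit 0) (p (nat_lit 0x20092) (nat_lit 0) (p (nat_lit 0x10012) (nat_lit 0) pn)))))))))) :=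
  Cl.node (nat_lit 0x606850482) (nat_lit 1) (by decide +kernel) (ClAll.succ ClAll.zero n211)

def n213 : Cl (O (nat_lit 5)) (R (nat_lit 143633))
    (p (nat_lit 0x68612) (nat_lit 0) (p (nat_lit 0x50592) (nat_lit 0) (p (nat_lit 0x40512) (nat_lit 0) (p (nat_lit 0x50312) (nat_lit 0) (p (nat_lit 0x38292) (nat_lit 0) (p (nat_lit 0x28212) (nat_lit 0) (p (nat_lit 0x38112) (nat_lit 0) (p (nat_lit 0x20092) (nat_lit 0) (p (nat_lit 0x10012) (nat_lit 0) pn))))))))) :=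
  Cl.node (nat_lit 0x16000c) (nat_lit 2) (by decide +kernel) (ClAll.succ (ClAll.succ ClAll.zero n212) s476)

def n214 : Cl (O (nat_lit 5)) (R (nat_lit 143633))
    (p (nat_lit 0x50592) (nat_lit 0) (p (nat_lit 0x40512) (nat_lit 0) (p (nat_lit 0x50312) (nat_lit 0) (p (nat_lit 0x38292) (nat_lit 0) (p (nat_lit 0x28212) (nat_lit 0) (p (nat_lit 0x38112) (nat_lit 0) (p (nat_lit 0x20092) (nat_lit 0) (p (nat_lit 0x10012) (nat_lit 0) pn)))))))) :=
  Cl.node (nat_lit 0x68612) (nat_lit 1) (by decide +kernel) (ClAll.succ ClAll.zero n213)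

def n215 : Cl (O (nat_lit 5)) (R (nat_lit 143633))
    (p (nat_lit 0x40512) (nat_lit 0) (p (nat_lit 0x50312) (nat_lit 0) (p (nat_lit 0x38292) (nat_lit 0) (p (nat_lit 0x28212) (nat_lit 0) (p (nat_lit 0x38112) (nat_lit 0) (p (nat_lit 0x20092) (nat_lit 0) (p (nat_lit 0x10012) (nat_lit 0) pn))))))) :=
  Cl.node (nat_lit 0x50592) (nat_lit 1) (by decide +kernel) (ClAll.succ ClAll.zero n214)

def n216 : Cl (O (nat_lit 5)) (R (nat_lit 143633))
    (p (nat_lit 0x50312) (nat_lit 0) (p (nat_lit 0x38292) (nat_lit 0) (p (nat_lit 0x28212) (nat_lit 0) (p (nat_lit 0x38112) (nat_lit 0) (p (nat_lit 0x20092) (nat_lit 0) (p (nat_lit 0x10012) (nat_lit 0) pn)))))) :=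
  Cl.node (nat_lit 0x40512) (nat_lit 1) (by decide +kernel) (ClAll.succ ClAll.zero n215)

def n217 : Cl (O (nat_lit 5)) (R (nat_lit 143633))
    (p (nat_lit 0x38292) (nat_lit 0) (p (nat_lit 0x28212) (nat_lit 0) (p (nat_lit 0x38112) (nat_lit 0) (p (nat_lit 0x20092) (nat_lit 0) (p (nat_lit 0x10012) (nat_lit 0) pn))))) :=
  Cl.node (nat_lit 0x50312) (nat_lit 1) (by decide +kernel) (ClAll.succ ClAll.zero n216)

def n218 : Cl (O (nat_lit 5)) (R (nat_lit 143633))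
    (p (nat_lit 0x28212) (nat_lit 0) (p (nat_lit 0x38112) (nat_lit 0) (p (nat_lit 0x20092) (nat_lit 0) (p (nat_lit 0x10012) (nat_lit 0) pn)))) :=
  Cl.node (nat_lit 0x38292) (nat_lit 1) (by decide +kernel) (ClAll.succ ClAll.zero n217)

def n219 : Cl (O (nat_lit 5)) (R (nat_lit 143633))
    (p (nat_lit 0x38112) (nat_lit 0) (p (nat_lit 0x20092) (nat_lit 0) (p (nat_lit 0x10012) (nat_lit 0) pn))) :=
  Cl.node (nat_lit 0x28212) (nat_lit 1) (by decide +kernel) (ClAll.succ ClAll.zero n218)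

def n220 : Cl (O (nat_lit 5)) (R (nat_lit 143633))
    (p (nat_lit 0x20092) (nat_lit 0) (p (nat_lit 0x10012) (nat_lit 0) pn)) :=
  Cl.node (nat_lit 0x38112) (nat_lit 1) (by decide +kernel) (ClAll.succ ClAll.zero n219)

def n221 : Cl (O (nat_lit 5)) (R (nat_lit 143633))
    (p (nat_lit 0x10012) (nat_lit 0) pn) :=
  Cl.node (nat_lit 0x20092) (nat_lit 1) (by decide +kernel) (ClAll.succ ClAll.zero n220)

def n222 : Cl (O (nat_lit 5)) (R (nat_lit 143633))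
    pn :=
  Cl.node (nat_lit 0x10012) (nat_lit 1) (by decide +kernel) (ClAll.succ ClAll.zero n221)

theorem top : Cl (O (nat_lit 5)) (R (nat_lit 143633)) pn := n222

end Pool.Agent.Gen.F5.X12DC3Dm5
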